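import Pool.Agent.K9h54.MP.Circ
import Pool.Agent.H373R2.T7.SupE2

set_option autoImplicit false

/-!
# One more prime: the mean square over the shifts
-/

namespace Pool.Agent.K9h54.TF

open Finset
open scoped ArithmeticFunction.vonMangoldt
open Pool.Agent.H807R2.Dav (ee norm_ee)
open Pool.Agent.H373R2.T7 (lamz pz mem_pz Vz)
open Pool.Agent.Y883.GJ

/-- the von Mangoldt function minus its sieve model on `[1, N]`, as a function of an integer -/
noncomputable def EX (z N : ℕ) (v : ℤ) : ℝ :=
  if 1 ≤ v ∧ v ≤ N then Λ v.toNat - lamz z v.toNat else 0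

theorem l2 (U : ℕ) : ∃ B : ℕ, ∀ E : ℕ, ∃ N0 : ℕ, ∀ N : ℕ, N0 ≤ N → ∀ z : ℕ, Real.log N ^ B ≤ z →
    (z : ℝ) ≤ Real.log N ^ E → ∀ A ⊆ Icc 1 N,
      ∑ d ∈ Icc (-(N : ℤ)) N, (∑ n ∈ A, EX z N (n + d)) ^ 2 ≤ (N / Real.log N ^ U) ^ 2 * A.card := by
  classical
  obtain ⟨B, hB⟩ := Pool.Agent.H373R2.T7.sup_diff U
  refine ⟨B, fun E => ?_⟩
  obtain ⟨N0, hN0⟩ := hB E
  refine ⟨max N0 3, fun N hN z hz1 hz2 A hA => ?_⟩
  have hsup := hN0 N ((le_max_left _ _).trans hN) z hz1 hz2
  have hN3 : 3 ≤ N := (le_max_right _ _).trans hN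
  obtain ⟨F, hF⟩ : ∃ F : ℕ → ℂ, F = fun n => ((Λ n - lamz z n : ℝ) : ℂ) := ⟨_, rfl⟩
  obtain ⟨G, hG⟩ : ∃ G : ℕ → ℂ, G = fun n => if n ∈ A then 1 else 0 := ⟨_, rfl⟩
  have h1 := Pool.Agent.K9h54.MP.circ (q := 1) (N := N) (by omega) F G 0
    (fun n _ h => absurd (Subsingleton.elim _ _) h) ((N / Real.log N ^ U) ^ 2) (by
      intro β
      have e1 : ∀ b : ZMod 1, cl 1 N F β b = ∑ n ∈ Icc 1 N, ((Λ n - lamz z n : ℝ) : ℂ) * ee ((n : ℝ) * β) := by
        intro b
        unfold cl
        rw [hF, filter_true_of_mem (fun n _ => Subsingleton.elim _ _)]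
      simp_rw [e1]
      rw [sum_const, card_univ, ZMod.card, one_smul]
      exact pow_le_pow_left₀ (norm_nonneg _) (hsup β) 2)
  have h2 : ∑ n ∈ Icc 1 N, ‖G n‖ ^ 2 = A.card := by
    have : ∀ n, ‖G n‖ ^ 2 = if n ∈ A then (1 : ℝ) else 0 := by
      intro n
      rw [hG]
      simp only
      split_ifs <;> simp
    simp_rw [this]
    rw [← sum_filter, sum_const, nsmul_eq_mul, mul_one]
    congr 2
    ext n
    rw [mem_filter]
    exact ⟨fun h => h.2, fun h => ⟨hA h, h⟩⟩
  rw [h2] at h1
  refine le_trans (le_of_eq ?_) h1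
  apply sum_nbij' (fun d => -d) (fun d => -d)
  · intro d hd
    rw [mem_Icc] at hd ⊢
    omega
  · intro d hd
    rw [mem_Icc] at hd ⊢
    omega
  · intro d _; ring
  · intro d _; ring
  · intro d _
    have h3 : ∑ b ∈ Icc 1 N, ∑ c ∈ Icc 1 N, (if (b : ℤ) - c = -d then G b * (starRingEnd ℂ) (F c) else 0) =
        ((∑ n ∈ A, EX z N (n + d) : ℝ) : ℂ) := by
      push_cast
      have h4 : ∀ b ∈ Icc 1 N, ∑ c ∈ Icc 1 N, (if (b : ℤ) - c = -d then G b * (starRingEnd ℂ) (F c) else 0) =
          if b ∈ A then ((EX z N (b + d) : ℝ) : ℂ) else 0 := by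
        intro b _
        rw [hG]
        simp only
        split_ifs with hb
        · unfold EX
          split_ifs with h5
          · rw [sum_eq_single ((b : ℤ) + d).toNat]
            · rw [if_pos (by omega), hF]
              simp only
              rw [Complex.conj_ofReal, one_mul]
            · intro c _ hc
              rw [if_neg]
              omega
            · intro h6
              exfalso
              apply h6
              rw [mem_Icc]
              omega
          · rw [Complex.ofReal_zero]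
            apply sum_eq_zero
            intro c hc
            rw [mem_Icc] at hc
            rw [if_neg]
            omega
        · apply sum_eq_zero
          intro c _
          split_ifs <;> simp
      rw [sum_congr rfl h4, ← sum_filter]
      apply sum_congr _ (fun _ _ => rfl)
      ext n
      rw [mem_filter]
      exact ⟨fun h => h.2, fun h => ⟨hA h, h⟩⟩
    rw [h3, Complex.norm_real, Real.norm_eq_abs, sq_abs]

end Pool.Agent.K9h54.TF
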