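import Pool.Agent.K9h54.TF.Nu

set_option autoImplicit false

/-!
# One more prime: the variance of the sifted sums
-/

namespace Pool.Agent.K9h54.TF

open Finset
open Pool.Agent.H387R2.Uni (nuT)
open Pool.Agent.H373R2.T7 (pz mem_pz)

theorem exp_le_two {t : ℝ} (h0 : 0 ≤ t) (h1 : t ≤ 1) : Real.exp t ≤ 1 + 2 * t := by
  have h := Real.exp_bound' h0 h1 (n := 2) (by norm_num)
  simp only [sum_range_succ, range_zero, sum_empty, pow_zero, Nat.factorial_zero, Nat.cast_one, div_one, pow_one,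
    Nat.factorial_one, Nat.factorial_two] at h
  norm_num at h
  nlinarith

theorem tail_sq (P : Finset ℕ) (w : ℕ) (hw : 1 ≤ w) (hP : ∀ p ∈ P, w < p) : ∑ p ∈ P, 1 / (p : ℝ) ^ 2 ≤ 1 / (w : ℝ) := by
  obtain ⟨n, hn⟩ := P.bddAbove
  have h1 : P ⊆ Ioc w (max w n) := by
    intro p hp
    rw [mem_Ioc]
    exact ⟨hP p hp, (hn hp).trans (le_max_right _ _)⟩
  have h2 := sum_Ioc_inv_sq_le_sub (α := ℝ) (k := w) (n := max w n) (by omega) (le_max_left _ _)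
  calc ∑ p ∈ P, 1 / (p : ℝ) ^ 2 ≤ ∑ p ∈ Ioc w (max w n), 1 / (p : ℝ) ^ 2 :=
        sum_le_sum_of_subset_of_nonneg h1 (fun _ _ _ => by positivity)
    _ = ∑ p ∈ Ioc w (max w n), ((p : ℝ) ^ 2)⁻¹ := by simp only [one_div]
    _ ≤ (w : ℝ)⁻¹ - ((max w n : ℕ) : ℝ)⁻¹ := h2
    _ ≤ 1 / w := by
        rw [one_div]
        have : (0 : ℝ) ≤ ((max w n : ℕ) : ℝ)⁻¹ := by positivity
        linarith

theorem euler_small (P : Finset ℕ) (k w : ℕ) (hk : 1 ≤ k) (hw : 2 * k ≤ w) (hw4 : 4 ≤ w) (hP : ∀ p ∈ P, w < p) :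
    ∏ p ∈ P, (1 + 1 / ((p : ℝ) - 1) * (1 / ((p : ℝ) - k))) - 1 ≤ 8 / w := by
  have hw0 : (0 : ℝ) < w := by exact_mod_cast (by omega : 0 < w)
  have h1 : ∏ p ∈ P, (1 + 1 / ((p : ℝ) - 1) * (1 / ((p : ℝ) - k))) ≤ ∏ p ∈ P, Real.exp (4 * (1 / (p : ℝ) ^ 2)) := by
    apply prod_le_prod
    · intro p hp
      have h2 : (w : ℝ) < p := by exact_mod_cast hP p hp
      have h3 : (2 : ℝ) * k ≤ w := by exact_mod_cast hw
      have h4 : (4 : ℝ) ≤ w := by exact_mod_cast hw4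
      have h5 : 0 < (p : ℝ) - 1 := by linarith
      have h6 : 0 < (p : ℝ) - k := by
        have : (0 : ℝ) ≤ k := Nat.cast_nonneg _
        linarith
      positivity
    · intro p hp
      have h2 : (w : ℝ) < p := by exact_mod_cast hP p hp
      have h3 : (2 : ℝ) * k ≤ w := by exact_mod_cast hw
      have h4 : (4 : ℝ) ≤ w := by exact_mod_cast hw4
      have hp0 : (0 : ℝ) < p := by linarith
      have h5 : (p : ℝ) / 2 ≤ (p : ℝ) - 1 := by linarith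
      have h6 : (p : ℝ) / 2 ≤ (p : ℝ) - k := by linarith
      have h7 : 1 / ((p : ℝ) - 1) * (1 / ((p : ℝ) - k)) ≤ 1 / ((p : ℝ) / 2) * (1 / ((p : ℝ) / 2)) := by
        have a1 : 1 / ((p : ℝ) - 1) ≤ 1 / ((p : ℝ) / 2) := one_div_le_one_div_of_le (by positivity) h5
        have a2 : 1 / ((p : ℝ) - k) ≤ 1 / ((p : ℝ) / 2) := one_div_le_one_div_of_le (by positivity) h6
        have a3 : 0 < (p : ℝ) - k := by linarith
        exact mul_le_mul a1 a2 (by positivity) (by positivity)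
      have h8 : 1 / ((p : ℝ) / 2) * (1 / ((p : ℝ) / 2)) = 4 * (1 / (p : ℝ) ^ 2) := by
        field_simp
        norm_num
      have h9 := Real.add_one_le_exp (4 * (1 / (p : ℝ) ^ 2))
      linarith
  rw [← Real.exp_sum, ← mul_sum] at h1
  have h2 := tail_sq P w (by omega) hP
  have h3 : Real.exp (4 * ∑ p ∈ P, 1 / (p : ℝ) ^ 2) ≤ Real.exp (4 * (1 / w)) := by
    apply Real.exp_le_exp.2
    linarith
  have h4 := exp_le_two (t := 4 * (1 / (w : ℝ))) (by positivity) (by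
    have h5 : (4 : ℝ) ≤ w := by exact_mod_cast hw4
    rw [mul_one_div, div_le_one hw0]
    exact h5)
  have h5 : 1 + 2 * (4 * (1 / (w : ℝ))) = 1 + 8 / w := by ring
  linarith

theorem dvd_prod_iff {S : Finset ℕ} (hS : ∀ p ∈ S, p.Prime) (n n' : ℕ) :
    (∀ p ∈ S, n % p = n' % p) ↔ n % (∏ p ∈ S, p) = n' % (∏ p ∈ S, p) := by
  have h1 : ∀ q : ℕ, n % q = n' % q ↔ (q : ℤ) ∣ (n' : ℤ) - n := fun q => Nat.modEq_iff_dvd
  constructor
  · intro h
    rw [h1]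
    have : ((∏ p ∈ S, p : ℕ) : ℤ) = ∏ p ∈ S, (p : ℤ) := by push_cast; rfl
    rw [this]
    apply Finset.prod_dvd_of_coprime
    · intro p hp q hq hpq
      have := (Nat.coprime_primes (hS p hp) (hS q hq)).2 hpq
      exact Nat.isCoprime_iff_coprime.2 this
    · intro p hp
      exact (h1 p).1 (h p hp)
  · intro h p hp
    rw [h1] at h ⊢
    exact (Int.natCast_dvd_natCast.2 (dvd_prod_of_mem _ hp)).trans h

/-- the sum of the singular series over the differences of a set with few elements in every class -/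
theorem comb (A P : Finset ℕ) (k w : ℕ) (β γ : ℝ) (hk : 1 ≤ k) (hw : 2 * k ≤ w) (hw4 : 4 ≤ w)
    (hP : ∀ p ∈ P, p.Prime ∧ w < p) (hβ : 0 ≤ β) (hγ : 0 ≤ γ)
    (hB : ∀ S ⊆ P, ∀ r : ℕ, ((A.filter (fun n => n % (∏ p ∈ S, p) = r % (∏ p ∈ S, p))).card : ℝ) ≤
      β * ∏ p ∈ S, 1 / ((p : ℝ) - k) + γ) :
    ∑ n ∈ A, ∑ n' ∈ A, (∏ p ∈ P, (if n % p = n' % p then (1 - 1 / (p : ℝ))⁻¹ else 1) - 1) ≤
      A.card * (β * (8 / w) + γ * (∏ p ∈ P, (1 - 1 / (p : ℝ)))⁻¹) := by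
  classical
  have hpos : ∀ p ∈ P, (0 : ℝ) < (p : ℝ) - 1 ∧ 0 < (p : ℝ) - k ∧ (0 : ℝ) < p := by
    intro p hp
    have h1 := (hP p hp).2
    have h2 : (w : ℝ) < p := by exact_mod_cast h1
    have h3 : (2 : ℝ) * k ≤ w := by exact_mod_cast hw
    have h4 : (4 : ℝ) ≤ w := by exact_mod_cast hw4
    have h5 : (0 : ℝ) ≤ k := Nat.cast_nonneg _
    refine ⟨by linarith, by linarith, by linarith⟩
  have hinv : ∀ p ∈ P, (1 - 1 / (p : ℝ))⁻¹ = 1 + 1 / ((p : ℝ) - 1) := by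
    intro p hp
    obtain ⟨a1, _, a3⟩ := hpos p hp
    have e1 : 1 - 1 / (p : ℝ) = ((p : ℝ) - 1) / p := by field_simp
    rw [e1, inv_div]
    field_simp
    ring
  have e1 : ∀ n n' : ℕ, ∏ p ∈ P, (if n % p = n' % p then (1 - 1 / (p : ℝ))⁻¹ else 1) =
      ∑ S ∈ P.powerset, if (∀ p ∈ S, n % p = n' % p) then ∏ p ∈ S, 1 / ((p : ℝ) - 1) else 0 := by
    intro n n'
    have h1 : ∏ p ∈ P, (if n % p = n' % p then (1 - 1 / (p : ℝ))⁻¹ else 1) =
        ∏ p ∈ P, (1 + if n % p = n' % p then 1 / ((p : ℝ) - 1) else 0) := by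
      apply prod_congr rfl
      intro p hp
      split_ifs
      · exact hinv p hp
      · rw [add_zero]
    rw [h1, prod_one_add]
    apply sum_congr rfl
    intro S _
    rw [prod_ite_zero]
  have e2 : ∑ n ∈ A, ∑ n' ∈ A, (∏ p ∈ P, (if n % p = n' % p then (1 - 1 / (p : ℝ))⁻¹ else 1) - 1) =
      ∑ S ∈ P.powerset.erase ∅, (∏ p ∈ S, 1 / ((p : ℝ) - 1)) *
        ∑ n' ∈ A, ((A.filter (fun n => n % (∏ p ∈ S, p) = n' % (∏ p ∈ S, p))).card : ℝ) := by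
    have h1 : ∀ n n' : ℕ, ∏ p ∈ P, (if n % p = n' % p then (1 - 1 / (p : ℝ))⁻¹ else 1) - 1 =
        ∑ S ∈ P.powerset.erase ∅, if (∀ p ∈ S, n % p = n' % p) then ∏ p ∈ S, 1 / ((p : ℝ) - 1) else 0 := by
      intro n n'
      rw [e1, ← add_sum_erase _ _ (empty_mem_powerset P)]
      simp
    simp_rw [h1]
    have h2 : ∑ n ∈ A, ∑ n' ∈ A, ∑ S ∈ P.powerset.erase ∅,
        (if (∀ p ∈ S, n % p = n' % p) then ∏ p ∈ S, 1 / ((p : ℝ) - 1) else 0) =
        ∑ S ∈ P.powerset.erase ∅, ∑ n' ∈ A, ∑ n ∈ A,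
          (if (∀ p ∈ S, n % p = n' % p) then ∏ p ∈ S, 1 / ((p : ℝ) - 1) else 0) := by
      rw [sum_comm]
      rw [sum_congr rfl fun n' _ => sum_comm, sum_comm]
    rw [h2]
    apply sum_congr rfl
    intro S hS
    rw [mul_sum]
    apply sum_congr rfl
    intro n' _
    rw [← sum_filter, sum_const, nsmul_eq_mul, mul_comm]
    congr 3
    apply filter_congr
    intro n _
    exact dvd_prod_iff (fun p hp => (hP p (mem_powerset.1 (mem_erase.1 hS).2 hp)).1) n n'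
  rw [e2]
  have h3 : ∀ S ∈ P.powerset.erase ∅, (∏ p ∈ S, 1 / ((p : ℝ) - 1)) *
        ∑ n' ∈ A, ((A.filter (fun n => n % (∏ p ∈ S, p) = n' % (∏ p ∈ S, p))).card : ℝ) ≤
      A.card * (β * ∏ p ∈ S, (1 / ((p : ℝ) - 1) * (1 / ((p : ℝ) - k))) + γ * ∏ p ∈ S, 1 / ((p : ℝ) - 1)) := by
    intro S hS
    have hSP := mem_powerset.1 (mem_erase.1 hS).2
    have h4 : ∑ n' ∈ A, ((A.filter (fun n => n % (∏ p ∈ S, p) = n' % (∏ p ∈ S, p))).card : ℝ) ≤
        A.card * (β * ∏ p ∈ S, 1 / ((p : ℝ) - k) + γ) := by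
      refine (sum_le_sum fun n' _ => hB S hSP n').trans ?_
      rw [sum_const, nsmul_eq_mul]
    have h5 : 0 ≤ ∏ p ∈ S, 1 / ((p : ℝ) - 1) := prod_nonneg fun p hp => by
      have := (hpos p (hSP hp)).1
      positivity
    refine (mul_le_mul_of_nonneg_left h4 h5).trans (le_of_eq ?_)
    rw [prod_mul_distrib]
    ring
  refine (sum_le_sum h3).trans ?_
  rw [← mul_sum, sum_add_distrib, ← mul_sum, ← mul_sum]
  apply mul_le_mul_of_nonneg_left _ (Nat.cast_nonneg _)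
  apply add_le_add
  · apply mul_le_mul_of_nonneg_left _ hβ
    have h6 : ∑ S ∈ P.powerset.erase ∅, ∏ p ∈ S, (1 / ((p : ℝ) - 1) * (1 / ((p : ℝ) - k))) =
        ∏ p ∈ P, (1 + 1 / ((p : ℝ) - 1) * (1 / ((p : ℝ) - k))) - 1 := by
      rw [prod_one_add, ← add_sum_erase _ _ (empty_mem_powerset P)]
      simp
    rw [h6]
    exact euler_small P k w hk hw hw4 (fun p hp => (hP p hp).2)
  · apply mul_le_mul_of_nonneg_left _ hγ
    have h6 : (∏ p ∈ P, (1 - 1 / (p : ℝ)))⁻¹ = ∏ p ∈ P, (1 + 1 / ((p : ℝ) - 1)) := by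
      rw [← prod_inv_distrib]
      exact prod_congr rfl hinv
    rw [h6, prod_one_add, ← add_sum_erase _ _ (empty_mem_powerset P)]
    simp

end Pool.Agent.K9h54.TF
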