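import Pool.Agent.K9h54.TF.Sv
import Pool.Agent.K9h54.TF.Var
import Pool.Agent.Helper256.KM.Mertens

set_option autoImplicit false

/-!
# One more prime: the theorem of Mertens and the density of a tuple
-/

namespace Pool.Agent.K9h54.TF

open Finset
open Pool.Agent.H387R2.Uni (nuT)
open Pool.Agent.H373R2.T7 (pz mem_pz Vz)

theorem one_sub_ge {x : ℝ} (h0 : 0 ≤ x) (h1 : x ≤ 1 / 2) : Real.exp (-x - 2 * x ^ 2) ≤ 1 - x := by
  have h2 : 0 < 1 - x := by linarith
  have h3 : 1 - (1 - x)⁻¹ ≤ Real.log (1 - x) := Real.one_sub_inv_le_log_of_pos h2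
  have h4 : -x - 2 * x ^ 2 ≤ 1 - (1 - x)⁻¹ := by
    have e : 1 - (1 - x)⁻¹ = -x / (1 - x) := by
      field_simp
      ring
    rw [e, le_div_iff₀ h2]
    nlinarith [sq_nonneg x, mul_nonneg h0 (sq_nonneg x)]
  calc Real.exp (-x - 2 * x ^ 2) ≤ Real.exp (Real.log (1 - x)) := Real.exp_le_exp.2 (h4.trans h3)
    _ = 1 - x := Real.exp_log h2

/-- both bounds of Mertens -/
theorem mert : ∃ C : ℝ, 1 ≤ C ∧ ∀ y : ℕ, 3 ≤ y → Vz y ≤ C / Real.log y ∧ (Vz y)⁻¹ ≤ C * Real.log y := by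
  obtain ⟨C, hC⟩ := Pool.Agent.Helper256.KM.mertens_inv
  have hC0 : 0 ≤ C := (abs_nonneg _).trans (hC 3 le_rfl)
  refine ⟨Real.exp (C + 2), Real.one_le_exp (by linarith), fun y hy => ?_⟩
  have h1 := abs_le.1 (hC y hy)
  have hl : 1 < Real.log y := by
    rw [Real.lt_log_iff_exp_lt (by positivity)]
    have := Real.exp_one_lt_d9
    have h3 : (3 : ℝ) ≤ y := by exact_mod_cast hy
    linarith
  have hl0 : 0 < Real.log y := by linarith
  have hpz : (Finset.Icc 1 y).filter Nat.Prime = pz y := rfl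
  rw [hpz] at h1
  have hhalf : ∀ p ∈ pz y, (0 : ℝ) ≤ 1 / (p : ℝ) ∧ 1 / (p : ℝ) ≤ 1 / 2 := by
    intro p hp
    have h2 : (2 : ℝ) ≤ p := by exact_mod_cast (mem_pz.1 hp).2.two_le
    exact ⟨by positivity, one_div_le_one_div_of_le (by norm_num) h2⟩
  have hup : Vz y ≤ Real.exp (-∑ p ∈ pz y, 1 / (p : ℝ)) := by
    unfold Vz
    rw [← sum_neg_distrib, Real.exp_sum]
    apply prod_le_prod
    · intro p hp
      linarith [(hhalf p hp).2]
    · intro p hp
      have := Real.add_one_le_exp (-(1 / (p : ℝ)))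
      linarith
  have hlow : Real.exp (-∑ p ∈ pz y, 1 / (p : ℝ) - 2) ≤ Vz y := by
    have h3 : ∑ p ∈ pz y, 1 / (p : ℝ) ^ 2 ≤ 1 := by
      have := tail_sq (pz y) 1 le_rfl (fun p hp => (mem_pz.1 hp).2.one_lt)
      simpa using this
    have h2 : Real.exp (-∑ p ∈ pz y, 1 / (p : ℝ) - 2) ≤ Real.exp (∑ p ∈ pz y, (-(1 / (p : ℝ)) - 2 * (1 / (p : ℝ)) ^ 2)) := by
      apply Real.exp_le_exp.2
      rw [sum_sub_distrib, sum_neg_distrib, ← mul_sum]
      have e : ∀ p : ℕ, (1 / (p : ℝ)) ^ 2 = 1 / (p : ℝ) ^ 2 := fun p => by ring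
      simp_rw [e]
      linarith
    refine h2.trans ?_
    unfold Vz
    rw [Real.exp_sum]
    apply prod_le_prod
    · intro p _
      positivity
    · intro p hp
      exact one_sub_ge (hhalf p hp).1 (hhalf p hp).2
  have e1 : Real.exp (Real.log (Real.log y)) = Real.log y := Real.exp_log hl0
  constructor
  · refine hup.trans ?_
    rw [le_div_iff₀ hl0]
    nth_rewrite 1 [← e1]
    rw [← Real.exp_add]
    apply Real.exp_le_exp.2
    linarith [h1.1]
  · have h4 : (Vz y)⁻¹ ≤ (Real.exp (-∑ p ∈ pz y, 1 / (p : ℝ) - 2))⁻¹ := by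
      apply inv_anti₀ (Real.exp_pos _) hlow
    refine h4.trans ?_
    rw [← Real.exp_neg]
    nth_rewrite 1 [← e1]
    rw [← Real.exp_add]
    apply Real.exp_le_exp.2
    linarith [h1.2]

theorem fac_pos {T : Finset ℕ} {p : ℕ} (hp : p.Prime) (h : nuT T p < p) : 0 < 1 - (nuT T p : ℝ) / p := by
  have h1 : (0 : ℝ) < p := by exact_mod_cast hp.pos
  have h2 : (nuT T p : ℝ) < p := by exact_mod_cast h
  have := (div_lt_one h1).2 h2
  linarith

theorem fac_low {T : Finset ℕ} {p k : ℕ} (hp : p.Prime) (h : nuT T p < p) (hk : T.card ≤ k) :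
    (if p < 2 * k then 1 / (p : ℝ) else 1) * (1 - 1 / (p : ℝ)) ^ (2 * k) ≤ 1 - (nuT T p : ℝ) / p := by
  have hp0 : (0 : ℝ) < p := by exact_mod_cast hp.pos
  have hp2 : (2 : ℝ) ≤ p := by exact_mod_cast hp.two_le
  have h1 : 0 ≤ 1 - 1 / (p : ℝ) := by
    have : 1 / (p : ℝ) ≤ 1 := (div_le_one hp0).2 (by linarith)
    linarith
  split_ifs with hc
  · have h2 : (1 - 1 / (p : ℝ)) ^ (2 * k) ≤ 1 := pow_le_one₀ h1 (by
      have : 0 ≤ 1 / (p : ℝ) := by positivity
      linarith)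
    have h3 : (nuT T p : ℝ) + 1 ≤ p := by exact_mod_cast h
    calc 1 / (p : ℝ) * (1 - 1 / (p : ℝ)) ^ (2 * k) ≤ 1 / (p : ℝ) * 1 := by gcongr
      _ ≤ 1 - (nuT T p : ℝ) / p := by
          rw [mul_one, le_sub_iff_add_le, ← add_div, div_le_one hp0]
          linarith
  · rw [one_mul]
    have h3 : (nuT T p : ℝ) ≤ k := by exact_mod_cast (nuT_le T p).trans hk
    have h4 : (2 : ℝ) * k ≤ p := by exact_mod_cast not_lt.1 hc
    obtain ⟨s, hs⟩ : ∃ s : ℝ, s = k / p := ⟨_, rfl⟩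
    have hs0 : 0 ≤ s := by rw [hs]; positivity
    have hs1 : s ≤ 1 / 2 := by
      rw [hs, div_le_iff₀ hp0]
      linarith
    have h5 : (1 - 1 / (p : ℝ)) ^ (2 * k) ≤ Real.exp (-(2 * s)) := by
      have h6 : 1 - 1 / (p : ℝ) ≤ Real.exp (-(1 / (p : ℝ))) := by
        have := Real.add_one_le_exp (-(1 / (p : ℝ)))
        linarith
      calc (1 - 1 / (p : ℝ)) ^ (2 * k) ≤ Real.exp (-(1 / (p : ℝ))) ^ (2 * k) := by gcongr
        _ = Real.exp (-(2 * s)) := by
            rw [← Real.exp_nat_mul, hs]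
            congr 1
            push_cast
            ring
    have h7 : Real.exp (-(2 * s)) ≤ 1 - s := by
      rw [Real.exp_neg]
      have h8 : 1 + 2 * s ≤ Real.exp (2 * s) := by
        have := Real.add_one_le_exp (2 * s)
        linarith
      calc (Real.exp (2 * s))⁻¹ ≤ (1 + 2 * s)⁻¹ := inv_anti₀ (by linarith) h8
        _ ≤ 1 - s := by
            rw [inv_le_iff_one_le_mul₀ (by linarith)]
            nlinarith
    have h9 : (nuT T p : ℝ) / p ≤ s := by
      rw [hs]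
      gcongr
    linarith

/-- the density is not smaller than a power of the logarithm -/
theorem PiT_low (k : ℕ) : ∃ C : ℝ, 1 ≤ C ∧ ∀ y : ℕ, 3 ≤ y → ∀ T : Finset ℕ, T.card ≤ k →
    (∀ p, p.Prime → nuT T p < p) → 0 < PiT T y ∧ (PiT T y)⁻¹ ≤ C * Real.log y ^ (2 * k) := by
  obtain ⟨C, hC, hM⟩ := mert
  refine ⟨(∏ p ∈ pz (2 * k), (p : ℝ)) * C ^ (2 * k), ?_, fun y hy T hT hadm => ?_⟩
  · have h1 : (1 : ℝ) ≤ ∏ p ∈ pz (2 * k), (p : ℝ) := by
      calc (1 : ℝ) = ∏ _p ∈ pz (2 * k), (1 : ℝ) := prod_const_one.symm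
        _ ≤ ∏ p ∈ pz (2 * k), (p : ℝ) := prod_le_prod (fun _ _ => zero_le_one) (fun p hp => by
            exact_mod_cast (mem_pz.1 hp).2.one_le)
    have h2 : (1 : ℝ) ≤ C ^ (2 * k) := one_le_pow₀ hC
    nlinarith
  · have hpos : 0 < PiT T y := by
      unfold PiT
      exact prod_pos fun p hp => fac_pos (mem_pz.1 hp).2 (hadm p (mem_pz.1 hp).2)
    refine ⟨hpos, ?_⟩
    have h1 : (∏ p ∈ pz y, if p < 2 * k then 1 / (p : ℝ) else 1) * Vz y ^ (2 * k) ≤ PiT T y := by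
      unfold PiT Vz
      rw [← prod_pow, ← prod_mul_distrib]
      apply prod_le_prod
      · intro p hp
        have h2 : (2 : ℝ) ≤ p := by exact_mod_cast (mem_pz.1 hp).2.two_le
        have h3 : 1 / (p : ℝ) ≤ 1 := (div_le_one (by linarith)).2 (by linarith)
        have h4 : 0 ≤ 1 - 1 / (p : ℝ) := by linarith
        have h5 : (0 : ℝ) ≤ if p < 2 * k then 1 / (p : ℝ) else 1 := by split_ifs <;> positivity
        positivity
      · intro p hp
        exact fac_low (mem_pz.1 hp).2 (hadm p (mem_pz.1 hp).2) hT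
    have h2 : (∏ p ∈ pz (2 * k), (p : ℝ))⁻¹ ≤ ∏ p ∈ pz y, if p < 2 * k then 1 / (p : ℝ) else 1 := by
      rw [← prod_filter, ← prod_inv_distrib]
      have e : (pz y).filter (fun p => p < 2 * k) ⊆ pz (2 * k) := by
        intro p hp
        rw [mem_filter, mem_pz] at hp
        rw [mem_pz]
        exact ⟨by omega, hp.1.2⟩
      rw [← prod_sdiff e]
      have h3 : ∏ p ∈ pz (2 * k) \ (pz y).filter (fun p => p < 2 * k), (p : ℝ)⁻¹ ≤ 1 := by
        apply prod_le_one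
        · intro p _
          positivity
        · intro p hp
          have h4 : (1 : ℝ) ≤ p := by exact_mod_cast (mem_pz.1 (mem_sdiff.1 hp).1).2.one_le
          exact inv_le_one_of_one_le₀ h4
      calc (∏ p ∈ pz (2 * k) \ (pz y).filter (fun p => p < 2 * k), (p : ℝ)⁻¹) *
            ∏ p ∈ (pz y).filter (fun p => p < 2 * k), (p : ℝ)⁻¹ ≤
            1 * ∏ p ∈ (pz y).filter (fun p => p < 2 * k), (p : ℝ)⁻¹ := by
              apply mul_le_mul_of_nonneg_right h3
              exact prod_nonneg fun p _ => by positivity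
        _ = ∏ p ∈ (pz y).filter (fun p => p < 2 * k), 1 / (p : ℝ) := by
              rw [one_mul]
              apply prod_congr rfl
              intro p _
              rw [one_div]
    obtain ⟨g, hg⟩ : ∃ g, g = ∏ p ∈ pz (2 * k), (p : ℝ) := ⟨_, rfl⟩
    rw [← hg] at h2 ⊢
    have hg0 : 0 < g := by
      rw [hg]
      exact prod_pos fun p hp => by exact_mod_cast (mem_pz.1 hp).2.pos
    have hV0 := Pool.Agent.H373R2.T7.Vz_pos y
    have h3 : g⁻¹ * Vz y ^ (2 * k) ≤ PiT T y :=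
      (mul_le_mul_of_nonneg_right h2 (by positivity)).trans h1
    calc (PiT T y)⁻¹ ≤ (g⁻¹ * Vz y ^ (2 * k))⁻¹ := inv_anti₀ (by positivity) h3
      _ = g * ((Vz y)⁻¹) ^ (2 * k) := by rw [mul_inv, inv_inv, inv_pow]
      _ ≤ g * (C * Real.log y) ^ (2 * k) := by
          have := (hM y hy).2
          gcongr
      _ = g * C ^ (2 * k) * Real.log y ^ (2 * k) := by rw [mul_pow]; ring

end Pool.Agent.K9h54.TF
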