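import Pool.Agent.K9h54.TF.Mt

set_option autoImplicit false

/-!
# One more prime: tuples of primes in residue classes
-/

namespace Pool.Agent.K9h54.TF

open Finset
open Pool.Agent.H387R2.Uni (nuT)
open Pool.Agent.H373R2.T7 (pz mem_pz Vz)

/-- the class bound -/
theorem cls (k : ℕ) (hk : 1 ≤ k) : ∃ K x0 : ℕ, 1 ≤ K ∧ ∀ x y : ℕ, x0 ≤ y → y ^ K ≤ x →
    ∀ T : Finset ℕ, T.card ≤ k → (∀ p, p.Prime → nuT T p < p) → ∀ A ⊆ Icc 1 x,
      (∀ n ∈ A, ∀ h ∈ T, IsP ((n : ℤ) - h)) → ∀ w : ℕ, 2 * k ≤ w → 4 ≤ w → ∀ S : Finset ℕ,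
        (∀ p ∈ S, p.Prime ∧ w < p ∧ p ≤ y) → ∀ M : ℕ, 1 ≤ M → M ≤ x → ∀ r : ℕ,
          ((A.filter (fun n => n % (∏ p ∈ S, p) = r % (∏ p ∈ S, p))).card : ℝ) ≤
            4 * x * PiT T y * ∏ p ∈ S, 1 / ((p : ℝ) - k) + (√(x : ℝ) + k * y + x / M + 1) := by
  classical
  obtain ⟨K, x0, hK, hs⟩ := sieve k hk
  refine ⟨K, x0, hK, fun x y hy hyx T hT hadm A hA hAT w hw hw4 S hS M hM hMx r => ?_⟩
  obtain ⟨m, hm⟩ : ∃ m, m = ∏ p ∈ S, p := ⟨_, rfl⟩
  rw [← hm]
  have hm0 : 0 < m := by rw [hm]; exact prod_pos fun p hp => (hS p hp).1.pos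
  have hM0 : (0 : ℝ) < M := by exact_mod_cast hM
  have hx0 : (0 : ℝ) ≤ x := Nat.cast_nonneg _
  have hPi : 0 < PiT T y := by
    unfold PiT
    exact prod_pos fun p hp => fac_pos (mem_pz.1 hp).2 (hadm p (mem_pz.1 hp).2)
  have hpk : ∀ p ∈ S, (0 : ℝ) < p ∧ 0 < (p : ℝ) - k := by
    intro p hp
    have h1 := (hS p hp).2.1
    have h2 : (w : ℝ) < p := by exact_mod_cast h1
    have h3 : (2 : ℝ) * k ≤ w := by exact_mod_cast hw
    have h4 : (4 : ℝ) ≤ w := by exact_mod_cast hw4
    have h5 : (0 : ℝ) ≤ k := Nat.cast_nonneg _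
    exact ⟨by linarith, by linarith⟩
  have hprod : 0 ≤ ∏ p ∈ S, 1 / ((p : ℝ) - k) := prod_nonneg fun p hp => by
    have := (hpk p hp).2
    positivity
  -- the map to the arguments of the progression
  have hinj : (A.filter (fun n => n % m = r % m)).card ≤
      ((Icc 1 (x / m + 1)).filter (fun j : ℕ => ∀ h ∈ T, IsP ((((r % m : ℕ) : ℤ) - m) + m * j - h))).card := by
    apply card_le_card_of_injOn (fun n => n / m + 1)
    · intro n hn
      simp only [coe_filter, Set.mem_setOf_eq] at hn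
      have h1 := mem_Icc.1 (hA hn.1)
      simp only [coe_filter, mem_Icc, Set.mem_setOf_eq]
      refine ⟨⟨Nat.le_add_left 1 _, ?_⟩, fun h hh => ?_⟩
      · have := Nat.div_le_div_right (c := m) h1.2
        omega
      · have h2 := hAT n hn.1 h hh
        convert h2 using 2
        have h3 := Nat.div_add_mod n m
        rw [hn.2] at h3
        have h4 : (m : ℤ) * ((n / m : ℕ) : ℤ) + ((r % m : ℕ) : ℤ) = n := by exact_mod_cast h3
        rw [← h4]
        push_cast
        ring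
    · intro n hn n' hn' he
      simp only [coe_filter, Set.mem_setOf_eq] at hn hn'
      simp only at he
      have h3 := Nat.div_add_mod n m
      have h3' := Nat.div_add_mod n' m
      have h4 : n / m = n' / m := by omega
      rw [hn.2, h4] at h3
      rw [hn'.2] at h3'
      omega
  rcases le_or_gt m M with hmM | hmM
  · have h1 := hs x y hy hyx T hT (((r % m : ℕ) : ℤ) - m) m (x / m + 1)
    have h2 : ((A.filter (fun n => n % m = r % m)).card : ℝ) ≤
      (((Icc 1 (x / m + 1)).filter (fun j : ℕ => ∀ h ∈ T, IsP ((((r % m : ℕ) : ℤ) - m) + m * j - h))).card : ℝ) := by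
      exact_mod_cast hinj
    refine h2.trans (h1.trans ?_)
    have hJ : ((x / m + 1 : ℕ) : ℝ) ≤ 2 * (x / m) := by
      have h3 : ((x / m : ℕ) : ℝ) ≤ x / m := Nat.cast_div_le
      have h4 : (1 : ℝ) ≤ x / m := by
        rw [le_div_iff₀ (by exact_mod_cast hm0), one_mul]
        exact_mod_cast hmM.trans hMx
      push_cast
      linarith
    have hQ : ∏ p ∈ (pz y).filter (fun p => ¬ p ∣ m), (1 - (nuT T p : ℝ) / p) ≤
        PiT T y * ∏ p ∈ S, (1 - (k : ℝ) / p)⁻¹ := by
      have e1 : PiT T y = (∏ p ∈ (pz y).filter (fun p => ¬ p ∣ m), (1 - (nuT T p : ℝ) / p)) *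
          ∏ p ∈ S, (1 - (nuT T p : ℝ) / p) := by
        unfold PiT
        rw [← prod_filter_not_mul_prod_filter (pz y) (fun p => p ∣ m)]
        congr 1
        apply prod_congr _ (fun _ _ => rfl)
        ext p
        rw [mem_filter, mem_pz]
        constructor
        · rintro ⟨⟨_, hp⟩, h4⟩
          rw [hm] at h4
          obtain ⟨q, hq, h5⟩ := (hp.prime.dvd_finset_prod_iff _).1 h4
          have := (Nat.prime_dvd_prime_iff_eq hp (hS q hq).1).1 h5
          rw [this]
          exact hq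
        · intro hp
          refine ⟨⟨(hS p hp).2.2, (hS p hp).1⟩, ?_⟩
          rw [hm]
          exact dvd_prod_of_mem _ hp
      rw [e1, mul_assoc, ← prod_mul_distrib]
      apply le_mul_of_one_le_right
      · exact prod_nonneg fun p hp => (fac_pos (mem_pz.1 (mem_filter.1 hp).1).2
          (hadm p (mem_pz.1 (mem_filter.1 hp).1).2)).le
      · calc (1 : ℝ) = ∏ _p ∈ S, (1 : ℝ) := prod_const_one.symm
          _ ≤ ∏ p ∈ S, ((1 - (nuT T p : ℝ) / p) * (1 - (k : ℝ) / p)⁻¹) := by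
              apply prod_le_prod (fun _ _ => zero_le_one)
              intro p hp
              obtain ⟨a1, a2⟩ := hpk p hp
              have a3 : 0 < 1 - (k : ℝ) / p := by
                rw [sub_pos, div_lt_one a1]
                linarith
              rw [← div_eq_mul_inv, one_le_div a3]
              have a4 : (nuT T p : ℝ) ≤ k := by exact_mod_cast (nuT_le T p).trans hT
              have a5 : (nuT T p : ℝ) / p ≤ k / p := by gcongr
              linarith
    have hQ0 : 0 ≤ ∏ p ∈ (pz y).filter (fun p => ¬ p ∣ m), (1 - (nuT T p : ℝ) / p) :=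
      prod_nonneg fun p hp => (fac_pos (mem_pz.1 (mem_filter.1 hp).1).2
          (hadm p (mem_pz.1 (mem_filter.1 hp).1).2)).le
    have h5 : 2 * (((x / m + 1 : ℕ) : ℝ) * ∏ p ∈ (pz y).filter (fun p => ¬ p ∣ m), (1 - (nuT T p : ℝ) / p)) ≤
        2 * ((2 * (x / m)) * (PiT T y * ∏ p ∈ S, (1 - (k : ℝ) / p)⁻¹)) := by
      apply mul_le_mul_of_nonneg_left _ (by norm_num)
      exact mul_le_mul hJ hQ hQ0 (by positivity)
    have h6 : 2 * ((2 * ((x : ℝ) / m)) * (PiT T y * ∏ p ∈ S, (1 - (k : ℝ) / p)⁻¹)) =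
        4 * x * PiT T y * ∏ p ∈ S, 1 / ((p : ℝ) - k) := by
      have e2 : ∏ p ∈ S, 1 / ((p : ℝ) - k) = (∏ p ∈ S, (1 - (k : ℝ) / p)⁻¹) / m := by
        rw [hm]
        push_cast
        rw [← prod_div_distrib]
        apply prod_congr rfl
        intro p hp
        obtain ⟨a1, a2⟩ := hpk p hp
        have a3 : 1 - (k : ℝ) / p = ((p : ℝ) - k) / p := by field_simp
        rw [a3, inv_div]
        field_simp
      rw [e2]
      ring
    rw [h6] at h5
    have h7 : (0 : ℝ) ≤ x / M := by positivity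
    linarith
  · have h1 : ((A.filter (fun n => n % m = r % m)).card : ℝ) ≤ ((x / m + 1 : ℕ) : ℝ) := by
      have h2 := hinj.trans (card_filter_le _ _)
      rw [Nat.card_Icc, Nat.add_sub_cancel] at h2
      exact_mod_cast h2
    have h2 : ((x / m : ℕ) : ℝ) ≤ x / M := by
      have h3 : ((x / m : ℕ) : ℝ) ≤ x / m := Nat.cast_div_le
      refine h3.trans ?_
      apply div_le_div_of_nonneg_left hx0 hM0
      exact_mod_cast hmM.le
    push_cast at h1
    have h3 : 0 ≤ √(x : ℝ) := Real.sqrt_nonneg _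
    have h4 : (0 : ℝ) ≤ k * y := by positivity
    have h5 : 0 ≤ 4 * x * PiT T y * ∏ p ∈ S, 1 / ((p : ℝ) - k) := by positivity
    linarith

end Pool.Agent.K9h54.TF
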