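import Pool.Agent.K9h54.TF.Var

set_option autoImplicit false

/-!
# One more prime: the variance of the sifted sums, second part
-/

namespace Pool.Agent.K9h54.TF

open Finset
open Pool.Agent.H387R2.Uni (nuT)
open Pool.Agent.H373R2.T7 (pz mem_pz)

theorem nuT_pair (n n' p : ℕ) : nuT {n, n'} p = if n % p = n' % p then 1 else 2 := by
  unfold nuT
  rw [image_insert, image_singleton]
  split_ifs with h
  · rw [h]; simp
  · rw [card_pair h]

/-- the sifting indicator -/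
def Sf (P : Finset ℕ) (v : ℤ) : Prop := ∀ p ∈ P, ¬ (p : ℤ) ∣ v

instance (P : Finset ℕ) (v : ℤ) : Decidable (Sf P v) := by unfold Sf; infer_instance

theorem not_dvd_prod {w p : ℕ} (hp : p.Prime) (hw : w < p) : ¬ (p : ℤ) ∣ -((∏ q ∈ pz w, q : ℕ) : ℤ) := by
  intro h
  rw [Int.dvd_neg, Int.natCast_dvd_natCast] at h
  obtain ⟨q, hq, h2⟩ := (hp.prime.dvd_finset_prod_iff _).1 h
  rw [mem_pz] at hq
  have := (Nat.prime_dvd_prime_iff_eq hp hq.2).1 h2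
  omega

/-- the variance -/
theorem vari (E U : ℕ) : ∃ N0 : ℕ, ∀ T : ℕ, N0 ≤ T → ∀ z : ℕ, 1 ≤ z → (z : ℝ) ≤ Real.log T ^ E →
    ∀ (w : ℕ) (a : ℤ) (A P : Finset ℕ), (∀ p, p ∈ P ↔ p ∈ pz z ∧ w < p) → ∀ V : ℝ, V = ∏ p ∈ P, (1 - 1 / (p : ℝ)) →
      ∑ t ∈ Icc 1 T, (V⁻¹ * ((A.filter (fun n : ℕ => Sf P (n + a + (∏ q ∈ pz w, q : ℕ) * t))).card : ℝ) - A.card) ^ 2 ≤
        T * (∑ n ∈ A, ∑ n' ∈ A, (∏ p ∈ P, (if n % p = n' % p then (1 - 1 / (p : ℝ))⁻¹ else 1) - 1) +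
          (V⁻¹ ^ 2 + 2 * V⁻¹) * (A.card : ℝ) ^ 2 / Real.log T ^ U) := by
  classical
  obtain ⟨N0, hN0⟩ := cnt 2 E U (by norm_num)
  refine ⟨max N0 3, fun T hT z hz hzE w a A P hP V hV => ?_⟩
  obtain ⟨W, hW⟩ : ∃ W : ℕ, W = ∏ q ∈ pz w, q := ⟨_, rfl⟩
  rw [← hW]
  have hT3 : 3 ≤ T := (le_max_right _ _).trans hT
  have hlog : 0 < Real.log T := Real.log_pos (by exact_mod_cast (by omega : 1 < T))
  have hpp : ∀ p ∈ P, p.Prime := fun p hp => (mem_pz.1 ((hP p).1 hp).1).2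
  have hfac : ∀ p ∈ P, (0 : ℝ) < 1 - 1 / (p : ℝ) := by
    intro p hp
    have h2 : (2 : ℝ) ≤ p := by exact_mod_cast (hpp p hp).two_le
    have : 1 / (p : ℝ) ≤ 1 / 2 := one_div_le_one_div_of_le (by norm_num) h2
    linarith
  have hV0 : 0 < V := by rw [hV]; exact prod_pos hfac
  have hcnt : ∀ T0 : Finset ℕ, T0.card ≤ 2 → ∀ F : Finset ℕ,
      (∀ t, t ∈ F ↔ t ∈ Icc 1 T ∧ ∀ n ∈ T0, Sf P (n + a + W * t)) →
      |(F.card : ℝ) - T * ∏ p ∈ P, (1 - (nuT T0 p : ℝ) / p)| ≤ T / Real.log T ^ U := by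
    intro T0 hT0 F hF
    apply hN0 T ((le_max_left _ _).trans hT) z hz hzE T0 hT0 (-a) (-(W : ℤ)) (fun p => w < p)
      (fun p hp hwp => by rw [hW]; exact not_dvd_prod hp hwp) P hP F
    intro t
    rw [hF]
    apply and_congr_right
    intro _
    constructor
    · rintro h p hp ⟨h1, n, hn, h2⟩
      apply h n hn p ((hP p).2 ⟨hp, h1⟩)
      rw [← Int.dvd_neg]
      convert h2 using 1
      ring
    · intro h n hn p hp h2
      apply h p ((hP p).1 hp).1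
      refine ⟨((hP p).1 hp).2, n, hn, ?_⟩
      rw [← Int.dvd_neg]
      convert h2 using 1
      ring
  -- the counts
  obtain ⟨I, hI⟩ : ∃ I : ℕ → ℕ → ℝ, I = fun (n t : ℕ) => if Sf P ((n : ℤ) + a + (W : ℤ) * (t : ℤ)) then (1 : ℝ) else 0 := ⟨_, rfl⟩
  have hG : ∀ t : ℕ, ((A.filter (fun n : ℕ => Sf P (n + a + W * t))).card : ℝ) = ∑ n ∈ A, I n t := by
    intro t
    rw [hI, Finset.sum_boole]
  have hsingle : ∀ n ∈ A, T - V⁻¹ * (T / Real.log T ^ U) ≤ V⁻¹ * ∑ t ∈ Icc 1 T, I n t := by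
    intro n _
    have h1 := hcnt {n} (by simp) ((Icc 1 T).filter (fun t => Sf P (n + a + W * t))) (by
      intro t
      rw [mem_filter]
      simp)
    have h2 : ∏ p ∈ P, (1 - (nuT {n} p : ℝ) / p) = V := by
      rw [hV]
      apply prod_congr rfl
      intro p _
      unfold nuT
      simp
    rw [h2] at h1
    have h3 : (((Icc 1 T).filter (fun t : ℕ => Sf P (n + a + W * t))).card : ℝ) = ∑ t ∈ Icc 1 T, I n t := by
      rw [hI, Finset.sum_boole]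
    rw [h3] at h1
    have h4 := (abs_le.1 h1).1
    have h5 : V⁻¹ * (T * V - T / Real.log T ^ U) ≤ V⁻¹ * ∑ t ∈ Icc 1 T, I n t := by
      apply mul_le_mul_of_nonneg_left _ (inv_nonneg.2 hV0.le)
      linarith
    have h6 : V⁻¹ * (T * V - T / Real.log T ^ U) = T - V⁻¹ * (T / Real.log T ^ U) := by
      field_simp
    linarith
  have hpair : ∀ n ∈ A, ∀ n' ∈ A, V⁻¹ ^ 2 * ∑ t ∈ Icc 1 T, I n t * I n' t ≤
      T * ∏ p ∈ P, (if n % p = n' % p then (1 - 1 / (p : ℝ))⁻¹ else 1) + V⁻¹ ^ 2 * (T / Real.log T ^ U) := by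
    intro n _ n' _
    have h1 := hcnt {n, n'} (card_le_two) ((Icc 1 T).filter
      (fun t => Sf P (n + a + W * t) ∧ Sf P (n' + a + W * t))) (by
      intro t
      rw [mem_filter]
      simp)
    have h3 : (((Icc 1 T).filter (fun t : ℕ => Sf P (n + a + W * t) ∧ Sf P (n' + a + W * t))).card : ℝ) =
        ∑ t ∈ Icc 1 T, I n t * I n' t := by
      rw [hI, ← Finset.sum_boole]
      apply sum_congr rfl
      intro t _
      by_cases h4 : Sf P (n + a + W * t) <;> by_cases h5 : Sf P (n' + a + W * t) <;> simp [h4, h5]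
    rw [h3] at h1
    have h4 := (abs_le.1 h1).2
    have h5 : V⁻¹ ^ 2 * ∏ p ∈ P, (1 - (nuT {n, n'} p : ℝ) / p) ≤
        ∏ p ∈ P, (if n % p = n' % p then (1 - 1 / (p : ℝ))⁻¹ else 1) := by
      have e : V⁻¹ ^ 2 = ∏ p ∈ P, (1 - 1 / (p : ℝ))⁻¹ ^ 2 := by
        rw [hV, ← prod_inv_distrib, prod_pow]
      rw [e, ← prod_mul_distrib]
      apply prod_le_prod
      · intro p hp
        have h7 : (2 : ℝ) ≤ p := by exact_mod_cast (hpp p hp).two_le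
        apply mul_nonneg (by positivity)
        rw [nuT_pair]
        have h8 : (2 : ℝ) / p ≤ 1 := (div_le_one (by linarith)).2 h7
        have h9 : (1 : ℝ) / p ≤ 2 / p := by
          apply div_le_div_of_nonneg_right _ (by linarith)
          norm_num
        split_ifs
        · push_cast
          linarith
        · push_cast
          linarith
      · intro p hp
        have h7 := hfac p hp
        have h8 : (2 : ℝ) ≤ p := by exact_mod_cast (hpp p hp).two_le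
        rw [nuT_pair]
        split_ifs
        · push_cast
          apply le_of_eq
          field_simp
        · push_cast
          rw [inv_pow, inv_mul_eq_div, div_le_one (by positivity)]
          have : (1 - 1 / (p : ℝ)) ^ 2 = 1 - 2 / p + (1 / p) ^ 2 := by ring
          rw [this]
          have : (0 : ℝ) ≤ (1 / (p : ℝ)) ^ 2 := by positivity
          linarith
    have h6 : V⁻¹ ^ 2 * ∑ t ∈ Icc 1 T, I n t * I n' t ≤
        V⁻¹ ^ 2 * (T * ∏ p ∈ P, (1 - (nuT {n, n'} p : ℝ) / p) + T / Real.log T ^ U) := by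
      apply mul_le_mul_of_nonneg_left _ (by positivity)
      linarith
    refine h6.trans ?_
    have h7 : V⁻¹ ^ 2 * (T * ∏ p ∈ P, (1 - (nuT {n, n'} p : ℝ) / p) + T / Real.log T ^ U) =
        T * (V⁻¹ ^ 2 * ∏ p ∈ P, (1 - (nuT {n, n'} p : ℝ) / p)) + V⁻¹ ^ 2 * (T / Real.log T ^ U) := by ring
    rw [h7]
    have h8 := mul_le_mul_of_nonneg_left h5 (Nat.cast_nonneg T : (0 : ℝ) ≤ T)
    linarith
  -- the expansion
  have hexp : ∑ t ∈ Icc 1 T, (V⁻¹ * ((A.filter (fun n : ℕ => Sf P (n + a + W * t))).card : ℝ) - A.card) ^ 2 =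
      ∑ n ∈ A, ∑ n' ∈ A, V⁻¹ ^ 2 * ∑ t ∈ Icc 1 T, I n t * I n' t -
        2 * A.card * ∑ n ∈ A, V⁻¹ * ∑ t ∈ Icc 1 T, I n t + T * (A.card : ℝ) ^ 2 := by
    have h1 : ∀ t : ℕ, (V⁻¹ * ((A.filter (fun n : ℕ => Sf P (n + a + W * t))).card : ℝ) - A.card) ^ 2 =
        ∑ n ∈ A, ∑ n' ∈ A, V⁻¹ ^ 2 * (I n t * I n' t) - 2 * A.card * ∑ n ∈ A, V⁻¹ * I n t + (A.card : ℝ) ^ 2 := by
      intro t
      rw [hG]
      have h2 : ∑ n ∈ A, ∑ n' ∈ A, V⁻¹ ^ 2 * (I n t * I n' t) = (V⁻¹ * ∑ n ∈ A, I n t) ^ 2 := by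
        rw [mul_pow, sq (∑ n ∈ A, I n t), sum_mul_sum, mul_sum]
        apply sum_congr rfl
        intro n _
        rw [mul_sum]
      rw [h2, ← mul_sum]
      ring
    rw [sum_congr rfl fun t _ => h1 t, sum_add_distrib, sum_sub_distrib, sum_const, Nat.card_Icc, Nat.add_sub_cancel,
      nsmul_eq_mul, ← mul_sum]
    congr 2
    · rw [sum_comm]
      apply sum_congr rfl
      intro n _
      rw [sum_comm]
      apply sum_congr rfl
      intro n' _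
      rw [mul_sum]
    · rw [sum_comm]
      congr 1
      apply sum_congr rfl
      intro n _
      rw [mul_sum]
  rw [hexp]
  have b1 : ∑ n ∈ A, ∑ n' ∈ A, V⁻¹ ^ 2 * ∑ t ∈ Icc 1 T, I n t * I n' t ≤
      ∑ n ∈ A, ∑ n' ∈ A, (T * ∏ p ∈ P, (if n % p = n' % p then (1 - 1 / (p : ℝ))⁻¹ else 1) +
        V⁻¹ ^ 2 * (T / Real.log T ^ U)) :=
    sum_le_sum fun n hn => sum_le_sum fun n' hn' => hpair n hn n' hn'
  have b2 : ∑ n ∈ A, (T - V⁻¹ * (T / Real.log T ^ U)) ≤ ∑ n ∈ A, V⁻¹ * ∑ t ∈ Icc 1 T, I n t :=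
    sum_le_sum hsingle
  rw [sum_const, nsmul_eq_mul] at b2
  have b3 : ∑ n ∈ A, ∑ n' ∈ A, (T * ∏ p ∈ P, (if n % p = n' % p then (1 - 1 / (p : ℝ))⁻¹ else 1) +
        V⁻¹ ^ 2 * (T / Real.log T ^ U)) =
      T * ∑ n ∈ A, ∑ n' ∈ A, (∏ p ∈ P, (if n % p = n' % p then (1 - 1 / (p : ℝ))⁻¹ else 1) - 1) +
        T * (A.card : ℝ) ^ 2 + V⁻¹ ^ 2 * (T / Real.log T ^ U) * (A.card : ℝ) ^ 2 := by
    simp_rw [sum_add_distrib, sum_sub_distrib, sum_const, nsmul_eq_mul, ← mul_sum]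
    ring
  rw [b3] at b1
  have b4 : 2 * (A.card : ℝ) * (A.card * (T - V⁻¹ * (T / Real.log T ^ U))) ≤
      2 * A.card * ∑ n ∈ A, V⁻¹ * ∑ t ∈ Icc 1 T, I n t := mul_le_mul_of_nonneg_left b2 (by positivity)
  have b5 : T * (∑ n ∈ A, ∑ n' ∈ A, (∏ p ∈ P, (if n % p = n' % p then (1 - 1 / (p : ℝ))⁻¹ else 1) - 1) +
          (V⁻¹ ^ 2 + 2 * V⁻¹) * (A.card : ℝ) ^ 2 / Real.log T ^ U) =
      T * ∑ n ∈ A, ∑ n' ∈ A, (∏ p ∈ P, (if n % p = n' % p then (1 - 1 / (p : ℝ))⁻¹ else 1) - 1) +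
        V⁻¹ ^ 2 * (T / Real.log T ^ U) * (A.card : ℝ) ^ 2 + 2 * V⁻¹ * (T / Real.log T ^ U) * (A.card : ℝ) ^ 2 := by
    ring
  rw [b5]
  nlinarith [b1, b4]

end Pool.Agent.K9h54.TF
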