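import Pool.Agent.K9h54.TF.LL
import Pool.Agent.K9h54.TF.Var2
import Pool.Agent.K9h54.TF.Cls

set_option autoImplicit false

/-!
# One more prime: the decomposition
-/

namespace Pool.Agent.K9h54.TF

open Finset Filter
open scoped ArithmeticFunction.vonMangoldt
open Pool.Agent.H373R2.T7 (lamz pz mem_pz Vz Vz_pos)

theorem evlog {P : ℝ → Prop} (h : ∀ᶠ l : ℝ in atTop, P l) : ∃ X₀ : ℕ, ∀ X : ℕ, X₀ ≤ X → P (Real.log X) := by
  have h1 : Tendsto (fun X : ℕ => Real.log X) atTop atTop :=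
    Real.tendsto_log_atTop.comp tendsto_natCast_atTop_atTop
  obtain ⟨X₀, hX₀⟩ := (h1.eventually h).exists_forall_of_atTop
  exact ⟨X₀, hX₀⟩

theorem pz_split {z w : ℕ} (hwz : w ≤ z) {P : Finset ℕ} (hP : ∀ p, p ∈ P ↔ p ∈ pz z ∧ w < p) :
    pz z = pz w ∪ P ∧ Disjoint (pz w) P := by
  constructor
  · ext p
    rw [mem_union, hP, mem_pz, mem_pz]
    constructor
    · rintro ⟨h1, h2⟩
      rcases Nat.lt_or_ge w p with h | h
      · exact Or.inr ⟨⟨h1, h2⟩, h⟩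
      · exact Or.inl ⟨h, h2⟩
    · rintro (⟨h1, h2⟩ | ⟨⟨h1, h2⟩, h3⟩)
      · exact ⟨by omega, h2⟩
      · exact ⟨h1, h2⟩
  · rw [disjoint_left]
    intro p h1 h2
    rw [hP] at h2
    rw [mem_pz] at h1
    omega

theorem Vz_split {z w : ℕ} (hwz : w ≤ z) {P : Finset ℕ} (hP : ∀ p, p ∈ P ↔ p ∈ pz z ∧ w < p) :
    Vz z = Vz w * ∏ p ∈ P, (1 - 1 / (p : ℝ)) := by
  obtain ⟨h1, h2⟩ := pz_split hwz hP
  unfold Vz
  rw [h1, prod_union h2]

/-- the decomposition for one shift -/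
theorem split {z w N : ℕ} (hwz : w ≤ z) {P : Finset ℕ} (hP : ∀ p, p ∈ P ↔ p ∈ pz z ∧ w < p) (A : Finset ℕ)
    (a : ℤ) (t : ℕ) (hr : ∀ n ∈ A, 1 ≤ (n : ℤ) + a + (∏ q ∈ pz w, q : ℕ) * t ∧
      (n : ℤ) + a + (∏ q ∈ pz w, q : ℕ) * t ≤ N) :
    ∑ n ∈ A, Λ ((n : ℤ) + a + (∏ q ∈ pz w, q : ℕ) * t).toNat -
        (Vz w)⁻¹ * ((A.filter (fun n : ℕ => Sf (pz w) (n + a))).card : ℝ) =
      ∑ n ∈ A, EX z N (n + (a + (∏ q ∈ pz w, q : ℕ) * t)) +
        (Vz w)⁻¹ * ((∏ p ∈ P, (1 - 1 / (p : ℝ)))⁻¹ * (((A.filter (fun n : ℕ => Sf (pz w) (n + a))).filter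
          (fun n : ℕ => Sf P (n + a + (∏ q ∈ pz w, q : ℕ) * t))).card : ℝ) -
          ((A.filter (fun n : ℕ => Sf (pz w) (n + a))).card : ℝ)) := by
  obtain ⟨W, hW⟩ : ∃ W : ℕ, W = ∏ q ∈ pz w, q := ⟨_, rfl⟩
  rw [← hW] at hr ⊢
  have h1 : ∀ n ∈ A, EX z N (n + (a + W * t)) = Λ ((n : ℤ) + a + W * t).toNat - lamz z ((n : ℤ) + a + W * t).toNat := by
    intro n hn
    unfold EX
    rw [← add_assoc, if_pos (hr n hn)]
  rw [sum_congr rfl h1, sum_sub_distrib]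
  have h2 : ∀ n ∈ A, lamz z ((n : ℤ) + a + W * t).toNat =
      if (Sf (pz w) (n + a) ∧ Sf P (n + a + W * t)) then (Vz w)⁻¹ * (∏ p ∈ P, (1 - 1 / (p : ℝ)))⁻¹ else 0 := by
    intro n hn
    have hv := hr n hn
    unfold lamz
    have h3 : (∀ p ∈ pz z, ¬ p ∣ ((n : ℤ) + a + W * t).toNat) ↔ (Sf (pz w) (n + a) ∧ Sf P (n + a + W * t)) := by
      have h4 : ∀ p : ℕ, p ∣ ((n : ℤ) + a + W * t).toNat ↔ (p : ℤ) ∣ (n : ℤ) + a + W * t := by
        intro p
        rw [← Int.natCast_dvd_natCast, Int.toNat_of_nonneg (by omega)]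
      simp_rw [h4]
      rw [(pz_split hwz hP).1]
      unfold Sf
      constructor
      · intro h
        refine ⟨fun p hp h5 => h p (mem_union_left _ hp) ?_, fun p hp => h p (mem_union_right _ hp)⟩
        have h6 : (p : ℤ) ∣ (W : ℤ) * t := by
          apply Dvd.dvd.mul_right
          rw [hW]
          exact Int.natCast_dvd_natCast.2 (dvd_prod_of_mem _ hp)
        exact dvd_add h5 h6
      · rintro ⟨h5, h6⟩ p hp
        rcases mem_union.1 hp with hp | hp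
        · intro h7
          apply h5 p hp
          have h8 : (p : ℤ) ∣ (W : ℤ) * t := by
            apply Dvd.dvd.mul_right
            rw [hW]
            exact Int.natCast_dvd_natCast.2 (dvd_prod_of_mem _ hp)
          exact (Int.dvd_add_left h8).1 h7
        · exact h6 p hp
    rw [Vz_split hwz hP, mul_inv]
    simp only [h3]
  rw [sum_congr rfl h2, ← sum_filter, sum_const, nsmul_eq_mul, filter_filter]
  ring

/-- Chebyshev's inequality -/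
theorem cheb {ι : Type} (s : Finset ι) (f : ι → ℝ) (θ E : ℝ) (hθ : 0 < θ) (h : ∑ i ∈ s, f i ^ 2 ≤ E) :
    ((s.filter (fun i => θ < |f i|)).card : ℝ) ≤ E / θ ^ 2 := by
  rw [le_div_iff₀ (by positivity), ← nsmul_eq_mul]
  refine le_trans ?_ h
  refine le_trans ?_ (sum_le_sum_of_subset_of_nonneg (filter_subset (fun i => θ < |f i|) s) fun i _ _ => by positivity)
  rw [← sum_const]
  apply sum_le_sum
  intro i hi
  rw [mem_filter] at hi
  rw [← sq_abs (f i)]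
  exact pow_le_pow_left₀ hθ.le hi.2.le 2

end Pool.Agent.K9h54.TF
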