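import Pool.Agent.K9h54.TF.Mt
import Pool.Agent.H387R2.U2

set_option autoImplicit false

/-!
# One more prime: the singular series
-/

namespace Pool.Agent.K9h54.TF

open Finset Filter Topology
open Pool.Agent.H387R2.Uni (nuT locT CT CT_hasProd CT_nonneg)
open Pool.Agent.H373R2.T7 (pz mem_pz Vz Vz_pos)

theorem tend {f : ℕ → ℝ} {L : ℝ} (hf : HasProd (fun p : Nat.Primes => f p) L) :
    Tendsto (fun s : Finset Nat.Primes => ∏ p ∈ s, f p) atTop (𝓝 L) := by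
  simpa [HasProd] using hf

theorem prod_parts (f : ℕ → ℝ) (z : ℕ) (s : Finset Nat.Primes) (hs : (pz z).subtype Nat.Prime ⊆ s) :
    ∃ F : Finset ℕ, (∀ p ∈ F, p.Prime ∧ z < p) ∧ ∏ p ∈ s, f p = (∏ p ∈ F, f p) * ∏ p ∈ pz z, f p := by
  classical
  obtain ⟨S, hS⟩ : ∃ S : Finset ℕ, S = s.map ⟨Subtype.val, Subtype.val_injective⟩ := ⟨_, rfl⟩
  have hmem : ∀ p ∈ S, p.Prime := by
    intro p hp
    rw [hS, Finset.mem_map] at hp
    obtain ⟨q, _, rfl⟩ := hp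
    exact q.2
  have hsub : pz z ⊆ S := by
    intro p hp
    rw [hS, Finset.mem_map]
    refine ⟨⟨p, (mem_pz.1 hp).2⟩, hs ?_, rfl⟩
    rw [mem_subtype]
    exact hp
  refine ⟨S \ pz z, ?_, ?_⟩
  · intro p hp
    rw [Finset.mem_sdiff] at hp
    refine ⟨hmem p hp.1, ?_⟩
    by_contra h
    exact hp.2 (mem_pz.2 ⟨by omega, hmem p hp.1⟩)
  · rw [prod_sdiff hsub, hS, prod_map]
    rfl

theorem prod_ge {f : ℕ → ℝ} {L : ℝ} (hf : HasProd (fun p : Nat.Primes => f p) L) (z : ℕ) (c : ℝ)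
    (h : ∀ F : Finset ℕ, (∀ p ∈ F, p.Prime ∧ z < p) → c ≤ ∏ p ∈ F, f p) (h0 : ∀ p ∈ pz z, 0 ≤ f p) :
    c * ∏ p ∈ pz z, f p ≤ L := by
  apply ge_of_tendsto (tend hf)
  filter_upwards [eventually_ge_atTop ((pz z).subtype Nat.Prime)] with s hs
  obtain ⟨F, h1, h2⟩ := prod_parts f z s hs
  rw [h2]
  exact mul_le_mul_of_nonneg_right (h F h1) (prod_nonneg h0)

theorem prod_le' {f : ℕ → ℝ} {L : ℝ} (hf : HasProd (fun p : Nat.Primes => f p) L) (z : ℕ) (c : ℝ)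
    (h : ∀ F : Finset ℕ, (∀ p ∈ F, p.Prime ∧ z < p) → ∏ p ∈ F, f p ≤ c) (h0 : ∀ p ∈ pz z, 0 ≤ f p) :
    L ≤ c * ∏ p ∈ pz z, f p := by
  apply le_of_tendsto (tend hf)
  filter_upwards [eventually_ge_atTop ((pz z).subtype Nat.Prime)] with s hs
  obtain ⟨F, h1, h2⟩ := prod_parts f z s hs
  rw [h2]
  exact mul_le_mul_of_nonneg_right (h F h1) (prod_nonneg h0)

theorem one_sub_prod (F : Finset ℕ) (u : ℕ → ℝ) (hu : ∀ p ∈ F, 0 ≤ u p ∧ u p ≤ 1) :
    1 - ∑ p ∈ F, u p ≤ ∏ p ∈ F, (1 - u p) ∧ ∏ p ∈ F, (1 - u p) ≤ 1 ∧ 0 ≤ ∏ p ∈ F, (1 - u p) := by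
  classical
  induction F using Finset.induction_on with
  | empty => simp
  | insert a s ha ih =>
    obtain ⟨i1, i2, i3⟩ := ih fun p hp => hu p (mem_insert_of_mem hp)
    obtain ⟨u1, u2⟩ := hu a (mem_insert_self _ _)
    rw [sum_insert ha, prod_insert ha]
    refine ⟨?_, ?_, ?_⟩ <;> nlinarith

/-- a product of factors close to one -/
theorem prod_close (F : Finset ℕ) (f : ℕ → ℝ) (c : ℝ) (z : ℕ) (hz : 1 ≤ z) (hc : 0 ≤ c) (hcz : c ≤ z)
    (hF : ∀ p ∈ F, z < p) (hf : ∀ p ∈ F, 1 - c / (p : ℝ) ^ 2 ≤ f p) : 1 - c / z ≤ ∏ p ∈ F, f p := by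
  have hz0 : (0 : ℝ) < z := by exact_mod_cast hz
  have h1 : ∀ p ∈ F, 0 ≤ c / (p : ℝ) ^ 2 ∧ c / (p : ℝ) ^ 2 ≤ 1 := by
    intro p hp
    have h2 : (z : ℝ) ≤ p := by exact_mod_cast (hF p hp).le
    have h3 : (1 : ℝ) ≤ z := by exact_mod_cast hz
    refine ⟨by positivity, ?_⟩
    rw [div_le_one (pow_pos (by linarith) 2)]
    nlinarith
  have h2 : 1 - ∑ p ∈ F, c / (p : ℝ) ^ 2 ≤ ∏ p ∈ F, (1 - c / (p : ℝ) ^ 2) := by
    exact (one_sub_prod F (fun p : ℕ => c / (p : ℝ) ^ 2) h1).1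
  have h3 : ∑ p ∈ F, c / (p : ℝ) ^ 2 ≤ c / z := by
    have h4 := tail_sq F z hz hF
    have h5 : ∑ p ∈ F, c / (p : ℝ) ^ 2 = c * ∑ p ∈ F, 1 / (p : ℝ) ^ 2 := by
      rw [mul_sum]
      apply sum_congr rfl
      intro p _
      ring
    rw [h5]
    calc c * ∑ p ∈ F, 1 / (p : ℝ) ^ 2 ≤ c * (1 / z) := mul_le_mul_of_nonneg_left h4 hc
      _ = c / z := by ring
  have h4 : ∏ p ∈ F, (1 - c / (p : ℝ) ^ 2) ≤ ∏ p ∈ F, f p := by
    apply Finset.prod_le_prod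
    · intro p hp
      linarith [(h1 p hp).2]
    · exact hf
  linarith

/-- the local factor at a large prime -/
theorem loc_ge {T : Finset ℕ} {k p : ℕ} (hT : T.card = k) (hp : p.Prime) (hk : k < p) :
    1 - (k : ℝ) ^ 2 / (p : ℝ) ^ 2 ≤ locT T p := by
  have hp0 : (0 : ℝ) < p := by exact_mod_cast hp.pos
  have hp2 : (2 : ℝ) ≤ p := by exact_mod_cast hp.two_le
  have hkp : (k : ℝ) < p := by exact_mod_cast hk
  have h1 : 0 < 1 - 1 / (p : ℝ) := by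
    have : 1 / (p : ℝ) ≤ 1 / 2 := one_div_le_one_div_of_le (by norm_num) hp2
    linarith
  have h1' : 1 - 1 / (p : ℝ) ≤ 1 := by
    have : (0 : ℝ) ≤ 1 / p := by positivity
    linarith
  unfold locT
  rw [hT]
  have h2 : (nuT T p : ℝ) / p ≤ k / p := by
    have : (nuT T p : ℝ) ≤ k := by exact_mod_cast (nuT_le T p).trans hT.le
    gcongr
  have h3 : 0 < 1 - (k : ℝ) / p := by
    rw [sub_pos, div_lt_one hp0]
    exact hkp
  -- `(1 - 1/p)^k (1 + k/p) ≤ 1`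
  have h4 : (1 - 1 / (p : ℝ)) ^ k * (1 + k / p) ≤ 1 := by
    have h5 : 1 + (k : ℝ) / p ≤ Real.exp (k / p) := by
      have := Real.add_one_le_exp ((k : ℝ) / p)
      linarith
    have h6 : (1 - 1 / (p : ℝ)) ^ k ≤ Real.exp (-(k / p)) := by
      have h7 : 1 - 1 / (p : ℝ) ≤ Real.exp (-(1 / p)) := by
        have := Real.add_one_le_exp (-(1 / (p : ℝ)))
        linarith
      calc (1 - 1 / (p : ℝ)) ^ k ≤ Real.exp (-(1 / p)) ^ k := by gcongr
        _ = Real.exp (-(k / p)) := by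
            rw [← Real.exp_nat_mul]
            congr 1
            ring
    calc (1 - 1 / (p : ℝ)) ^ k * (1 + k / p) ≤ Real.exp (-(k / p)) * Real.exp (k / p) := by gcongr
      _ = 1 := by rw [← Real.exp_add]; simp
  rw [le_div_iff₀ (by positivity)]
  have e : 1 - (k : ℝ) ^ 2 / (p : ℝ) ^ 2 = (1 - k / p) * (1 + k / p) := by
    field_simp
    ring
  rw [e]
  calc (1 - (k : ℝ) / p) * (1 + k / p) * (1 - 1 / (p : ℝ)) ^ k =
        (1 - (k : ℝ) / p) * ((1 - 1 / (p : ℝ)) ^ k * (1 + k / p)) := by ring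
    _ ≤ (1 - (k : ℝ) / p) * 1 := mul_le_mul_of_nonneg_left h4 h3.le
    _ ≤ 1 - (nuT T p : ℝ) / p := by linarith

theorem loc_nonneg {T : Finset ℕ} {p : ℕ} (hp : p.Prime) (h : nuT T p < p) : 0 ≤ locT T p := by
  unfold locT
  have h1 := fac_pos hp h
  have hp2 : (2 : ℝ) ≤ p := by exact_mod_cast hp.two_le
  have h2 : 0 ≤ 1 - 1 / (p : ℝ) := by
    have : 1 / (p : ℝ) ≤ 1 / 2 := one_div_le_one_div_of_le (by norm_num) hp2
    linarith
  positivity

/-- the density and the Hardy-Littlewood constant -/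
theorem PiT_le {T : Finset ℕ} {k y : ℕ} (hT : T.card = k) (hadm : ∀ p, p.Prime → nuT T p < p) (hy : 2 * k ^ 2 + k + 1 ≤ y) :
    PiT T y ≤ 2 * CT T * Vz y ^ k := by
  have hy0 : (0 : ℝ) < y := by exact_mod_cast (by omega : 0 < y)
  have h1 : (1 / 2) * ∏ p ∈ pz y, locT T p ≤ CT T := by
    apply prod_ge (CT_hasProd T) y (1 / 2)
    · intro F hF
      have h2 := prod_close F (locT T) ((k : ℝ) ^ 2) y (by omega) (by positivity) (by
        have : k ^ 2 ≤ y := by nlinarith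
        exact_mod_cast this) (fun p hp => (hF p hp).2) (fun p hp => loc_ge hT (hF p hp).1 (by
        have := (hF p hp).2
        have : k ≤ y := by nlinarith
        omega))
      have h3 : (k : ℝ) ^ 2 / y ≤ 1 / 2 := by
        rw [div_le_iff₀ hy0]
        have : 2 * k ^ 2 ≤ y := by omega
        have : (2 : ℝ) * k ^ 2 ≤ y := by exact_mod_cast this
        linarith
      linarith
    · intro p hp
      exact loc_nonneg (mem_pz.1 hp).2 (hadm p (mem_pz.1 hp).2)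
  have h2 : PiT T y = (∏ p ∈ pz y, locT T p) * Vz y ^ k := by
    unfold PiT Vz
    rw [← prod_pow, ← prod_mul_distrib]
    apply prod_congr rfl
    intro p hp
    unfold locT
    rw [hT, div_mul_cancel₀]
    have hp2 : (2 : ℝ) ≤ p := by exact_mod_cast (mem_pz.1 hp).2.two_le
    have h2 : 0 < 1 - 1 / (p : ℝ) := by
      have : 1 / (p : ℝ) ≤ 1 / 2 := one_div_le_one_div_of_le (by norm_num) hp2
      linarith
    positivity
  rw [h2]
  have h3 := Vz_pos y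
  apply mul_le_mul_of_nonneg_right _ (by positivity)
  linarith

end Pool.Agent.K9h54.TF
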