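import Pool.Agent.H373R2.T7.SysCount
import Pool.Agent.H373R2.T7.Fund
import Pool.Agent.H387R2.UDefs

set_option autoImplicit false

/-!
# One more prime: the number of the forbidden classes in a progression
-/

namespace Pool.Agent.K9h54.TF

open Finset
open Pool.Agent.H387R2.Uni (nuT)
open Pool.Agent.H373R2.T7 (nuB PerB pz)

theorem nuB_congr {Q Q' : ℕ → ℕ → Prop} {p : ℕ} (h : ∀ j, Q p j ↔ Q' p j) : nuB Q p = nuB Q' p := by
  unfold nuB
  congr 1
  ext j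
  simp only [mem_filter, h]

theorem nuB_zero {Q : ℕ → ℕ → Prop} {p : ℕ} (h : ∀ j, ¬ Q p j) : nuB Q p = 0 := by
  unfold nuB
  rw [card_eq_zero]
  ext j
  simp only [mem_filter, h, and_false]
  simp

/-- the number of the residues `j` for which `c + m j` is congruent to an element of `T` -/
theorem nu_prog (T : Finset ℕ) {p : ℕ} (hp : p.Prime) (c m : ℤ) (hm : ¬ (p : ℤ) ∣ m) :
    nuB (fun p j => ∃ h ∈ T, (p : ℤ) ∣ c + m * j - h) p = nuT T p := by
  classical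
  haveI := Fact.mk hp
  haveI : NeZero p := ⟨hp.ne_zero⟩
  have hm' : ((m : ℤ) : ZMod p) ≠ 0 := by
    intro h
    exact hm ((ZMod.intCast_zmod_eq_zero_iff_dvd m p).1 h)
  have key : ∀ (j h : ℕ), (p : ℤ) ∣ c + m * j - h ↔ (j : ZMod p) = ((h : ZMod p) - (c : ZMod p)) * ((m : ZMod p))⁻¹ := by
    intro j h
    rw [← ZMod.intCast_zmod_eq_zero_iff_dvd]
    push_cast
    constructor
    · intro h1
      have h2 : (m : ZMod p) * j = h - c := by linear_combination h1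
      rw [← h2]
      field_simp
    · intro h1
      rw [h1]
      field_simp
      ring
  have e1 : nuB (fun p j => ∃ h ∈ T, (p : ℤ) ∣ c + m * j - h) p =
      (T.image (fun h : ℕ => ((h : ZMod p) - (c : ZMod p)) * ((m : ZMod p))⁻¹)).card := by
    unfold nuB
    apply card_bij (fun (j : ℕ) _ => (j : ZMod p))
    · intro j hj
      simp only [mem_filter, mem_range] at hj
      obtain ⟨_, h, hh, h2⟩ := hj
      exact mem_image.2 ⟨h, hh, ((key j h).1 h2).symm⟩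
    · intro j hj j' hj' h
      simp only [mem_filter, mem_range] at hj hj'
      have h3 := (ZMod.natCast_eq_natCast_iff' j j' p).1 h
      rwa [Nat.mod_eq_of_lt hj.1, Nat.mod_eq_of_lt hj'.1] at h3
    · intro b hb
      obtain ⟨h, hh, rfl⟩ := mem_image.1 hb
      refine ⟨(((h : ZMod p) - (c : ZMod p)) * ((m : ZMod p))⁻¹).val, ?_, ZMod.natCast_zmod_val _⟩
      simp only [mem_filter, mem_range]
      refine ⟨ZMod.val_lt _, h, hh, (key _ h).2 (ZMod.natCast_zmod_val _)⟩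
  have e2 : nuT T p = (T.image (fun h : ℕ => (h : ZMod p))).card := by
    unfold nuT
    apply card_bij (fun (j : ℕ) _ => (j : ZMod p))
    · intro j hj
      obtain ⟨h, hh, rfl⟩ := mem_image.1 hj
      exact mem_image.2 ⟨h, hh, by rw [ZMod.natCast_mod]⟩
    · intro j hj j' hj' h
      obtain ⟨a, _, rfl⟩ := mem_image.1 hj
      obtain ⟨a', _, rfl⟩ := mem_image.1 hj'
      have h3 := (ZMod.natCast_eq_natCast_iff' _ _ p).1 h
      simpa [Nat.mod_mod] using h3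
    · intro b hb
      obtain ⟨h, hh, rfl⟩ := mem_image.1 hb
      exact ⟨h % p, mem_image_of_mem _ hh, by rw [ZMod.natCast_mod]⟩
  have e3 : (T.image (fun h : ℕ => ((h : ZMod p) - (c : ZMod p)) * ((m : ZMod p))⁻¹)) =
      (T.image (fun h : ℕ => (h : ZMod p))).image (fun y => (y - (c : ZMod p)) * ((m : ZMod p))⁻¹) := by
    rw [image_image]
    rfl
  rw [e1, e2, e3]
  apply card_image_of_injective
  intro x y h
  have h1 : (x - (c : ZMod p)) = (y - (c : ZMod p)) := mul_right_cancel₀ (inv_ne_zero hm') h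
  exact sub_left_injective h1

theorem nuT_le (T : Finset ℕ) (p : ℕ) : nuT T p ≤ T.card := card_image_le

/-- periodicity -/
theorem per_prog (T : Finset ℕ) (c m : ℤ) (p n : ℕ) :
    (∃ h ∈ T, (p : ℤ) ∣ c + m * n - h) ↔ (∃ h ∈ T, (p : ℤ) ∣ c + m * ((n % p : ℕ) : ℤ) - h) := by
  apply exists_congr
  intro h
  apply and_congr_right
  intro _
  have e : c + m * (n : ℤ) - h = (c + m * ((n % p : ℕ) : ℤ) - h) + p * (m * ((n / p : ℕ) : ℤ)) := by
    have h2 : (n : ℤ) = ((n % p : ℕ) : ℤ) + p * ((n / p : ℕ) : ℤ) := by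
      have := Nat.mod_add_div n p
      exact_mod_cast this.symm
    rw [h2]
    push_cast
    have h3 : ((n : ℤ) % p + p * ((n : ℤ) / p)) % p = (n : ℤ) % p := by
      rw [Int.add_mul_emod_self_left, Int.emod_emod_of_dvd _ dvd_rfl]
    have h4 : ((n : ℤ) % p + p * ((n : ℤ) / p)) = n := Int.emod_add_mul_ediv _ _
    rw [h4]
    have h5 : (n : ℤ) = n % p + p * (n / p) := (Int.emod_add_mul_ediv _ _).symm
    conv_lhs => rw [h5]
    ring
  rw [e]
  constructor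
  · intro h3
    exact (Int.dvd_add_left ⟨_, rfl⟩).1 h3
  · intro h3
    exact (Int.dvd_add_left ⟨_, rfl⟩).2 h3

/-- the system of the conditions modulo the primes with the property `R` -/
theorem perB_prog (T : Finset ℕ) (c m : ℤ) (R : ℕ → Prop) {k : ℕ} (hk : T.card ≤ k)
    (hR : ∀ p, p.Prime → R p → ¬ (p : ℤ) ∣ m) :
    PerB (fun p j => R p ∧ ∃ h ∈ T, (p : ℤ) ∣ c + m * j - h) k := by
  classical
  refine ⟨fun p n => and_congr_right fun _ => per_prog T c m p n, fun p hp => ?_⟩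
  by_cases h : R p
  · have h1 := nu_prog T hp c m (hR p hp h)
    have h2 : nuB (fun p j => R p ∧ ∃ h ∈ T, (p : ℤ) ∣ c + m * j - h) p =
        nuB (fun p j => ∃ h ∈ T, (p : ℤ) ∣ c + m * j - h) p :=
      nuB_congr (fun j => by simp only [h, true_and])
    rw [h2, h1]
    exact (nuT_le T p).trans hk
  · have h2 : nuB (fun p j => R p ∧ ∃ h ∈ T, (p : ℤ) ∣ c + m * j - h) p = 0 :=
      nuB_zero (fun j h3 => h h3.1)
    rw [h2]
    exact Nat.zero_le _

/-- the product of the local densities -/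
theorem prod_prog (T : Finset ℕ) (c m : ℤ) (R : ℕ → Prop) (z : ℕ)
    (hR : ∀ p, p.Prime → R p → ¬ (p : ℤ) ∣ m) (P : Finset ℕ) (hP : ∀ p, p ∈ P ↔ p ∈ pz z ∧ R p) :
    ∏ p ∈ pz z, (1 - (nuB (fun p j => R p ∧ ∃ h ∈ T, (p : ℤ) ∣ c + m * j - h) p : ℝ) / p) =
      ∏ p ∈ P, (1 - (nuT T p : ℝ) / p) := by
  classical
  have e0 : P = (pz z).filter R := by
    ext p
    rw [hP, mem_filter]
  rw [e0, prod_filter]
  apply prod_congr rfl
  intro p hp
  have hpp := (Pool.Agent.H373R2.T7.mem_pz.1 hp).2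
  split_ifs with h
  · have h1 := nu_prog T hpp c m (hR p hpp h)
    have h2 : nuB (fun p j => R p ∧ ∃ h ∈ T, (p : ℤ) ∣ c + m * j - h) p =
        nuB (fun p j => ∃ h ∈ T, (p : ℤ) ∣ c + m * j - h) p :=
      nuB_congr (fun j => by simp only [h, true_and])
    rw [h2, h1]
  · have h2 : nuB (fun p j => R p ∧ ∃ h ∈ T, (p : ℤ) ∣ c + m * j - h) p = 0 :=
      nuB_zero (fun j h3 => h h3.1)
    rw [h2]
    norm_num

/-- the fundamental lemma for a tuple in a progression -/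
theorem fund (k : ℕ) (hk : 1 ≤ k) (ε : ℝ) (hε : 0 < ε) : ∃ K x0 : ℕ, 1 ≤ K ∧ ∀ x y : ℕ, x0 ≤ y → y ^ K ≤ x →
    ∀ T : Finset ℕ, T.card ≤ k → ∀ (c m : ℤ) (R : ℕ → Prop), (∀ p, p.Prime → R p → ¬ (p : ℤ) ∣ m) →
      ∀ P : Finset ℕ, (∀ p, p ∈ P ↔ p ∈ pz y ∧ R p) → ∀ (J : ℕ) (F : Finset ℕ),
        (∀ n, n ∈ F ↔ n ∈ Icc 1 J ∧ ∀ p ∈ pz y, ¬ (R p ∧ ∃ h ∈ T, (p : ℤ) ∣ c + m * n - h)) →
        |(F.card : ℝ) - J * ∏ p ∈ P, (1 - (nuT T p : ℝ) / p)| ≤
          ε * (J * ∏ p ∈ P, (1 - (nuT T p : ℝ) / p)) + √(x : ℝ) := by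
  classical
  obtain ⟨K, x0, hK, hF⟩ := Pool.Agent.H373R2.T7.sys_fund k hk ε hε
  refine ⟨K, x0, hK, fun x y hy hyx T hT c m R hR P hP J F hFm => ?_⟩
  have h1 := hF x y hy hyx _ (perB_prog T c m R hT hR) J
  rw [prod_prog T c m R y hR P hP] at h1
  convert h1 using 4
  congr 1
  ext n
  rw [hFm]
  simp only [mem_filter]

/-- the number of elements of a progression which avoid a tuple, modulo small primes -/
theorem cnt (k E U : ℕ) (hk : 1 ≤ k) : ∃ N0 : ℕ, ∀ N : ℕ, N0 ≤ N → ∀ z : ℕ, 1 ≤ z → (z : ℝ) ≤ Real.log N ^ E →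
    ∀ T : Finset ℕ, T.card ≤ k → ∀ (c m : ℤ) (R : ℕ → Prop), (∀ p, p.Prime → R p → ¬ (p : ℤ) ∣ m) →
      ∀ P : Finset ℕ, (∀ p, p ∈ P ↔ p ∈ pz z ∧ R p) → ∀ F : Finset ℕ,
        (∀ n, n ∈ F ↔ n ∈ Icc 1 N ∧ ∀ p ∈ pz z, ¬ (R p ∧ ∃ h ∈ T, (p : ℤ) ∣ c + m * n - h)) →
        |(F.card : ℝ) - N * ∏ p ∈ P, (1 - (nuT T p : ℝ) / p)| ≤ N / Real.log N ^ U := by
  classical
  obtain ⟨N0, hF⟩ := Pool.Agent.H373R2.T7.sys_count k E U hk
  refine ⟨N0, fun N hN z hz hzE T hT c m R hR P hP F hFm => ?_⟩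
  have h1 := hF N hN z hz hzE _ (perB_prog T c m R hT hR)
  rw [prod_prog T c m R z hR P hP] at h1
  convert h1 using 4
  congr 1
  ext n
  rw [hFm]
  simp only [mem_filter]

end Pool.Agent.K9h54.TF
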