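import Pool.Agent.K9h54.TF.Spl

set_option autoImplicit false

/-!
# One more prime: the two exceptional sets
-/

namespace Pool.Agent.K9h54.TF

open Finset Filter
open scoped ArithmeticFunction.vonMangoldt
open Pool.Agent.H387R2.Uni (nuT)
open Pool.Agent.H373R2.T7 (lamz pz mem_pz Vz Vz_pos)

/-- the shifts in a progression -/
theorem ex1 {z N W J : ℕ} {a : ℤ} (A : Finset ℕ) (hW : 1 ≤ W) (M : ℝ)
    (h : ∑ d ∈ Icc (-(N : ℤ)) N, (∑ n ∈ A, EX z N (n + d)) ^ 2 ≤ M)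
    (hr : ∀ t ∈ Icc 1 J, -(N : ℤ) ≤ a + W * t ∧ a + W * t ≤ N) :
    ∑ t ∈ Icc 1 J, (∑ n ∈ A, EX z N (n + (a + W * t))) ^ 2 ≤ M := by
  refine le_trans ?_ h
  have hinj : Set.InjOn (fun t : ℕ => a + (W : ℤ) * t) (Icc 1 J : Finset ℕ) := by
    intro t _ t' _ he
    simp only at he
    have h1 : (W : ℤ) * t = W * t' := by linarith
    have h2 : (W : ℤ) ≠ 0 := by omega
    exact_mod_cast mul_left_cancel₀ h2 h1
  rw [← sum_image (f := fun d : ℤ => (∑ n ∈ A, EX z N (n + d)) ^ 2) hinj]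
  apply sum_le_sum_of_subset_of_nonneg
  · intro d hd
    obtain ⟨t, ht, rfl⟩ := mem_image.1 hd
    rw [mem_Icc]
    exact hr t ht
  · intro _ _ _
    positivity

/-- the numbers of the second exceptional set -/
theorem num2 {x Q w γ Vi l J c : ℝ} {k : ℕ} (hx : 0 < x) (hQ : 0 < Q) (hw : 0 < w) (hJ : 0 ≤ J) (hVi0 : 1 ≤ Vi)
    (hc0 : 0 ≤ c) (hc : c ≤ 5 * (x * Q)) (hγ : γ * Vi ≤ x * Q / w) (hV : 1200 * Vi ^ 2 * w ≤ l)
    (hl : 0 < l) (hk : (k : ℝ) = k) :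
    J * (c * (4 * x * Q * (8 / w) + γ * Vi) + (Vi ^ 2 + 2 * Vi) * c ^ 2 / (l / 16)) ≤ J * (166 * (x * Q) ^ 2 / w) := by
  apply mul_le_mul_of_nonneg_left _ hJ
  have hxQ : 0 < x * Q := by positivity
  have h1 : 4 * x * Q * (8 / w) + γ * Vi ≤ 33 * (x * Q / w) := by
    have : 4 * x * Q * (8 / w) = 32 * (x * Q / w) := by ring
    linarith
  have h2 : c * (4 * x * Q * (8 / w) + γ * Vi) ≤ 165 * (x * Q) ^ 2 / w := by
    calc c * (4 * x * Q * (8 / w) + γ * Vi) ≤ c * (33 * (x * Q / w)) := mul_le_mul_of_nonneg_left h1 hc0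
      _ ≤ 5 * (x * Q) * (33 * (x * Q / w)) := mul_le_mul_of_nonneg_right hc (by positivity)
      _ = 165 * (x * Q) ^ 2 / w := by ring
  have h3 : (Vi ^ 2 + 2 * Vi) * c ^ 2 / (l / 16) ≤ (x * Q) ^ 2 / w := by
    have h4 : Vi ^ 2 + 2 * Vi ≤ 3 * Vi ^ 2 := by nlinarith
    have h5 : c ^ 2 ≤ (5 * (x * Q)) ^ 2 := pow_le_pow_left₀ hc0 hc 2
    have h6 : (Vi ^ 2 + 2 * Vi) * c ^ 2 ≤ 3 * Vi ^ 2 * (5 * (x * Q)) ^ 2 :=
      mul_le_mul h4 h5 (by positivity) (by positivity)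
    rw [div_le_div_iff₀ (by positivity) hw]
    have h7 : (x * Q) ^ 2 * (1200 * Vi ^ 2 * w) ≤ (x * Q) ^ 2 * l := mul_le_mul_of_nonneg_left hV (by positivity)
    nlinarith [mul_le_mul_of_nonneg_right h6 hw.le]
  have h4 : 165 * (x * Q) ^ 2 / w + (x * Q) ^ 2 / w = 166 * (x * Q) ^ 2 / w := by ring
  linarith

/-- the second exceptional set -/
theorem ex2 (k : ℕ) (hk : 1 ≤ k) : ∃ K x0 : ℕ, 1 ≤ K ∧ ∀ E : ℕ, ∃ N2 : ℕ, ∀ x y z J M w : ℕ, x0 ≤ y → y ^ K ≤ x →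
    1 ≤ x → 2 * k ≤ w → 4 ≤ w → w ≤ z → z ≤ y → N2 ≤ J → (z : ℝ) ≤ Real.log J ^ E → 1 ≤ M → M ≤ x →
    ∀ T : Finset ℕ, T.card ≤ k → (∀ p, p.Prime → nuT T p < p) → ∀ A ⊆ Icc 1 x,
      (∀ n ∈ A, ∀ h ∈ T, IsP ((n : ℤ) - h)) → ∀ γ : ℝ, γ = √(x : ℝ) + k * y + x / M + 1 →
      γ * (Vz z)⁻¹ ≤ x * PiT T y / w → 1200 * ((Vz z)⁻¹) ^ 2 * w ≤ 16 * Real.log J ^ 4 →
      ∀ (a : ℤ) (P : Finset ℕ), (∀ p, p ∈ P ↔ p ∈ pz z ∧ w < p) →
        ∑ t ∈ Icc 1 J, ((∏ p ∈ P, (1 - 1 / (p : ℝ)))⁻¹ *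
          ((A.filter (fun n : ℕ => Sf P (n + a + (∏ q ∈ pz w, q : ℕ) * t))).card : ℝ) - A.card) ^ 2 ≤
          J * (166 * (x * PiT T y) ^ 2 / w) ∧ (A.card : ℝ) ≤ 5 * (x * PiT T y) := by
  classical
  obtain ⟨K, x0, hK, hcls⟩ := cls k hk
  refine ⟨K, x0, hK, fun E => ?_⟩
  obtain ⟨N2, hvar⟩ := vari E 4
  refine ⟨max N2 3, fun x y z J M w hy hyx hx hkw hw4 hwz hzy hJ hzJ hM hMx T hT hadm A hA hAT γ hγd hγ hVJ a P hP => ?_⟩
  have hx0 : (0 : ℝ) < x := by exact_mod_cast hx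
  have hw0 : (0 : ℝ) < w := by exact_mod_cast (by omega : 0 < w)
  have hJ3 : 3 ≤ J := (le_max_right _ _).trans hJ
  have hlJ : 0 < Real.log J := Real.log_pos (by exact_mod_cast (by omega : 1 < J))
  have hPi : 0 < PiT T y := by
    unfold PiT
    exact prod_pos fun p hp => fac_pos (mem_pz.1 hp).2 (hadm p (mem_pz.1 hp).2)
  have hγ0 : 0 ≤ γ := by rw [hγd]; positivity
  obtain ⟨V, hV⟩ : ∃ V : ℝ, V = ∏ p ∈ P, (1 - 1 / (p : ℝ)) := ⟨_, rfl⟩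
  have hVs : Vz z = Vz w * V := by rw [hV]; exact Vz_split hwz hP
  have hVz0 := Vz_pos z
  have hVw0 := Vz_pos w
  have hVw1 := Pool.Agent.H373R2.T7.Vz_le_one w
  have hV0 : 0 < V := by
    by_contra h
    push Not at h
    have : Vz w * V ≤ 0 := mul_nonpos_of_nonneg_of_nonpos hVw0.le h
    linarith
  have hVi : V⁻¹ ≤ (Vz z)⁻¹ := by
    apply inv_anti₀ hVz0
    rw [hVs]
    calc Vz w * V ≤ 1 * V := mul_le_mul_of_nonneg_right hVw1 hV0.le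
      _ = V := one_mul _
  have hVi1 : 1 ≤ V⁻¹ := by
    rw [one_le_inv₀ hV0, hV]
    apply prod_le_one
    · intro p hp
      have hpp := (mem_pz.1 ((hP p).1 hp).1).2
      have h2 : (2 : ℝ) ≤ p := by exact_mod_cast hpp.two_le
      have : 1 / (p : ℝ) ≤ 1 := (div_le_one (by linarith)).2 (by linarith)
      linarith
    · intro p _
      have : (0 : ℝ) ≤ 1 / (p : ℝ) := by positivity
      linarith
  have hPS : ∀ S ⊆ P, ∀ p ∈ S, p.Prime ∧ w < p ∧ p ≤ y := by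
    intro S hS p hp
    have h1 := (hP p).1 (hS hp)
    rw [mem_pz] at h1
    exact ⟨h1.1.2, h1.2, h1.1.1.trans hzy⟩
  have hB := fun S (hS : S ⊆ P) (r : ℕ) => hcls x y hy hyx T hT hadm A hA hAT w hkw hw4 S (hPS S hS) M hM hMx r
  rw [← hγd] at hB
  have hγ1 : γ * V⁻¹ ≤ x * PiT T y / w := (mul_le_mul_of_nonneg_left hVi hγ0).trans hγ
  have hγ2 : γ ≤ x * PiT T y := by
    have h1 : γ ≤ γ * V⁻¹ := le_mul_of_one_le_right hγ0 hVi1
    have h2 : x * PiT T y / w ≤ x * PiT T y := by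
      apply div_le_self (by positivity)
      exact_mod_cast (by omega : 1 ≤ w)
    linarith
  have hAc : (A.card : ℝ) ≤ 5 * (x * PiT T y) := by
    have h1 := hB ∅ (empty_subset _) 0
    simp only [prod_empty, Nat.mod_one, filter_true] at h1
    linarith
  refine ⟨?_, hAc⟩
  rw [← hV]
  refine (hvar J ((le_max_left _ _).trans hJ) z (by omega) hzJ w a A P hP V hV).trans ?_
  have h1 := comb A P k w (4 * x * PiT T y) γ hk hkw hw4 (fun p hp => ⟨(hPS P subset_rfl p hp).1,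
    (hPS P subset_rfl p hp).2.1⟩) (by positivity) hγ0 hB
  rw [← hV] at h1
  have h2 : (J : ℝ) * (∑ n ∈ A, ∑ n' ∈ A, (∏ p ∈ P, (if n % p = n' % p then (1 - 1 / (p : ℝ))⁻¹ else 1) - 1) +
          (V⁻¹ ^ 2 + 2 * V⁻¹) * (A.card : ℝ) ^ 2 / Real.log J ^ 4) ≤
      J * (A.card * (4 * x * PiT T y * (8 / w) + γ * V⁻¹) +
          (V⁻¹ ^ 2 + 2 * V⁻¹) * (A.card : ℝ) ^ 2 / Real.log J ^ 4) := by
    apply mul_le_mul_of_nonneg_left _ (Nat.cast_nonneg _)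
    linarith
  refine h2.trans ?_
  have h3 := num2 (x := x) (Q := PiT T y) (w := w) (γ := γ) (Vi := V⁻¹) (l := 16 * Real.log J ^ 4) (J := J)
    (c := A.card) (k := k) hx0 hPi hw0 (Nat.cast_nonneg _) hVi1 (Nat.cast_nonneg _) hAc hγ1 (by
      refine le_trans ?_ hVJ
      have : V⁻¹ ^ 2 ≤ ((Vz z)⁻¹) ^ 2 := pow_le_pow_left₀ (by positivity) hVi 2
      gcongr) (by positivity) rfl
  have e : 16 * Real.log J ^ 4 / 16 = Real.log J ^ 4 := by ring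
  rw [e] at h3
  exact h3

end Pool.Agent.K9h54.TF
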