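import Pool.Agent.K9h54.TF.Core1
import Pool.Agent.K9h54.MP.Sc

set_option autoImplicit false

/-!
# One more prime: the core
-/

namespace Pool.Agent.K9h54.TF

open Finset Filter
open scoped ArithmeticFunction.vonMangoldt
open Pool.Agent.H387R2.Uni (nuT)
open Pool.Agent.H373R2.T7 (lamz pz mem_pz Vz Vz_pos)
open Pool.Agent.K9h54.MP (pow_le_exp)

/-- the choice of `w` -/
theorem choose_w (C : ℝ) (η : ℝ) (hC : 0 < C) (hη : 0 < η) (w0 : ℕ) : ∃ w : ℕ, w0 ≤ w ∧ 4 ≤ w ∧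
    1328 * (C * Real.log w) ^ 2 ≤ η ^ 3 * w := by
  obtain ⟨X, hX⟩ := evlog (P := fun l => 1328 * C ^ 2 / η ^ 3 * l ^ 2 ≤ Real.exp (1 * l))
    (pow_le_exp (1328 * C ^ 2 / η ^ 3) 1 2 one_pos)
  refine ⟨max X (max w0 4), (le_max_left _ _).trans (le_max_right _ _), (le_max_right _ _).trans (le_max_right _ _), ?_⟩
  set w := max X (max w0 4)
  have h1 := hX w (le_max_left _ _)
  have hw4 : 4 ≤ w := (le_max_right _ _).trans (le_max_right _ _)
  have hw0 : (0 : ℝ) < w := by exact_mod_cast (by omega : 0 < w)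
  rw [one_mul, Real.exp_log hw0] at h1
  have h2 : η ^ 3 * (1328 * C ^ 2 / η ^ 3 * Real.log w ^ 2) ≤ η ^ 3 * w := mul_le_mul_of_nonneg_left h1 (by positivity)
  refine le_trans (le_of_eq ?_) h2
  field_simp

/-- the conditions on `l = log x` -/
structure Big (k K B C w x0 N0 : ℕ) (C1 C2 η l : ℝ) : Prop where
  l1 : 4 ≤ l
  a1 : l ^ C ≤ Real.exp (l / 2)
  a2 : (N0 : ℝ) ≤ Real.exp (l / 2)
  a3 : (2 * l) ^ B + 1 + w ≤ (l / 2) ^ (B + 1)
  a4 : (2 * l) ^ B + 1 + x0 + w + 3 ≤ Real.exp (l / K) - 1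
  a5 : (k + 2) * l ^ (2 * k + 3) ≤ Real.exp (l / 2)
  a6 : 2 * C1 * C2 * w ≤ l ^ 2
  a7 : 2 * (C1 * C2 * w * ((k + 2) * l ^ (2 * k + 1))) ≤ Real.exp (l / 2)
  a8 : 1200 * C2 ^ 2 * w ≤ l ^ 2
  a9 : 32 * C1 ^ 2 ≤ η ^ 3 * l
  a10 : 2 * l ^ (2 * k + 3) ≤ Real.exp l

theorem big (k K B C w x0 N0 : ℕ) (C1 C2 η : ℝ) (hK : 1 ≤ K) (hη : 0 < η) :
    ∀ᶠ l : ℝ in atTop, Big k K B C w x0 N0 C1 C2 η l := by
  have hK0 : (0 : ℝ) < K := by exact_mod_cast hK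
  filter_upwards [eventually_ge_atTop (4 : ℝ), pow_le_exp 1 (1 / 2) C (by norm_num),
    pow_le_exp N0 (1 / 2) 0 (by norm_num), eventually_ge_atTop ((2 : ℝ) ^ (B + 1) * (2 ^ B + 1 + w)),
    pow_le_exp (2 * (2 ^ B + 1 + x0 + w + 4)) (1 / K) B (by positivity),
    pow_le_exp (k + 2) (1 / 2) (2 * k + 3) (by norm_num), eventually_ge_atTop (2 * C1 * C2 * w),
    pow_le_exp (2 * (C1 * C2 * w * (k + 2))) (1 / 2) (2 * k + 1) (by norm_num),
    eventually_ge_atTop (1200 * C2 ^ 2 * w), eventually_ge_atTop (32 * C1 ^ 2 / η ^ 3),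
    pow_le_exp 2 1 (2 * k + 3) one_pos] with l h1 h2 h3 h4 h5 h6 h7 h8 h9 h10 h11
  have hl0 : 0 < l := by linarith
  have hl1 : 1 ≤ l := by linarith
  have hsq : l ≤ l ^ 2 := le_self_pow₀ hl1 (by norm_num)
  have e1 : (1 / 2 : ℝ) * l = l / 2 := by ring
  have e2 : (1 / (K : ℝ)) * l = l / K := by ring
  have hlB : 1 ≤ l ^ B := one_le_pow₀ hl1
  rw [e1] at h2 h3 h6 h8
  rw [e2] at h5
  rw [one_mul] at h11
  refine ⟨h1, by linarith, ?_, ?_, ?_, h6, by linarith, ?_, by linarith, ?_, h11⟩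
  · rw [pow_zero, mul_one] at h3
    exact h3
  · have h12 : (l / 2) ^ (B + 1) = l ^ B * (l / 2 ^ (B + 1)) := by
      rw [div_pow, pow_succ l B]
      ring
    rw [h12, mul_pow]
    have h13 : (2 : ℝ) ^ B + 1 + w ≤ l / 2 ^ (B + 1) := by
      rw [le_div_iff₀ (by positivity)]
      linarith
    have h14 : (0 : ℝ) ≤ w := Nat.cast_nonneg _
    have h15 : (w : ℝ) * 1 ≤ w * l ^ B := mul_le_mul_of_nonneg_left hlB h14
    have h16 := mul_le_mul_of_nonneg_left h13 (by positivity : (0 : ℝ) ≤ l ^ B)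
    nlinarith
  · rw [mul_pow]
    have h14 : (0 : ℝ) ≤ x0 := Nat.cast_nonneg _
    have h15 : (0 : ℝ) ≤ w := Nat.cast_nonneg _
    have h16 : (0 : ℝ) ≤ 2 ^ B := by positivity
    have h17 : (2 ^ B + 1 + x0 + w + 4) * 1 ≤ (2 ^ B + 1 + x0 + w + 4) * l ^ B :=
      mul_le_mul_of_nonneg_left hlB (by positivity)
    have h18 : (2 : ℝ) ^ B * l ^ B + 1 + x0 + w + 3 + 1 ≤ 2 * (2 ^ B + 1 + x0 + w + 4) * l ^ B := by
      nlinarith [mul_nonneg h16 (by positivity : (0 : ℝ) ≤ l ^ B)]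
    linarith
  · refine le_trans (le_of_eq ?_) h8
    ring
  · rw [div_le_iff₀ (by positivity)] at h10
    linarith

/-- THE CORE: the sum over the primes at almost all shifts of a progression -/
theorem core (k : ℕ) (hk : 1 ≤ k) : ∃ K0 : ℕ, 2 ≤ K0 ∧ ∀ K : ℕ, K0 ≤ K → ∀ η : ℝ, 0 < η → ∀ w0 : ℕ, ∃ w : ℕ, w0 ≤ w ∧ 4 ≤ w ∧
    ∀ C : ℕ, ∃ x1 : ℕ,
    ∀ x : ℕ, x1 ≤ x → ∀ y : ℕ, y ^ K ≤ x → x < (y + 1) ^ K → ∀ T : Finset ℕ, T.card ≤ k →
    (∀ p, p.Prime → nuT T p < p) → ∀ A ⊆ Icc 1 x, (∀ n ∈ A, ∀ h ∈ T, IsP ((n : ℤ) - h)) →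
    ∀ (a : ℤ) (J : ℕ), (x : ℝ) ≤ J * Real.log x ^ C →
      (∀ n ∈ A, ∀ t ∈ Icc 1 J, 1 ≤ (n : ℤ) + a + (∏ q ∈ pz w, q : ℕ) * t ∧
        (n : ℤ) + a + (∏ q ∈ pz w, q : ℕ) * t ≤ 2 * x) →
      (((Icc 1 J).filter (fun t : ℕ => η * (x * PiT T y) <
        |∑ n ∈ A, Λ ((n : ℤ) + a + (∏ q ∈ pz w, q : ℕ) * t).toNat -
          (Vz w)⁻¹ * ((A.filter (fun n : ℕ => Sf (pz w) (n + a))).card : ℝ)|)).card : ℝ) ≤ η * J := by
  classical
  obtain ⟨K1, x0, hK1, hex2⟩ := ex2 k hk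
  obtain ⟨C1, hC1, hlow⟩ := PiT_low k
  obtain ⟨C2, hC2, hM⟩ := mert
  refine ⟨max K1 2, le_max_right _ _, fun K hK η hη w0 => ?_⟩
  have hK2 : 2 ≤ K := (le_max_right _ _).trans hK
  obtain ⟨w, hwk, hw4, hw⟩ := choose_w C2 η (by linarith) hη (max (2 * k) w0)
  refine ⟨w, (le_max_right _ _).trans hwk, hw4, fun C => ?_⟩
  have hwk : 2 * k ≤ w := (le_max_left _ _).trans hwk
  obtain ⟨B, hB⟩ := l2 (2 * k + C + 1)
  obtain ⟨N1, hl2⟩ := hB (B + 1)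
  obtain ⟨N2, hex2⟩ := hex2 (B + 1)
  obtain ⟨X, hX⟩ := evlog (big k K B C w x0 (max N1 N2) C1 C2 η (by omega) hη)
  refine ⟨max X 3, fun x hx y hyx hxy T hT hadm A hA hAT a J hJx hr => ?_⟩
  rcases A.eq_empty_or_nonempty with hAe | hAne
  · subst hAe
    have hPi : 0 ≤ PiT T y := by
      unfold PiT
      exact prod_nonneg fun p hp => (fac_pos (mem_pz.1 hp).2 (hadm p (mem_pz.1 hp).2)).le
    have : (Icc 1 J).filter (fun t : ℕ => η * (x * PiT T y) <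
        |∑ n ∈ (∅ : Finset ℕ), Λ ((n : ℤ) + a + (∏ q ∈ pz w, q : ℕ) * t).toNat -
          (Vz w)⁻¹ * (((∅ : Finset ℕ).filter (fun n : ℕ => Sf (pz w) (n + a))).card : ℝ)|) = ∅ := by
      rw [filter_eq_empty_iff]
      intro t _
      simp only [sum_empty, filter_empty, card_empty, Nat.cast_zero, mul_zero, sub_zero, abs_zero, not_lt]
      positivity
    rw [this, card_empty, Nat.cast_zero]
    positivity
  have hb := hX x ((le_max_left _ _).trans hx)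
  have hx3 : 3 ≤ x := (le_max_right _ _).trans hx
  have hx0 : (0 : ℝ) < x := by exact_mod_cast (by omega : 0 < x)
  obtain ⟨l, hl⟩ : ∃ l, l = Real.log x := ⟨_, rfl⟩
  rw [← hl] at hb hJx
  obtain ⟨l1, a1, a2, a3, a4, a5, a6, a7, a8, a9, a10⟩ := hb
  have hxe : Real.exp l = x := by rw [hl, Real.exp_log hx0]
  have hl0 : 0 < l := by linarith
  have hw0 : (0 : ℝ) < w := by exact_mod_cast (by omega : 0 < w)
  have hsq : √(x : ℝ) = Real.exp (l / 2) := by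
    rw [← hxe, Real.sqrt_eq_rpow, ← Real.exp_mul]
    congr 1
    ring
  have hss : √(x : ℝ) * √(x : ℝ) = x := Real.mul_self_sqrt hx0.le
  have hsq0 : 0 < √(x : ℝ) := Real.sqrt_pos.2 hx0
  rw [← hsq] at a1 a2 a5 a7
  -- the parameter `y`
  have hK0 : (0 : ℝ) < K := by exact_mod_cast (by omega : 0 < K)
  have hy1 : Real.exp (l / K) < y + 1 := by
    have h1 : (x : ℝ) < ((y : ℝ) + 1) ^ K := by exact_mod_cast hxy
    have h2 : Real.exp (l / K) ^ K = x := by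
      rw [← Real.exp_nat_mul, ← hxe]
      congr 1
      field_simp
    rw [← h2] at h1
    exact lt_of_pow_lt_pow_left₀ K (by positivity) h1
  have h2B0 : (0 : ℝ) ≤ (2 * l) ^ B := by positivity
  have hx0y : x0 ≤ y := by
    have : (x0 : ℝ) ≤ y := by linarith
    exact_mod_cast this
  have hy3 : 3 ≤ y := by
    have h3 : (0 : ℝ) ≤ x0 := Nat.cast_nonneg _
    have : (3 : ℝ) ≤ y := by linarith
    exact_mod_cast this
  have hyK1 : y ^ K1 ≤ x := (Nat.pow_le_pow_right (by omega) ((le_max_left _ _).trans hK)).trans hyx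
  have hy2 : (y : ℝ) ≤ √(x : ℝ) := by
    apply Real.le_sqrt_of_sq_le
    have : y ^ 2 ≤ x := (Nat.pow_le_pow_right (by omega) hK2).trans hyx
    exact_mod_cast this
  have hyl : Real.log y ≤ l := by
    rw [hl]
    apply Real.log_le_log (by exact_mod_cast (by omega : 0 < y))
    have h4 : y ≤ x := by
      calc y = y ^ 1 := (pow_one y).symm
        _ ≤ y ^ K := Nat.pow_le_pow_right (by omega) (by omega)
        _ ≤ x := hyx
    exact_mod_cast h4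
  -- the modulus of the sieve
  obtain ⟨L, hL⟩ : ∃ L, L = Real.log ((2 * x : ℕ) : ℝ) := ⟨_, rfl⟩
  have hLl : L = Real.log 2 + l := by
    rw [hL, hl]
    push_cast
    rw [Real.log_mul (by norm_num) hx0.ne']
  have hlog2 : 0 < Real.log 2 ∧ Real.log 2 < 1 := ⟨Real.log_pos (by norm_num), by
    have := Real.log_two_lt_d9
    linarith⟩
  have hL1 : l ≤ L := by linarith
  have hL2 : L ≤ 2 * l := by linarith
  have hL0 : 0 < L := by linarith
  obtain ⟨z, hz⟩ : ∃ z, z = max w ⌈L ^ B⌉₊ := ⟨_, rfl⟩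
  have hwz : w ≤ z := by rw [hz]; exact le_max_left _ _
  have hz1 : L ^ B ≤ z := by
    rw [hz]
    push_cast
    exact (Nat.le_ceil _).trans (le_max_right _ _)
  have hz2 : (z : ℝ) ≤ (2 * l) ^ B + 1 + w := by
    rw [hz]
    push_cast
    apply max_le
    · linarith
    · have h1 := Nat.ceil_lt_add_one (show 0 ≤ L ^ B by positivity)
      have h2 : L ^ B ≤ (2 * l) ^ B := by gcongr
      linarith
  have hz3 : (z : ℝ) ≤ L ^ (B + 1) := by
    have : (l / 2) ^ (B + 1) ≤ L ^ (B + 1) := by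
      apply pow_le_pow_left₀ (by positivity)
      linarith
    linarith
  have hzy : z ≤ y := by
    have h3 : (0 : ℝ) ≤ x0 := Nat.cast_nonneg _
    have : (z : ℝ) ≤ y := by linarith
    exact_mod_cast this
  -- the length
  have hJ1 : √(x : ℝ) ≤ J := by
    have h1 : (x : ℝ) ≤ J * √(x : ℝ) := hJx.trans (mul_le_mul_of_nonneg_left a1 (Nat.cast_nonneg _))
    have h2 : √(x : ℝ) * √(x : ℝ) ≤ J * √(x : ℝ) := by rw [hss]; exact h1
    exact le_of_mul_le_mul_right h2 hsq0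
  have hJ2 : l / 2 ≤ Real.log J := by
    rw [Real.le_log_iff_exp_le (by linarith), ← hsq]
    exact hJ1
  have hJN : max N1 N2 ≤ J := by
    have : ((max N1 N2 : ℕ) : ℝ) ≤ J := a2.trans hJ1
    exact_mod_cast this
  have hxN : max N1 N2 ≤ x := by
    have h1 : √(x : ℝ) ≤ x := by
      have : 1 ≤ √(x : ℝ) := by
        rw [Real.one_le_sqrt]
        exact_mod_cast (by omega : 1 ≤ x)
      nlinarith
    have : ((max N1 N2 : ℕ) : ℝ) ≤ x := a2.trans h1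
    exact_mod_cast this
  -- the density
  obtain ⟨hPi, hPi1⟩ := hlow y hy3 T hT hadm
  obtain ⟨Q, hQ⟩ : ∃ Q, Q = PiT T y := ⟨_, rfl⟩
  have hQl : Q⁻¹ ≤ C1 * l ^ (2 * k) := by
    rw [hQ]
    refine hPi1.trans ?_
    have h5 : 0 ≤ Real.log y := Real.log_natCast_nonneg _
    gcongr
  rw [← hQ] at hPi
  have hQ1 : 1 ≤ Q * (C1 * l ^ (2 * k)) := by
    rw [inv_le_iff_one_le_mul₀ hPi] at hQl
    linarith [mul_comm Q (C1 * l ^ (2 * k))]
  have hVz : (Vz z)⁻¹ ≤ C2 * l := by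
    refine (hM z (by omega)).2.trans ?_
    apply mul_le_mul_of_nonneg_left _ (by linarith)
    refine le_trans ?_ hyl
    apply Real.log_le_log (by exact_mod_cast (by omega : 0 < z))
    exact_mod_cast hzy
  have hVz0 := Vz_pos z
  -- the truncation
  obtain ⟨M, hMd⟩ : ∃ M, M = ⌈l ^ (2 * k + 3)⌉₊ := ⟨_, rfl⟩
  have hlk1 : (1 : ℝ) ≤ l ^ (2 * k + 3) := one_le_pow₀ (by linarith)
  have hM1 : l ^ (2 * k + 3) ≤ M := by rw [hMd]; exact Nat.le_ceil _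
  have hM2 : (M : ℝ) ≤ x := by
    have h1 := Nat.ceil_lt_add_one (show 0 ≤ l ^ (2 * k + 3) by positivity)
    rw [← hMd] at h1
    rw [hxe] at a10
    linarith
  have hM0 : 1 ≤ M := by
    have : (1 : ℝ) ≤ M := hlk1.trans hM1
    exact_mod_cast this
  obtain ⟨γ, hγ⟩ : ∃ γ : ℝ, γ = √(x : ℝ) + k * y + x / M + 1 := ⟨_, rfl⟩
  have hγ0 : 0 ≤ γ := by rw [hγ]; positivity
  have hγ1 : γ ≤ (k + 2) * √(x : ℝ) + x / l ^ (2 * k + 3) := by
    rw [hγ]
    have h1 : (k : ℝ) * y ≤ k * √(x : ℝ) := mul_le_mul_of_nonneg_left hy2 (Nat.cast_nonneg _)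
    have h2 : (x : ℝ) / M ≤ x / l ^ (2 * k + 3) := div_le_div_of_nonneg_left hx0.le (by positivity) hM1
    have h3 : 1 ≤ √(x : ℝ) := by
      rw [Real.one_le_sqrt]
      exact_mod_cast (by omega : 1 ≤ x)
    nlinarith
  have hγ2 : γ * (Vz z)⁻¹ ≤ x * PiT T y / w := by
    rw [← hQ, le_div_iff₀ hw0]
    have h1 : γ * (Vz z)⁻¹ * w ≤ γ * (C2 * l) * w := by gcongr
    refine h1.trans ?_
    have h2 : γ * (C2 * l) * w * (C1 * l ^ (2 * k)) ≤ x := by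
      have h3 : γ * (C2 * l) * w * (C1 * l ^ (2 * k)) = C1 * C2 * w * l ^ (2 * k + 1) * γ := by ring
      rw [h3]
      have h4 : C1 * C2 * w * l ^ (2 * k + 1) * γ ≤
          C1 * C2 * w * l ^ (2 * k + 1) * ((k + 2) * √(x : ℝ) + x / l ^ (2 * k + 3)) := by
        apply mul_le_mul_of_nonneg_left hγ1
        positivity
      refine h4.trans ?_
      have h5 : C1 * C2 * w * l ^ (2 * k + 1) * (x / l ^ (2 * k + 3)) ≤ x / 2 := by
        have e : C1 * C2 * w * l ^ (2 * k + 1) * (x / l ^ (2 * k + 3)) = C1 * C2 * w / l ^ 2 * x := by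
          have : l ^ (2 * k + 3) = l ^ (2 * k + 1) * l ^ 2 := by ring
          rw [this]
          field_simp
        rw [e]
        have h6 : C1 * C2 * w / l ^ 2 ≤ 1 / 2 := by
          rw [div_le_iff₀ (by positivity)]
          linarith
        nlinarith
      have h7 : C1 * C2 * w * l ^ (2 * k + 1) * ((k + 2) * √(x : ℝ)) ≤ x / 2 := by
        have e : C1 * C2 * w * l ^ (2 * k + 1) * ((k + 2) * √(x : ℝ)) =
            (C1 * C2 * w * ((k + 2) * l ^ (2 * k + 1))) * √(x : ℝ) := by ring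
        rw [e]
        have h8 := mul_le_mul_of_nonneg_right a7 hsq0.le
        rw [hss] at h8
        linarith
      linarith [h5, h7]
    have h9 : 0 ≤ γ * (C2 * l) * w := by positivity
    calc γ * (C2 * l) * w ≤ γ * (C2 * l) * w * (Q * (C1 * l ^ (2 * k))) := le_mul_of_one_le_right h9 hQ1
      _ = γ * (C2 * l) * w * (C1 * l ^ (2 * k)) * Q := by ring
      _ ≤ x * Q := mul_le_mul_of_nonneg_right h2 hPi.le
  have hVJ : 1200 * ((Vz z)⁻¹) ^ 2 * w ≤ 16 * Real.log J ^ 4 := by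
    have h1 : ((Vz z)⁻¹) ^ 2 ≤ (C2 * l) ^ 2 := pow_le_pow_left₀ (by positivity) hVz 2
    have h2 : (l / 2) ^ 4 ≤ Real.log J ^ 4 := pow_le_pow_left₀ (by positivity) hJ2 4
    have h3 : 1200 * ((Vz z)⁻¹) ^ 2 * w ≤ 1200 * (C2 * l) ^ 2 * w := by gcongr
    have h4 : 1200 * (C2 * l) ^ 2 * w = (1200 * C2 ^ 2 * w) * l ^ 2 := by ring
    have h5 : (1200 * C2 ^ 2 * w) * l ^ 2 ≤ l ^ 2 * l ^ 2 := by gcongr
    have h6 : (l / 2) ^ 4 = l ^ 2 * l ^ 2 / 16 := by ring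
    linarith
  obtain ⟨P, hP⟩ : ∃ P : Finset ℕ, P = (pz z).filter (fun p => w < p) := ⟨_, rfl⟩
  have hPm : ∀ p, p ∈ P ↔ p ∈ pz z ∧ w < p := fun p => by rw [hP, mem_filter]
  obtain ⟨W, hW⟩ : ∃ W : ℕ, W = ∏ q ∈ pz w, q := ⟨_, rfl⟩
  have hW1 : 1 ≤ W := by
    rw [hW]
    exact Nat.pos_of_ne_zero (prod_ne_zero_iff.2 fun q hq => (mem_pz.1 hq).2.ne_zero)
  obtain ⟨A', hA'⟩ : ∃ A', A' = A.filter (fun n : ℕ => Sf (pz w) (n + a)) := ⟨_, rfl⟩
  -- the second exceptional set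
  have hzJ : (z : ℝ) ≤ Real.log J ^ (B + 1) :=
    hz2.trans (a3.trans (pow_le_pow_left₀ (by positivity) hJ2 _))
  have hs2 := (hex2 x y z J M w hx0y hyK1 (by omega) hwk hw4 hwz hzy ((le_max_right _ _).trans hJN) hzJ hM0
    (by exact_mod_cast hM2) T hT hadm A' (by rw [hA']; exact (filter_subset _ _).trans hA)
    (by rw [hA']; exact fun n hn => hAT n (mem_filter.1 hn).1) γ hγ hγ2 hVJ a P hPm).1
  rw [← hQ] at hs2
  -- the first exceptional set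
  have hl2' := hl2 (2 * x) (by omega) z (by rw [← hL]; exact hz1) (by rw [← hL]; exact hz3) A
    (hA.trans (Icc_subset_Icc_right (by omega)))
  rw [← hL] at hl2'
  obtain ⟨n0, hn0⟩ := hAne
  have hs1 := ex1 (W := W) (J := J) (a := a) A hW1 _ hl2' (by
    intro t ht
    have h1 := hr n0 hn0 t ht
    have h2 := mem_Icc.1 (hA hn0)
    rw [← hW] at h1
    push_cast at h1 ⊢
    omega)
  have hxQ : 0 < x * Q := by positivity
  have hVw0 := Vz_pos w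
  have c1 := cheb (Icc 1 J) _ (η / 2 * (x * Q)) _ (by positivity) hs1
  have c2 := cheb (Icc 1 J) _ (η / 2 * Vz w * (x * Q)) _ (by positivity) hs2
  -- the union
  have hsub : (Icc 1 J).filter (fun t : ℕ => η * (x * PiT T y) <
        |∑ n ∈ A, Λ ((n : ℤ) + a + (∏ q ∈ pz w, q : ℕ) * t).toNat -
          (Vz w)⁻¹ * ((A.filter (fun n : ℕ => Sf (pz w) (n + a))).card : ℝ)|) ⊆
      (Icc 1 J).filter (fun t : ℕ => η / 2 * (x * Q) < |∑ n ∈ A, EX z (2 * x) (n + (a + W * t))|) ∪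
      (Icc 1 J).filter (fun t : ℕ => η / 2 * Vz w * (x * Q) < |(∏ p ∈ P, (1 - 1 / (p : ℝ)))⁻¹ *
          ((A'.filter (fun n : ℕ => Sf P (n + a + (∏ q ∈ pz w, q : ℕ) * t))).card : ℝ) - A'.card|) := by
    intro t ht
    rw [mem_filter] at ht
    obtain ⟨ht1, ht2⟩ := ht
    have h1 := split hwz hPm A a t (N := 2 * x) (fun n hn => by
      have := hr n hn t ht1
      push_cast at this ⊢
      exact this)
    rw [h1] at ht2
    rw [mem_union, mem_filter, mem_filter]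
    by_contra hcon
    push Not at hcon
    have h2 := hcon.1 ht1
    have h3 := hcon.2 ht1
    rw [← hQ, ← hA', ← hW] at ht2
    rw [← hW] at h3
    have h4 : |(Vz w)⁻¹ * ((∏ p ∈ P, (1 - 1 / (p : ℝ)))⁻¹ *
        ((A'.filter (fun n : ℕ => Sf P (n + a + W * t))).card : ℝ) - A'.card)| ≤ η / 2 * (x * Q) := by
      rw [abs_mul, abs_of_pos (inv_pos.2 hVw0)]
      calc (Vz w)⁻¹ * |(∏ p ∈ P, (1 - 1 / (p : ℝ)))⁻¹ *
          ((A'.filter (fun n : ℕ => Sf P (n + a + W * t))).card : ℝ) - A'.card| ≤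
          (Vz w)⁻¹ * (η / 2 * Vz w * (x * Q)) := mul_le_mul_of_nonneg_left h3 (inv_pos.2 hVw0).le
        _ = η / 2 * (x * Q) := by field_simp
    have h5 := abs_add_le (∑ n ∈ A, EX z (2 * x) (n + (a + W * t))) ((Vz w)⁻¹ * ((∏ p ∈ P, (1 - 1 / (p : ℝ)))⁻¹ *
        ((A'.filter (fun n : ℕ => Sf P (n + a + W * t))).card : ℝ) - A'.card))
    linarith
  have h6 : (((Icc 1 J).filter (fun t : ℕ => η * (x * PiT T y) <
        |∑ n ∈ A, Λ ((n : ℤ) + a + (∏ q ∈ pz w, q : ℕ) * t).toNat -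
          (Vz w)⁻¹ * ((A.filter (fun n : ℕ => Sf (pz w) (n + a))).card : ℝ)|)).card : ℝ) ≤ _ :=
    le_trans (by exact_mod_cast (card_le_card hsub).trans (card_union_le _ _)) (add_le_add c1 c2)
  refine h6.trans ?_
  have hJ0 : (0 : ℝ) < J := lt_of_lt_of_le hsq0 hJ1
  have d2 : (J : ℝ) * (166 * (x * Q) ^ 2 / w) / (η / 2 * Vz w * (x * Q)) ^ 2 ≤ η / 2 * J := by
    have e : (J : ℝ) * (166 * (x * Q) ^ 2 / w) / (η / 2 * Vz w * (x * Q)) ^ 2 =
        664 * ((Vz w)⁻¹) ^ 2 / (w * η ^ 2) * J := by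
      field_simp
      ring
    rw [e]
    apply mul_le_mul_of_nonneg_right _ hJ0.le
    rw [div_le_iff₀ (by positivity)]
    have h7 : ((Vz w)⁻¹) ^ 2 ≤ (C2 * Real.log w) ^ 2 :=
      pow_le_pow_left₀ (by positivity) (hM w (by omega)).2 2
    have h8 : η / 2 * (w * η ^ 2) = η ^ 3 * w / 2 := by ring
    rw [h8]
    linarith
  have d1 : (((2 * x : ℕ) : ℝ) / L ^ (2 * k + C + 1)) ^ 2 * A.card / (η / 2 * (x * Q)) ^ 2 ≤ η / 2 * J := by
    have hAc : (A.card : ℝ) ≤ x := by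
      have := card_le_card hA
      rw [Nat.card_Icc, Nat.add_sub_cancel] at this
      exact_mod_cast this
    have h7 : (((2 * x : ℕ) : ℝ) / L ^ (2 * k + C + 1)) ^ 2 ≤ (2 * x / l ^ (2 * k + C + 1)) ^ 2 := by
      push_cast
      gcongr
    rw [div_le_iff₀ (by positivity)]
    have h8 : (((2 * x : ℕ) : ℝ) / L ^ (2 * k + C + 1)) ^ 2 * A.card ≤ (2 * x / l ^ (2 * k + C + 1)) ^ 2 * x :=
      mul_le_mul h7 hAc (Nat.cast_nonneg _) (by positivity)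
    refine h8.trans ?_
    have h9 : (2 * x / l ^ (2 * k + C + 1)) ^ 2 * (x : ℝ) = 4 * x ^ 3 / l ^ (4 * k + 2 * C + 2) := by
      have : l ^ (4 * k + 2 * C + 2) = (l ^ (2 * k + C + 1)) ^ 2 := by ring
      rw [this]
      field_simp
      ring
    rw [h9, div_le_iff₀ (by positivity)]
    have h10 : 1 ≤ (Q * (C1 * l ^ (2 * k))) ^ 2 := one_le_pow₀ hQ1
    have h11 : 32 * C1 ^ 2 * (l ^ C) ≤ η ^ 3 * l ^ (2 * C + 2) := by
      have h12 : 32 * C1 ^ 2 * (l ^ C) ≤ η ^ 3 * l * l ^ C := mul_le_mul_of_nonneg_right a9 (by positivity)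
      have h13 : η ^ 3 * l * l ^ C = η ^ 3 * l ^ (C + 1) := by ring
      have h14 : l ^ (C + 1) ≤ l ^ (2 * C + 2) := pow_le_pow_right₀ (by linarith) (by omega)
      rw [h13] at h12
      exact h12.trans (mul_le_mul_of_nonneg_left h14 (by positivity))
    -- 4 x ^ 3 ≤ η ^ 3 / 8 * J * x ^ 2 Q ^ 2 l ^ (4 k + 2 C + 2)
    have h15 : 4 * (x : ℝ) ^ 3 ≤ 4 * x ^ 2 * (J * l ^ C) := by
      have : 4 * (x : ℝ) ^ 3 = 4 * x ^ 2 * x := by ring
      rw [this]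
      exact mul_le_mul_of_nonneg_left hJx (by positivity)
    have h16 : 4 * x ^ 2 * (J * l ^ C) ≤ 4 * x ^ 2 * (J * l ^ C) * (Q * (C1 * l ^ (2 * k))) ^ 2 :=
      le_mul_of_one_le_right (by positivity) h10
    have h17 : 4 * x ^ 2 * (J * l ^ C) * (Q * (C1 * l ^ (2 * k))) ^ 2 =
        x ^ 2 * J * Q ^ 2 * l ^ (4 * k) / 8 * (32 * C1 ^ 2 * l ^ C) := by
      have : l ^ (4 * k) = (l ^ (2 * k)) ^ 2 := by ring
      rw [this]
      ring
    have h18 : x ^ 2 * J * Q ^ 2 * l ^ (4 * k) / 8 * (32 * C1 ^ 2 * l ^ C) ≤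
        x ^ 2 * J * Q ^ 2 * l ^ (4 * k) / 8 * (η ^ 3 * l ^ (2 * C + 2)) :=
      mul_le_mul_of_nonneg_left h11 (by positivity)
    have h19 : (x : ℝ) ^ 2 * J * Q ^ 2 * l ^ (4 * k) / 8 * (η ^ 3 * l ^ (2 * C + 2)) =
        η / 2 * J * (η / 2 * (x * Q)) ^ 2 * l ^ (4 * k + 2 * C + 2) := by
      have : l ^ (4 * k + 2 * C + 2) = l ^ (4 * k) * l ^ (2 * C + 2) := by ring
      rw [this]
      ring
    linarith
  linarith

end Pool.Agent.K9h54.TF
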