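import Pool.Agent.K9h54.TF.Fin1

set_option autoImplicit false

/-!
# One more prime: arbitrary sets of prime tuples, general progressions
-/

namespace Pool.Agent.K9h54.TF

open Finset Filter
open Pool.Agent.H387R2.Uni (nuT locT CT CT_hasProd CT_nonneg)
open Pool.Agent.H373R2.T7 (pz mem_pz Vz Vz_pos)
open Pool.Agent.K9h54.MP (pow_le_exp)

/-- an arbitrary set of prime tuples: the shifts in a progression -/
theorem fin0 (k : ℕ) (hk : 1 ≤ k) : ∃ C5 : ℝ, 1 ≤ C5 ∧ ∀ ε : ℝ, 0 < ε → ∀ w0 : ℕ, ∃ w : ℕ, w0 ≤ w ∧ 4 ≤ w ∧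
    ∀ C : ℕ, ∃ x1 : ℕ, ∀ x : ℕ, x1 ≤ x → ∀ T : Finset ℕ, T.card = k → (∀ p, p.Prime → nuT T p < p) →
    ∀ A ⊆ Icc 1 x, (∀ n ∈ A, ∀ h ∈ T, (n - h).Prime) →
      ((A.card : ℝ) ≤ C5 * (CT T * (x / Real.log x ^ k)) ∧ 0 < CT T) ∧
      ∀ (a : ℤ) (J : ℕ), (x : ℝ) ≤ J * Real.log x ^ C →
      (∀ n ∈ A, ∀ t ∈ Icc 1 J, 1 ≤ (n : ℤ) + a + (∏ q ∈ pz w, q : ℕ) * t ∧
        (n : ℤ) + a + (∏ q ∈ pz w, q : ℕ) * t ≤ 2 * x) →
      ∃ Ex ⊆ Icc 1 J, (Ex.card : ℝ) ≤ ε * J ∧ ∀ t ∈ Icc 1 J, t ∉ Ex → ∀ B ⊆ A,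
        (∀ n, n ∈ B ↔ n ∈ A ∧ IsP ((n : ℤ) + a + (∏ q ∈ pz w, q : ℕ) * t)) →
        |Real.log x * B.card - (Vz w)⁻¹ * ((A.filter (fun n : ℕ => Sf (pz w) (n + a))).card : ℝ)| ≤
          ε * (CT T * (x / Real.log x ^ k)) := by
  classical
  obtain ⟨K0, hK0, hprim⟩ := prim k hk
  obtain ⟨K3, x3, hK3, hsv⟩ := sieve k hk
  obtain ⟨C1, hC1, hlow⟩ := PiT_low k
  obtain ⟨C2, hC2, hM⟩ := mert
  obtain ⟨K, hKd⟩ : ∃ K, K = max K0 K3 := ⟨_, rfl⟩
  have hK0K : K0 ≤ K := by rw [hKd]; exact le_max_left _ _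
  have hK3K : K3 ≤ K := by rw [hKd]; exact le_max_right _ _
  have hK2 : 2 ≤ K := hK0.trans hK0K
  have hKr : (2 : ℝ) ≤ K := by exact_mod_cast hK2
  obtain ⟨C5, hC5⟩ : ∃ C5 : ℝ, C5 = 2 * (2 * K * C2) ^ k := ⟨_, rfl⟩
  have hC5' : 1 ≤ C5 := by
    have : 1 ≤ (2 * K * C2) ^ k := one_le_pow₀ (by nlinarith)
    rw [hC5]
    linarith
  refine ⟨3 * C5, by linarith, fun ε hε w0 => ?_⟩
  obtain ⟨η, hη⟩ : ∃ η : ℝ, η = min ε 1 / (4 * C5) := ⟨_, rfl⟩
  have hm0 : 0 < min ε 1 := lt_min hε one_pos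
  have hη0 : 0 < η := by rw [hη]; positivity
  have hηC : η * (4 * C5) = min ε 1 := by rw [hη]; field_simp
  have hηε : 4 * η ≤ ε := by
    have h1 : min ε 1 ≤ ε := min_le_left _ _
    nlinarith
  obtain ⟨w, hw0, hw4, hprim⟩ := hprim K hK0K η hη0 w0
  refine ⟨w, hw0, hw4, fun C => ?_⟩
  obtain ⟨x1, hprim⟩ := hprim C
  obtain ⟨W, hW⟩ : ∃ W : ℕ, W = ∏ q ∈ pz w, q := ⟨_, rfl⟩
  rw [← hW] at hprim ⊢
  have hW1 : 1 ≤ W := by
    rw [hW]
    exact Nat.pos_of_ne_zero (prod_ne_zero_iff.2 fun q hq => (mem_pz.1 hq).2.ne_zero)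
  obtain ⟨m, hm⟩ : ∃ m : ℕ, m = x3 + 2 * k ^ 2 + k + 4 := ⟨_, rfl⟩
  obtain ⟨X, hX⟩ := evlog (big3 k K C W m C1 (Vz w)⁻¹ η hη0)
  refine ⟨max (max x1 X) 3, fun x hx T hT hadm A hA hAT => ?_⟩
  have hx3' : 3 ≤ x := (le_max_right _ _).trans hx
  have hx0 : (0 : ℝ) < x := by exact_mod_cast (by omega : 0 < x)
  have hb := hX x ((le_max_right _ _).trans ((le_max_left _ _).trans hx))
  have hprim := hprim x ((le_max_left _ _).trans ((le_max_left _ _).trans hx))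
  obtain ⟨l, hl⟩ : ∃ l, l = Real.log x := ⟨_, rfl⟩
  rw [← hl] at hb hprim ⊢
  obtain ⟨l1, c1, c2, c3, c4, c5, c6, c7⟩ := hb
  have hxe : Real.exp l = x := by rw [hl, Real.exp_log hx0]
  have hl0 : 0 < l := by linarith
  have hsq : √(x : ℝ) = Real.exp (l / 2) := by
    rw [← hxe, Real.sqrt_eq_rpow, ← Real.exp_mul]
    congr 1
    ring
  have hss : √(x : ℝ) * √(x : ℝ) = x := Real.mul_self_sqrt hx0.le
  have hsq0 : 0 < √(x : ℝ) := Real.sqrt_pos.2 hx0
  rw [← hsq] at c3 c4 c5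
  -- the sieving limit
  obtain ⟨y, hyx, hxy⟩ : ∃ y : ℕ, y ^ K ≤ x ∧ x < (y + 1) ^ K := by
    have hex : ∃ n : ℕ, x < (n + 1) ^ K := ⟨x, by
      calc x < x + 1 := by omega
        _ = (x + 1) ^ 1 := (pow_one _).symm
        _ ≤ (x + 1) ^ K := Nat.pow_le_pow_right (by omega) (by omega)⟩
    refine ⟨Nat.find hex, ?_, Nat.find_spec hex⟩
    rcases Nat.eq_zero_or_pos (Nat.find hex) with h | h
    · rw [h, zero_pow (by omega)]
      omega
    · have h3 : Nat.find hex - 1 < Nat.find hex := by omega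
      have := Nat.find_min hex h3
      have e : Nat.find hex - 1 + 1 = Nat.find hex := by omega
      rw [not_lt, e] at this
      exact this
  have hy1 : Real.exp (l / K) < y + 1 := by
    have h1 : (x : ℝ) < ((y : ℝ) + 1) ^ K := by exact_mod_cast hxy
    have h2 : Real.exp (l / K) ^ K = x := by
      rw [← Real.exp_nat_mul, ← hxe]
      congr 1
      field_simp
    rw [← h2] at h1
    exact lt_of_pow_lt_pow_left₀ K (by positivity) h1
  have hs2K : (m : ℝ) + 2 ≤ l / (2 * K) := by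
    rw [le_div_iff₀ (by positivity)]
    linarith
  have hy2 : Real.exp (l / (2 * K)) ≤ y := by
    have h1 : Real.exp (l / K) = Real.exp (l / (2 * K)) * Real.exp (l / (2 * K)) := by
      rw [← Real.exp_add]
      congr 1
      field_simp
      ring
    have h2 : (2 : ℝ) ≤ Real.exp (l / (2 * K)) := by
      have h3 := Real.add_one_le_exp (l / (2 * K))
      have h4 : (0 : ℝ) ≤ m := Nat.cast_nonneg _
      linarith
    rw [h1] at hy1
    nlinarith
  have hym : m + 2 ≤ y := by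
    have h3 := Real.add_one_le_exp (l / (2 * K))
    have : ((m + 2 : ℕ) : ℝ) ≤ y := by
      push_cast
      linarith
    exact_mod_cast this
  have hylog : l / (2 * K) ≤ Real.log y := by
    rw [Real.le_log_iff_exp_le (by exact_mod_cast (by omega : 0 < y))]
    exact hy2
  have hyl : Real.log y ≤ l := by
    rw [hl]
    apply Real.log_le_log (by exact_mod_cast (by omega : 0 < y))
    have h4 : y ≤ x := by
      calc y = y ^ 1 := (pow_one y).symm
        _ ≤ y ^ K := Nat.pow_le_pow_right (by omega) (by omega)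
        _ ≤ x := hyx
    exact_mod_cast h4
  have hyK3 : y ^ K3 ≤ x := (Nat.pow_le_pow_right (by omega) hK3K).trans hyx
  have hysq : (y : ℝ) ≤ √(x : ℝ) := by
    apply Real.le_sqrt_of_sq_le
    have : y ^ 2 ≤ x := (Nat.pow_le_pow_right (by omega) hK2).trans hyx
    exact_mod_cast this
  obtain ⟨hPi, hPi1⟩ := hlow y (by omega) T hT.le hadm
  obtain ⟨Q, hQ⟩ : ∃ Q, Q = PiT T y := ⟨_, rfl⟩
  have hQl : Q⁻¹ ≤ C1 * l ^ (2 * k) := by
    rw [hQ]
    refine hPi1.trans ?_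
    have h5 : 0 ≤ Real.log y := Real.log_natCast_nonneg _
    gcongr
  have hPe : ∏ p ∈ (pz y).filter (fun p => ¬ p ∣ 1), (1 - (nuT T p : ℝ) / p) = Q := by
    rw [hQ]
    unfold PiT
    apply prod_congr _ (fun _ _ => rfl)
    rw [filter_true_of_mem]
    intro p hp h1
    exact (mem_pz.1 hp).2.one_lt.ne' (Nat.dvd_one.1 h1)
  have hCT := PiT_le (y := y) hT hadm (by omega)
  rw [← hQ] at hPi hCT
  have hQ1 : 1 ≤ Q * (C1 * l ^ (2 * k)) := by
    rw [inv_le_iff_one_le_mul₀ hPi] at hQl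
    linarith [mul_comm Q (C1 * l ^ (2 * k))]
  have hxQ : 0 < x * Q := by positivity
  have hCT0 : 0 < CT T := by
    by_contra h
    have h1 : CT T = 0 := le_antisymm (not_lt.1 h) (CT_nonneg T)
    rw [h1] at hCT
    linarith
  -- comparison with the Hardy-Littlewood constant
  have hxC : x * Q ≤ C5 * (CT T * (x / l ^ k)) := by
    have h1 : Vz y ≤ 2 * K * C2 / l := by
      refine (hM y (by omega)).1.trans ?_
      rw [div_le_div_iff₀ (lt_of_lt_of_le (by positivity) hylog) hl0]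
      have h2 : l ≤ 2 * K * Real.log y := by
        rw [div_le_iff₀ (by positivity)] at hylog
        linarith
      nlinarith
    have h2 : Vz y ^ k ≤ (2 * K * C2 / l) ^ k := pow_le_pow_left₀ (Vz_pos y).le h1 k
    calc x * Q ≤ x * (2 * CT T * Vz y ^ k) := mul_le_mul_of_nonneg_left hCT hx0.le
      _ ≤ x * (2 * CT T * (2 * K * C2 / l) ^ k) := by gcongr
      _ = C5 * (CT T * (x / l ^ k)) := by
          rw [hC5, div_pow]
          ring
  obtain ⟨M, hMd⟩ : ∃ M, M = CT T * (x / l ^ k) := ⟨_, rfl⟩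
  rw [← hMd] at hxC ⊢
  have hM0 : 0 < M := by rw [hMd]; positivity
  -- the square root is small
  have hR2 : 4 * (k + 1 : ℝ) * l * √(x : ℝ) ≤ η * (x * Q) := by
    have h1 : 4 * (k + 1 : ℝ) * l * √(x : ℝ) ≤ 4 * (k + 1 : ℝ) * l * √(x : ℝ) * (Q * (C1 * l ^ (2 * k))) :=
      le_mul_of_one_le_right (by positivity) hQ1
    have h2 : 4 * (k + 1 : ℝ) * l * √(x : ℝ) * (Q * (C1 * l ^ (2 * k))) =
        (4 * (k + 1) * C1 * l ^ (2 * k + 1)) * √(x : ℝ) * Q := by ring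
    have h3 : (4 * (k + 1) * C1 * l ^ (2 * k + 1)) * √(x : ℝ) * Q ≤ (η * √(x : ℝ)) * √(x : ℝ) * Q := by gcongr
    have h4 : (η * √(x : ℝ)) * √(x : ℝ) * Q = η * (√(x : ℝ) * √(x : ℝ) * Q) := by ring
    rw [h4, hss] at h3
    linarith
  have hky : √(x : ℝ) + k * y ≤ (k + 1) * √(x : ℝ) := by
    have : (k : ℝ) * y ≤ k * √(x : ℝ) := mul_le_mul_of_nonneg_left hysq (Nat.cast_nonneg _)
    linarith
  have hAT' : ∀ n ∈ A, ∀ h ∈ T, IsP ((n : ℤ) - h) := by
    intro n hn h hh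
    have h1 := hAT n hn h hh
    unfold IsP
    have h2 : ((n : ℤ) - h).toNat = n - h := by
      have := h1.pos
      omega
    rw [h2]
    exact h1
  -- the small elements
  have hshort : ∀ j : ℕ, ((A.filter (fun n : ℕ => n ≤ j)).card : ℝ) ≤ 2 * (j * Q) + (k + 1) * √(x : ℝ) := by
    intro j
    have h1 := hsv x y (by omega) hyK3 T hT.le 0 1 j
    rw [hPe] at h1
    have h2 : (A.filter (fun n : ℕ => n ≤ j)).card ≤
        ((Icc 1 j).filter (fun i : ℕ => ∀ h ∈ T, IsP (0 + (1 : ℕ) * (i : ℤ) - h))).card := by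
      apply card_le_card
      intro n hn
      rw [mem_filter] at hn
      rw [mem_filter, mem_Icc]
      refine ⟨⟨(mem_Icc.1 (hA hn.1)).1, hn.2⟩, fun h hh => ?_⟩
      have := hAT' n hn.1 h hh
      convert this using 1
      push_cast
      ring
    have h3 : ((A.filter (fun n : ℕ => n ≤ j)).card : ℝ) ≤
        (((Icc 1 j).filter (fun i : ℕ => ∀ h ∈ T, IsP (0 + (1 : ℕ) * (i : ℤ) - h))).card : ℝ) := by
      exact_mod_cast h2
    linarith
  have hη1 : η ≤ 1 := by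
    have : min ε 1 ≤ 1 := min_le_right _ _
    nlinarith
  refine ⟨⟨?_, hCT0⟩, ?_⟩
  · have h1 := hshort x
    have h2 : A.filter (fun n : ℕ => n ≤ x) = A := by
      rw [filter_true_of_mem]
      intro n hn
      exact (mem_Icc.1 (hA hn)).2
    rw [h2] at h1
    have h3 : (k + 1 : ℝ) * √(x : ℝ) ≤ x * Q := by
      have h4 : (k + 1 : ℝ) * √(x : ℝ) ≤ 4 * (k + 1 : ℝ) * l * √(x : ℝ) := by
        have : (0 : ℝ) ≤ (k + 1) * √(x : ℝ) := by positivity
        nlinarith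
      have h5 : η * (x * Q) ≤ 1 * (x * Q) := mul_le_mul_of_nonneg_right hη1 hxQ.le
      linarith
    linarith
  · intro a J hJx hr
    obtain ⟨Ex, hExJ, hExc, hEx⟩ := hprim y hyx hxy T hT.le hadm A hA hAT' a J hJx hr
    rw [← hQ] at hEx
    have hJ0 : (0 : ℝ) ≤ J := Nat.cast_nonneg _
    refine ⟨Ex, hExJ, hExc.trans (mul_le_mul_of_nonneg_right (by linarith) hJ0), fun t ht htE B hBA hB => ?_⟩
    have h4 := hEx t ht htE B hBA hB
    refine h4.trans ?_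
    have h8 : η * (x * Q) ≤ η * (C5 * M) := mul_le_mul_of_nonneg_left hxC (by positivity)
    have h9 : η * C5 ≤ ε := by
      have : min ε 1 ≤ ε := min_le_left _ _
      nlinarith
    nlinarith

end Pool.Agent.K9h54.TF
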