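import Pool.Agent.K9h54.TF.Par

set_option autoImplicit false

/-!
# One more prime: arbitrary sets of prime tuples
-/

namespace Pool.Agent.K9h54.TF

open Finset Filter
open Pool.Agent.H387R2.Uni (nuT locT CT CT_hasProd CT_nonneg)
open Pool.Agent.H373R2.T7 (pz mem_pz Vz Vz_pos)
open Pool.Agent.K9h54.MP (pow_le_exp)

/-- the conditions on `l = log x` -/
structure Big3 (k K C W m : ℕ) (C1 V η l : ℝ) : Prop where
  l1 : 4 ≤ l
  c1 : V ≤ l
  c2 : 8 ≤ η * l
  c3 : 4 * (k + 1) * C1 * l ^ (2 * k + 1) ≤ η * Real.exp (l / 2)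
  c4 : l ^ C ≤ Real.exp (l / 2)
  c5 : (2 * W : ℝ) ≤ Real.exp (l / 2)
  c6 : (2 * W : ℝ) ≤ l
  c7 : 2 * K * (m + 2) ≤ l

theorem big3 (k K C W m : ℕ) (C1 V η : ℝ) (hη : 0 < η) : ∀ᶠ l : ℝ in atTop, Big3 k K C W m C1 V η l := by
  filter_upwards [eventually_ge_atTop (4 : ℝ), eventually_ge_atTop V, eventually_ge_atTop (8 / η),
    pow_le_exp (4 * (k + 1) * C1 / η) (1 / 2) (2 * k + 1) (by norm_num), pow_le_exp 1 (1 / 2) C (by norm_num),
    pow_le_exp (2 * W) (1 / 2) 0 (by norm_num), eventually_ge_atTop (2 * W : ℝ),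
    eventually_ge_atTop (2 * K * (m + 2) : ℝ)] with l h1 h2 h3 h4 h5 h6 h7 h8
  have e1 : (1 / 2 : ℝ) * l = l / 2 := by ring
  rw [e1] at h4 h5 h6
  refine ⟨h1, h2, ?_, ?_, by linarith, by simpa using h6, h7, h8⟩
  · rw [div_le_iff₀ hη] at h3
    linarith
  · have h9 := mul_le_mul_of_nonneg_left h4 hη.le
    refine le_trans (le_of_eq ?_) h9
    field_simp

/-- coprimality to the product of the small primes -/
theorem cop_iff (w m : ℕ) : Nat.Coprime m (∏ q ∈ pz w, q) ↔ ∀ p ∈ pz w, ¬ p ∣ m := by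
  rw [Nat.coprime_prod_right_iff]
  constructor
  · intro h p hp h1
    have := h p hp
    rw [Nat.coprime_comm, (mem_pz.1 hp).2.coprime_iff_not_dvd] at this
    exact this h1
  · intro h p hp
    rw [Nat.coprime_comm, (mem_pz.1 hp).2.coprime_iff_not_dvd]
    exact h p hp

theorem last {l x Q V η CTx Bc B0 f1 Sc S0 f2 few kk R : ℝ} (hl : 4 ≤ l) (hx : 0 < x) (hQ : 0 < Q) (hV0 : 0 ≤ V)
    (hV : V ≤ l) (hη : 0 < η) (h8 : 8 ≤ η * l) (hB : Bc = B0 + f1) (hf1 : 0 ≤ f1) (hf1' : f1 ≤ few)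
    (hS : Sc = S0 + f2) (hf2 : 0 ≤ f2) (hf2' : f2 ≤ few) (hfew : few ≤ 2 * (x * Q) / l ^ 2 + kk * R)
    (hR : 4 * kk * l * R ≤ η * (x * Q)) (hmain : |l * B0 - V * S0| ≤ η * (x * Q)) (hkk : 0 ≤ kk) (hR0 : 0 ≤ R) :
    |l * Bc - V * Sc| ≤ 2 * η * (x * Q) := by
  have hl0 : 0 < l := by linarith
  have hxQ : 0 < x * Q := by positivity
  have h1 : l * few ≤ η / 4 * (x * Q) + kk * l * R := by
    have h3 : l * few ≤ l * (2 * (x * Q) / l ^ 2 + kk * R) := mul_le_mul_of_nonneg_left hfew hl0.le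
    have h4 : l * (2 * (x * Q) / l ^ 2 + kk * R) = 2 / l * (x * Q) + kk * l * R := by field_simp
    have h5 : 2 / l ≤ η / 4 := by
      rw [div_le_iff₀ hl0]
      linarith
    have h6 := mul_le_mul_of_nonneg_right h5 hxQ.le
    linarith
  have h2 : l * few ≤ η / 2 * (x * Q) := by linarith
  have h3 : l * f1 ≤ l * few := mul_le_mul_of_nonneg_left hf1' hl0.le
  have h4 : V * f2 ≤ l * few := mul_le_mul hV hf2' hf2 hl0.le
  have h5 : 0 ≤ l * f1 := by positivity
  have h6 : 0 ≤ V * f2 := by positivity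
  have h7 := abs_le.1 hmain
  rw [hB, hS, abs_le]
  constructor <;> nlinarith

/-- an arbitrary set of prime tuples: all classes modulo `W` -/
theorem fin1 (k : ℕ) (hk : 1 ≤ k) : ∃ C5 : ℝ, 1 ≤ C5 ∧ ∀ ε : ℝ, 0 < ε → ∀ w0 : ℕ, ∃ w : ℕ, w0 ≤ w ∧ 4 ≤ w ∧
    ∀ C : ℕ, ∃ x1 : ℕ, ∀ x : ℕ, x1 ≤ x → ∀ T : Finset ℕ, T.card = k → (∀ p, p.Prime → nuT T p < p) →
    ∀ A ⊆ Icc 1 x, (∀ n ∈ A, ∀ h ∈ T, (n - h).Prime) → 
      ((A.card : ℝ) ≤ C5 * (CT T * (x / Real.log x ^ k)) ∧
        ((A.filter (fun n : ℕ => n ≤ ⌊(x : ℝ) / Real.log x ^ 2⌋₊)).card : ℝ) * Real.log x ≤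
          ε * (CT T * (x / Real.log x ^ k)) ∧ 0 < CT T) ∧
      ∀ u H b : ℕ, (x : ℝ) ≤ H * Real.log x ^ C → ((u + H : ℕ) : ℝ) * Real.log x ^ 2 ≤ x →
      (((Ioc u (u + H)).filter (fun d : ℕ => d % (∏ q ∈ pz w, q) = b % (∏ q ∈ pz w, q) ∧
        ε * (CT T * (x / Real.log x ^ k)) < |Real.log x * ((A.filter (fun n : ℕ => (n - d).Prime)).card : ℝ) -
          (Vz w)⁻¹ * ((A.filter (fun n : ℕ => (n - d).Coprime (∏ q ∈ pz w, q))).card : ℝ)|)).card : ℝ) ≤
        ε * (H / (∏ q ∈ pz w, q : ℕ)) := by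
  classical
  obtain ⟨K0, hK0, hprim⟩ := prim k hk
  obtain ⟨K3, x3, hK3, hsv⟩ := sieve k hk
  obtain ⟨C1, hC1, hlow⟩ := PiT_low k
  obtain ⟨C2, hC2, hM⟩ := mert
  obtain ⟨K, hKd⟩ : ∃ K, K = max K0 K3 := ⟨_, rfl⟩
  have hK0K : K0 ≤ K := by rw [hKd]; exact le_max_left _ _
  have hK3K : K3 ≤ K := by rw [hKd]; exact le_max_right _ _
  have hK2 : 2 ≤ K := hK0.trans hK0K
  have hKr : (2 : ℝ) ≤ K := by exact_mod_cast hK2
  obtain ⟨C5, hC5⟩ : ∃ C5 : ℝ, C5 = 2 * (2 * K * C2) ^ k := ⟨_, rfl⟩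
  have hC5' : 1 ≤ C5 := by
    have : 1 ≤ (2 * K * C2) ^ k := one_le_pow₀ (by nlinarith)
    rw [hC5]
    linarith
  refine ⟨3 * C5, by linarith, fun ε hε w0 => ?_⟩
  obtain ⟨η, hη⟩ : ∃ η : ℝ, η = min ε 1 / (4 * C5) := ⟨_, rfl⟩
  have hm0 : 0 < min ε 1 := lt_min hε one_pos
  have hη0 : 0 < η := by rw [hη]; positivity
  have hηC : η * (4 * C5) = min ε 1 := by rw [hη]; field_simp
  have hηε : 4 * η ≤ ε := by
    have h1 : min ε 1 ≤ ε := min_le_left _ _
    nlinarith
  obtain ⟨w, hw0, hw4, hprim⟩ := hprim K hK0K η hη0 w0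
  refine ⟨w, hw0, hw4, fun C => ?_⟩
  obtain ⟨x1, hprim⟩ := hprim (C + 1)
  obtain ⟨W, hW⟩ : ∃ W : ℕ, W = ∏ q ∈ pz w, q := ⟨_, rfl⟩
  rw [← hW] at hprim ⊢
  have hW1 : 1 ≤ W := by
    rw [hW]
    exact Nat.pos_of_ne_zero (prod_ne_zero_iff.2 fun q hq => (mem_pz.1 hq).2.ne_zero)
  obtain ⟨m, hm⟩ : ∃ m : ℕ, m = x3 + 2 * k ^ 2 + k + 4 := ⟨_, rfl⟩
  obtain ⟨X, hX⟩ := evlog (big3 k K C W m C1 (Vz w)⁻¹ η hη0)
  refine ⟨max (max x1 X) 3, fun x hx T hT hadm A hA hAT => ?_⟩
  have hx3' : 3 ≤ x := (le_max_right _ _).trans hx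
  have hx0 : (0 : ℝ) < x := by exact_mod_cast (by omega : 0 < x)
  have hb := hX x ((le_max_right _ _).trans ((le_max_left _ _).trans hx))
  have hprim := hprim x ((le_max_left _ _).trans ((le_max_left _ _).trans hx))
  obtain ⟨l, hl⟩ : ∃ l, l = Real.log x := ⟨_, rfl⟩
  rw [← hl] at hb hprim ⊢
  obtain ⟨l1, c1, c2, c3, c4, c5, c6, c7⟩ := hb
  have hxe : Real.exp l = x := by rw [hl, Real.exp_log hx0]
  have hl0 : 0 < l := by linarith
  have hsq : √(x : ℝ) = Real.exp (l / 2) := by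
    rw [← hxe, Real.sqrt_eq_rpow, ← Real.exp_mul]
    congr 1
    ring
  have hss : √(x : ℝ) * √(x : ℝ) = x := Real.mul_self_sqrt hx0.le
  have hsq0 : 0 < √(x : ℝ) := Real.sqrt_pos.2 hx0
  rw [← hsq] at c3 c4 c5
  -- the sieving limit
  obtain ⟨y, hyx, hxy⟩ : ∃ y : ℕ, y ^ K ≤ x ∧ x < (y + 1) ^ K := by
    have hex : ∃ n : ℕ, x < (n + 1) ^ K := ⟨x, by
      calc x < x + 1 := by omega
        _ = (x + 1) ^ 1 := (pow_one _).symm
        _ ≤ (x + 1) ^ K := Nat.pow_le_pow_right (by omega) (by omega)⟩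
    refine ⟨Nat.find hex, ?_, Nat.find_spec hex⟩
    rcases Nat.eq_zero_or_pos (Nat.find hex) with h | h
    · rw [h, zero_pow (by omega)]
      omega
    · have h3 : Nat.find hex - 1 < Nat.find hex := by omega
      have := Nat.find_min hex h3
      have e : Nat.find hex - 1 + 1 = Nat.find hex := by omega
      rw [not_lt, e] at this
      exact this
  have hy1 : Real.exp (l / K) < y + 1 := by
    have h1 : (x : ℝ) < ((y : ℝ) + 1) ^ K := by exact_mod_cast hxy
    have h2 : Real.exp (l / K) ^ K = x := by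
      rw [← Real.exp_nat_mul, ← hxe]
      congr 1
      field_simp
    rw [← h2] at h1
    exact lt_of_pow_lt_pow_left₀ K (by positivity) h1
  have hs2K : (m : ℝ) + 2 ≤ l / (2 * K) := by
    rw [le_div_iff₀ (by positivity)]
    linarith
  have hy2 : Real.exp (l / (2 * K)) ≤ y := by
    have h1 : Real.exp (l / K) = Real.exp (l / (2 * K)) * Real.exp (l / (2 * K)) := by
      rw [← Real.exp_add]
      congr 1
      field_simp
      ring
    have h2 : (2 : ℝ) ≤ Real.exp (l / (2 * K)) := by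
      have h3 := Real.add_one_le_exp (l / (2 * K))
      have h4 : (0 : ℝ) ≤ m := Nat.cast_nonneg _
      linarith
    rw [h1] at hy1
    nlinarith
  have hym : m + 2 ≤ y := by
    have h3 := Real.add_one_le_exp (l / (2 * K))
    have : ((m + 2 : ℕ) : ℝ) ≤ y := by
      push_cast
      linarith
    exact_mod_cast this
  have hylog : l / (2 * K) ≤ Real.log y := by
    rw [Real.le_log_iff_exp_le (by exact_mod_cast (by omega : 0 < y))]
    exact hy2
  have hyl : Real.log y ≤ l := by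
    rw [hl]
    apply Real.log_le_log (by exact_mod_cast (by omega : 0 < y))
    have h4 : y ≤ x := by
      calc y = y ^ 1 := (pow_one y).symm
        _ ≤ y ^ K := Nat.pow_le_pow_right (by omega) (by omega)
        _ ≤ x := hyx
    exact_mod_cast h4
  have hyK3 : y ^ K3 ≤ x := (Nat.pow_le_pow_right (by omega) hK3K).trans hyx
  have hysq : (y : ℝ) ≤ √(x : ℝ) := by
    apply Real.le_sqrt_of_sq_le
    have : y ^ 2 ≤ x := (Nat.pow_le_pow_right (by omega) hK2).trans hyx
    exact_mod_cast this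
  obtain ⟨hPi, hPi1⟩ := hlow y (by omega) T hT.le hadm
  obtain ⟨Q, hQ⟩ : ∃ Q, Q = PiT T y := ⟨_, rfl⟩
  have hQl : Q⁻¹ ≤ C1 * l ^ (2 * k) := by
    rw [hQ]
    refine hPi1.trans ?_
    have h5 : 0 ≤ Real.log y := Real.log_natCast_nonneg _
    gcongr
  have hPe : ∏ p ∈ (pz y).filter (fun p => ¬ p ∣ 1), (1 - (nuT T p : ℝ) / p) = Q := by
    rw [hQ]
    unfold PiT
    apply prod_congr _ (fun _ _ => rfl)
    rw [filter_true_of_mem]
    intro p hp h1
    exact (mem_pz.1 hp).2.one_lt.ne' (Nat.dvd_one.1 h1)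
  have hCT := PiT_le (y := y) hT hadm (by omega)
  rw [← hQ] at hPi hCT
  have hQ1 : 1 ≤ Q * (C1 * l ^ (2 * k)) := by
    rw [inv_le_iff_one_le_mul₀ hPi] at hQl
    linarith [mul_comm Q (C1 * l ^ (2 * k))]
  have hxQ : 0 < x * Q := by positivity
  have hCT0 : 0 < CT T := by
    by_contra h
    have h1 : CT T = 0 := le_antisymm (not_lt.1 h) (CT_nonneg T)
    rw [h1] at hCT
    linarith
  -- comparison with the Hardy-Littlewood constant
  have hxC : x * Q ≤ C5 * (CT T * (x / l ^ k)) := by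
    have h1 : Vz y ≤ 2 * K * C2 / l := by
      refine (hM y (by omega)).1.trans ?_
      rw [div_le_div_iff₀ (lt_of_lt_of_le (by positivity) hylog) hl0]
      have h2 : l ≤ 2 * K * Real.log y := by
        rw [div_le_iff₀ (by positivity)] at hylog
        linarith
      nlinarith
    have h2 : Vz y ^ k ≤ (2 * K * C2 / l) ^ k := pow_le_pow_left₀ (Vz_pos y).le h1 k
    calc x * Q ≤ x * (2 * CT T * Vz y ^ k) := mul_le_mul_of_nonneg_left hCT hx0.le
      _ ≤ x * (2 * CT T * (2 * K * C2 / l) ^ k) := by gcongr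
      _ = C5 * (CT T * (x / l ^ k)) := by
          rw [hC5, div_pow]
          ring
  obtain ⟨M, hMd⟩ : ∃ M, M = CT T * (x / l ^ k) := ⟨_, rfl⟩
  rw [← hMd] at hxC ⊢
  have hM0 : 0 < M := by rw [hMd]; positivity
  -- the square root is small
  have hR2 : 4 * (k + 1 : ℝ) * l * √(x : ℝ) ≤ η * (x * Q) := by
    have h1 : 4 * (k + 1 : ℝ) * l * √(x : ℝ) ≤ 4 * (k + 1 : ℝ) * l * √(x : ℝ) * (Q * (C1 * l ^ (2 * k))) :=
      le_mul_of_one_le_right (by positivity) hQ1
    have h2 : 4 * (k + 1 : ℝ) * l * √(x : ℝ) * (Q * (C1 * l ^ (2 * k))) =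
        (4 * (k + 1) * C1 * l ^ (2 * k + 1)) * √(x : ℝ) * Q := by ring
    have h3 : (4 * (k + 1) * C1 * l ^ (2 * k + 1)) * √(x : ℝ) * Q ≤ (η * √(x : ℝ)) * √(x : ℝ) * Q := by gcongr
    have h4 : (η * √(x : ℝ)) * √(x : ℝ) * Q = η * (√(x : ℝ) * √(x : ℝ) * Q) := by ring
    rw [h4, hss] at h3
    linarith
  have hky : √(x : ℝ) + k * y ≤ (k + 1) * √(x : ℝ) := by
    have : (k : ℝ) * y ≤ k * √(x : ℝ) := mul_le_mul_of_nonneg_left hysq (Nat.cast_nonneg _)
    linarith
  have hAT' : ∀ n ∈ A, ∀ h ∈ T, IsP ((n : ℤ) - h) := by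
    intro n hn h hh
    have h1 := hAT n hn h hh
    unfold IsP
    have h2 : ((n : ℤ) - h).toNat = n - h := by
      have := h1.pos
      omega
    rw [h2]
    exact h1
  -- the small elements
  have hshort : ∀ j : ℕ, ((A.filter (fun n : ℕ => n ≤ j)).card : ℝ) ≤ 2 * (j * Q) + (k + 1) * √(x : ℝ) := by
    intro j
    have h1 := hsv x y (by omega) hyK3 T hT.le 0 1 j
    rw [hPe] at h1
    have h2 : (A.filter (fun n : ℕ => n ≤ j)).card ≤
        ((Icc 1 j).filter (fun i : ℕ => ∀ h ∈ T, IsP (0 + (1 : ℕ) * (i : ℤ) - h))).card := by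
      apply card_le_card
      intro n hn
      rw [mem_filter] at hn
      rw [mem_filter, mem_Icc]
      refine ⟨⟨(mem_Icc.1 (hA hn.1)).1, hn.2⟩, fun h hh => ?_⟩
      have := hAT' n hn.1 h hh
      convert this using 1
      push_cast
      ring
    have h3 : ((A.filter (fun n : ℕ => n ≤ j)).card : ℝ) ≤
        (((Icc 1 j).filter (fun i : ℕ => ∀ h ∈ T, IsP (0 + (1 : ℕ) * (i : ℤ) - h))).card : ℝ) := by
      exact_mod_cast h2
    linarith
  obtain ⟨s, hs⟩ : ∃ s : ℕ, s = ⌊(x : ℝ) / l ^ 2⌋₊ := ⟨_, rfl⟩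
  have hs1 : (s : ℝ) ≤ x / l ^ 2 := by rw [hs]; exact Nat.floor_le (by positivity)
  obtain ⟨few, hfew⟩ : ∃ few : ℝ, few = ((A.filter (fun n : ℕ => n ≤ s)).card : ℝ) := ⟨_, rfl⟩
  have hfewb : few ≤ 2 * (x * Q) / l ^ 2 + (k + 1) * √(x : ℝ) := by
    rw [hfew]
    refine (hshort s).trans ?_
    have : 2 * ((s : ℝ) * Q) ≤ 2 * (x / l ^ 2 * Q) := by gcongr
    have e : 2 * ((x : ℝ) / l ^ 2 * Q) = 2 * (x * Q) / l ^ 2 := by ring
    linarith
  have hη1 : η ≤ 1 := by
    have : min ε 1 ≤ 1 := min_le_right _ _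
    nlinarith
  refine ⟨⟨?_, ?_, hCT0⟩, ?_⟩
  · have h1 := hshort x
    have h2 : A.filter (fun n : ℕ => n ≤ x) = A := by
      rw [filter_true_of_mem]
      intro n hn
      exact (mem_Icc.1 (hA hn)).2
    rw [h2] at h1
    have h3 : (k + 1 : ℝ) * √(x : ℝ) ≤ x * Q := by
      have h4 : (k + 1 : ℝ) * √(x : ℝ) ≤ 4 * (k + 1 : ℝ) * l * √(x : ℝ) := by
        have : (0 : ℝ) ≤ (k + 1) * √(x : ℝ) := by positivity
        nlinarith
      have h5 : η * (x * Q) ≤ 1 * (x * Q) := mul_le_mul_of_nonneg_right hη1 hxQ.le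
      linarith
    linarith
  · rw [← hs, ← hfew]
    have h1 : l * few ≤ η / 4 * (x * Q) + (k + 1) * l * √(x : ℝ) := by
      have h3 : l * few ≤ l * (2 * (x * Q) / l ^ 2 + (k + 1) * √(x : ℝ)) := mul_le_mul_of_nonneg_left hfewb hl0.le
      have h4 : l * (2 * (x * Q) / l ^ 2 + (k + 1) * √(x : ℝ)) = 2 / l * (x * Q) + (k + 1) * l * √(x : ℝ) := by
        field_simp
      have h5 : 2 / l ≤ η / 4 := by
        rw [div_le_iff₀ hl0]
        linarith
      have h6 := mul_le_mul_of_nonneg_right h5 hxQ.le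
      linarith
    have h2 : l * few ≤ η * (x * Q) := by linarith [mul_pos hη0 hxQ]
    have h3 : η * (x * Q) ≤ η * (C5 * M) := mul_le_mul_of_nonneg_left hxC hη0.le
    have h4 : η * (C5 * M) ≤ ε * M := by
      have h5 : η * C5 ≤ ε := by
        have : min ε 1 ≤ ε := min_le_left _ _
        nlinarith
      nlinarith
    linarith
  · intro u H b hH huH
    obtain ⟨c, J, hpar1, hpar2, hJ1, hJ2⟩ := param u H b W hW1
    have hW0r : (0 : ℝ) < W := by exact_mod_cast hW1
    have hH1 : √(x : ℝ) ≤ H := by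
      have h1 : (x : ℝ) ≤ H * √(x : ℝ) := hH.trans (mul_le_mul_of_nonneg_left c4 (Nat.cast_nonneg _))
      have h2 : √(x : ℝ) * √(x : ℝ) ≤ H * √(x : ℝ) := by rw [hss]; exact h1
      exact le_of_mul_le_mul_right h2 hsq0
    have hH2 : 2 ≤ (H : ℝ) / W := by
      rw [le_div_iff₀ hW0r]
      linarith
    have hJ3 : (H : ℝ) / W / 2 ≤ J := by linarith
    have hxJ : (x : ℝ) ≤ J * l ^ (C + 1) := by
      have h1 : (H : ℝ) ≤ 2 * W * J := by
        have e : (H : ℝ) = H / W / 2 * (2 * W) := by field_simp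
        rw [e]
        nlinarith
      calc (x : ℝ) ≤ H * l ^ C := hH
        _ ≤ (2 * W * J) * l ^ C := by gcongr
        _ ≤ (l * J) * l ^ C := by gcongr
        _ = J * l ^ (C + 1) := by ring
    obtain ⟨A0, hA0⟩ : ∃ A0, A0 = A.filter (fun n : ℕ => ¬ n ≤ s) := ⟨_, rfl⟩
    have hA0A : A0 ⊆ A := by rw [hA0]; exact filter_subset _ _
    have huHs : u + H ≤ s := by
      rw [hs]
      apply Nat.le_floor
      rw [le_div_iff₀ (by positivity)]
      exact huH
    obtain ⟨Ex, hExJ, hExc, hEx⟩ := hprim y hyx hxy T hT.le hadm A0 (hA0A.trans hA)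
      (fun n hn => hAT' n (hA0A hn)) (-c) J hxJ (by
        intro n hn t ht
        obtain ⟨g1, g2, _⟩ := hpar2 t ht
        rw [hA0, mem_filter] at hn
        have g3 := mem_Icc.1 (hA hn.1)
        constructor
        · have : (s : ℤ) < n := by exact_mod_cast not_le.1 hn.2
          have : (u : ℤ) + H ≤ s := by exact_mod_cast huHs
          linarith
        · have : (n : ℤ) ≤ x := by exact_mod_cast g3.2
          have : (0 : ℤ) ≤ u := by positivity
          have : (0 : ℤ) ≤ x := by positivity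
          linarith)
    rw [← hQ] at hEx
    -- the exceptional shifts
    have hcard : (((Ioc u (u + H)).filter (fun d : ℕ => d % W = b % W ∧
        ε * M < |l * ((A.filter (fun n : ℕ => (n - d).Prime)).card : ℝ) -
          (Vz w)⁻¹ * ((A.filter (fun n : ℕ => (n - d).Coprime W)).card : ℝ)|)).card : ℝ) ≤ Ex.card := by
      have h1 : ((Ioc u (u + H)).filter (fun d : ℕ => d % W = b % W ∧
        ε * M < |l * ((A.filter (fun n : ℕ => (n - d).Prime)).card : ℝ) -
          (Vz w)⁻¹ * ((A.filter (fun n : ℕ => (n - d).Coprime W)).card : ℝ)|)).image (fun d : ℕ => (d : ℤ)) ⊆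
          Ex.image (fun t : ℕ => c - W * (t : ℤ)) := by
        intro d' hd'
        obtain ⟨d, hd, rfl⟩ := mem_image.1 hd'
        rw [mem_filter] at hd
        obtain ⟨hd1, hd2, hd3⟩ := hd
        obtain ⟨t, ht, hdt⟩ := hpar1 d hd1 hd2
        rw [mem_image]
        refine ⟨t, ?_, hdt.symm⟩
        by_contra htE
        have hdu := mem_Ioc.1 hd1
        -- the identification of the counts
        have hval : ∀ n : ℕ, (n : ℤ) + -c + W * t = (n : ℤ) - d := by
          intro n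
          rw [hdt]
          ring
        have hA0n : ∀ n ∈ A0, d < n := by
          intro n hn
          rw [hA0, mem_filter] at hn
          omega
        have hBmem : ∀ n ∈ A0, (IsP ((n : ℤ) + -c + W * t) ↔ (n - d).Prime) := by
          intro n hn
          rw [hval]
          unfold IsP
          have h3 : ((n : ℤ) - d).toNat = n - d := by
            have := hA0n n hn
            omega
          rw [h3]
        have h4 := hEx t ht htE (A0.filter (fun n : ℕ => (n - d).Prime)) (filter_subset _ _) (by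
          intro n
          rw [mem_filter]
          constructor
          · rintro ⟨h5, h6⟩
            exact ⟨h5, (hBmem n h5).2 h6⟩
          · rintro ⟨h5, h6⟩
            exact ⟨h5, (hBmem n h5).1 h6⟩)
        have h5 : A0.filter (fun n : ℕ => Sf (pz w) ((n : ℤ) + -c)) = A0.filter (fun n : ℕ => (n - d).Coprime W) := by
          apply filter_congr
          intro n hn
          rw [hW, cop_iff]
          unfold Sf
          have h6 : ∀ p ∈ pz w, ((p : ℤ) ∣ (n : ℤ) + -c ↔ p ∣ n - d) := by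
            intro p hp
            have h7 : (p : ℤ) ∣ (W : ℤ) * t := by
              apply Dvd.dvd.mul_right
              rw [hW]
              exact Int.natCast_dvd_natCast.2 (dvd_prod_of_mem _ hp)
            have h8 := hA0n n hn
            have h9 : ((n - d : ℕ) : ℤ) = (n : ℤ) + -c + W * t := by
              rw [hval, Nat.cast_sub h8.le]
            rw [← Int.natCast_dvd_natCast, h9]
            exact (Int.dvd_add_left h7).symm
          exact forall₂_congr fun p hp => not_congr (h6 p hp)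
        rw [h5] at h4
        have hsplit : ∀ R : ℕ → Prop, [DecidablePred R] → ((A.filter R).card : ℝ) = ((A0.filter R).card : ℝ) +
            (((A.filter (fun n : ℕ => n ≤ s)).filter R).card : ℝ) := by
          intro R _
          have h6 : A.filter R = A0.filter R ∪ (A.filter (fun n : ℕ => n ≤ s)).filter R := by
            rw [hA0]
            ext n
            simp only [mem_filter, mem_union]
            tauto
          have h7 : Disjoint (A0.filter R) ((A.filter (fun n : ℕ => n ≤ s)).filter R) := by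
            rw [hA0, disjoint_left]
            intro n h8 h9
            simp only [mem_filter] at h8 h9
            exact h8.1.2 h9.1.2
          rw [h6, card_union_of_disjoint h7]
          push_cast
          rfl
        have h6 := last (l := l) (x := x) (Q := Q) (V := (Vz w)⁻¹) (η := η) (CTx := 0)
          (Bc := ((A.filter (fun n : ℕ => (n - d).Prime)).card : ℝ))
          (B0 := ((A0.filter (fun n : ℕ => (n - d).Prime)).card : ℝ))
          (f1 := (((A.filter (fun n : ℕ => n ≤ s)).filter (fun n : ℕ => (n - d).Prime)).card : ℝ))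
          (Sc := ((A.filter (fun n : ℕ => (n - d).Coprime W)).card : ℝ))
          (S0 := ((A0.filter (fun n : ℕ => (n - d).Coprime W)).card : ℝ))
          (f2 := (((A.filter (fun n : ℕ => n ≤ s)).filter (fun n : ℕ => (n - d).Coprime W)).card : ℝ))
          (few := few) (kk := k + 1) (R := √(x : ℝ)) l1 hx0 hPi (inv_pos.2 (Vz_pos w)).le c1 hη0 c2
          (hsplit _) (Nat.cast_nonneg _) (by rw [hfew]; exact_mod_cast card_filter_le _ _)
          (hsplit _) (Nat.cast_nonneg _) (by rw [hfew]; exact_mod_cast card_filter_le _ _)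
          hfewb hR2 h4 (by positivity) hsq0.le
        have h7 : 2 * η * (x * Q) ≤ ε * M := by
          have h8 : 2 * η * (x * Q) ≤ 2 * η * (C5 * M) := mul_le_mul_of_nonneg_left hxC (by positivity)
          have h9 : 2 * η * C5 ≤ ε := by
            have : min ε 1 ≤ ε := min_le_left _ _
            nlinarith
          nlinarith
        linarith
      have h2 := card_le_card h1
      rw [card_image_of_injective _ (fun a b h => by exact_mod_cast h)] at h2
      exact_mod_cast h2.trans card_image_le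
    refine hcard.trans (hExc.trans ?_)
    have h3 : (J : ℝ) ≤ 2 * (H / W) := by linarith
    calc η * (J : ℝ) ≤ η * (2 * (H / W)) := mul_le_mul_of_nonneg_left h3 hη0.le
      _ = 2 * η * (H / W) := by ring
      _ ≤ ε * (H / W) := mul_le_mul_of_nonneg_right (by linarith) (by positivity)

end Pool.Agent.K9h54.TF
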