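import Pool.Agent.K9h54.TF.Par

set_option autoImplicit false

/-!
# One more prime: the ratio of the singular series
-/

namespace Pool.Agent.K9h54.TF

open Finset Filter Topology
open Pool.Agent.H387R2.Uni (nuT locT CT CT_hasProd CT_nonneg)
open Pool.Agent.H373R2.T7 (pz mem_pz Vz Vz_pos)

open Classical in
/-- the ratio of the local factors -/
noncomputable def rho (T : Finset ℕ) (d p : ℕ) : ℝ :=
  if ∃ h ∈ T, h % p = d % p then (1 - 1 / (p : ℝ))⁻¹
    else (1 - ((nuT T p : ℝ) + 1) / p) / ((1 - (nuT T p : ℝ) / p) * (1 - 1 / (p : ℝ)))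

theorem one_sub_pos {p : ℕ} (hp : p.Prime) : 1 / 2 ≤ 1 - 1 / (p : ℝ) ∧ 1 - 1 / (p : ℝ) ≤ 1 := by
  have hp2 : (2 : ℝ) ≤ p := by exact_mod_cast hp.two_le
  have : 1 / (p : ℝ) ≤ 1 / 2 := one_div_le_one_div_of_le (by norm_num) hp2
  have h0 : (0 : ℝ) ≤ 1 / p := by positivity
  constructor <;> linarith

theorem loc_rho {T : Finset ℕ} {d p : ℕ} (hp : p.Prime) (hadm : nuT T p < p) (hd : d ∉ T) :
    locT (insert d T) p = locT T p * rho T d p := by
  have h1 := fac_pos hp hadm
  have h2 := (one_sub_pos hp).1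
  have h3 : (1 - 1 / (p : ℝ)) ≠ 0 := by linarith
  unfold locT rho
  rw [card_insert_of_notMem hd]
  split_ifs with h
  · have h4 : nuT (insert d T) p = nuT T p := by
      unfold nuT
      rw [image_insert, insert_eq_of_mem]
      obtain ⟨a, ha, hb⟩ := h
      exact mem_image.2 ⟨a, ha, hb⟩
    rw [h4, pow_succ]
    field_simp
  · have h4 : nuT (insert d T) p = nuT T p + 1 := by
      unfold nuT
      rw [image_insert, card_insert_of_notMem]
      intro h5
      obtain ⟨a, ha, hb⟩ := mem_image.1 h5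
      exact h ⟨a, ha, hb⟩
    rw [h4, pow_succ]
    push_cast
    have h5 : (1 - (nuT T p : ℝ) / p) ≠ 0 := h1.ne'
    rw [div_mul_div_comm]
    rw [div_eq_div_iff (mul_ne_zero (pow_ne_zero _ h3) h3) (mul_ne_zero (pow_ne_zero _ h3) (mul_ne_zero h5 h3))]
    ring

theorem rho_ge {T : Finset ℕ} {k d p : ℕ} (hT : T.card = k) (hp : p.Prime) (hk : 4 * k ≤ p) :
    1 - (4 * k : ℝ) / (p : ℝ) ^ 2 ≤ rho T d p := by
  have hp0 : (0 : ℝ) < p := by exact_mod_cast hp.pos
  obtain ⟨g1, g2⟩ := one_sub_pos hp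
  unfold rho
  split_ifs with h
  · have h1 : 1 ≤ (1 - 1 / (p : ℝ))⁻¹ := (one_le_inv₀ (by linarith)).2 g2
    have h2 : (0 : ℝ) ≤ (4 * k : ℝ) / (p : ℝ) ^ 2 := by positivity
    linarith
  · obtain ⟨a, ha⟩ : ∃ a : ℝ, a = nuT T p := ⟨_, rfl⟩
    have ha0 : 0 ≤ a := by rw [ha]; exact Nat.cast_nonneg _
    have hak : a ≤ k := by rw [ha]; exact_mod_cast (nuT_le T p).trans hT.le
    rw [← ha]
    have hkp : (4 * k : ℝ) ≤ p := by exact_mod_cast hk
    have h1 : a / p ≤ 1 / 4 := by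
      rw [div_le_iff₀ hp0]
      linarith
    have h1' : 0 ≤ a / p := by positivity
    have h2 : 3 / 8 ≤ (1 - a / p) * (1 - 1 / (p : ℝ)) := by nlinarith
    rw [le_div_iff₀ (by linarith)]
    have e : 1 - (a + 1) / p = (1 - a / p) * (1 - 1 / (p : ℝ)) - a / (p : ℝ) ^ 2 := by
      field_simp
      ring
    rw [e, sub_mul, one_mul]
    have h3 : a / (p : ℝ) ^ 2 ≤ (4 * k : ℝ) / (p : ℝ) ^ 2 * ((1 - a / p) * (1 - 1 / (p : ℝ))) := by
      rw [div_mul_eq_mul_div, div_le_div_iff_of_pos_right (by positivity)]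
      have : (0 : ℝ) ≤ k := Nat.cast_nonneg _
      nlinarith
    linarith

open Classical in
theorem rho_le {T : Finset ℕ} {k d p : ℕ} (hT : T.card = k) (hp : p.Prime) (hk : 4 * k ≤ p) :
    rho T d p ≤ Real.exp (2 * (if ∃ h ∈ T, h % p = d % p then 1 / (p : ℝ) else 0)) := by
  have hp0 : (0 : ℝ) < p := by exact_mod_cast hp.pos
  obtain ⟨g1, g2⟩ := one_sub_pos hp
  unfold rho
  split_ifs with h
  · have hh : 1 / (p : ℝ) ≤ 1 / 2 := by linarith
    have h0 : 0 ≤ 1 / (p : ℝ) := by positivity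
    have h1 := one_sub_ge h0 hh
    have h2 : Real.exp (-(2 * (1 / (p : ℝ)))) ≤ 1 - 1 / p := by
      refine le_trans (Real.exp_le_exp.2 ?_) h1
      nlinarith
    rw [Real.exp_neg] at h2
    rw [inv_le_comm₀ (by linarith) (Real.exp_pos _)]
    exact h2
  · obtain ⟨a, ha⟩ : ∃ a : ℝ, a = nuT T p := ⟨_, rfl⟩
    have ha0 : 0 ≤ a := by rw [ha]; exact Nat.cast_nonneg _
    have hak : a ≤ k := by rw [ha]; exact_mod_cast (nuT_le T p).trans hT.le
    rw [← ha]
    have hkp : (4 * k : ℝ) ≤ p := by exact_mod_cast hk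
    have h1 : a / p ≤ 1 / 4 := by
      rw [div_le_iff₀ hp0]
      linarith
    have h2 : 0 < (1 - a / p) * (1 - 1 / (p : ℝ)) := mul_pos (by linarith) (by linarith)
    rw [mul_zero, Real.exp_zero, div_le_one h2]
    have e : 1 - (a + 1) / p = (1 - a / p) * (1 - 1 / (p : ℝ)) - a / (p : ℝ) ^ 2 := by
      field_simp
      ring
    rw [e]
    have : 0 ≤ a / (p : ℝ) ^ 2 := by positivity
    linarith

open Classical in
/-- the sum of the reciprocals of the large primes for which `d` falls into a class of `T` -/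
noncomputable def sg (T : Finset ℕ) (w x d : ℕ) : ℝ :=
  ∑ p ∈ (pz x).filter (fun p => w < p ∧ ∃ h ∈ T, h % p = d % p), 1 / (p : ℝ)

theorem prod_rho {T : Finset ℕ} {w d : ℕ} (hcov : ∀ p ∈ pz w, ∃ h ∈ T, h % p = d % p) :
    ∏ p ∈ pz w, rho T d p = (Vz w)⁻¹ := by
  unfold Vz
  rw [← prod_inv_distrib]
  apply prod_congr rfl
  intro p hp
  unfold rho
  rw [if_pos (hcov p hp)]

theorem ratio {T : Finset ℕ} {k w d x : ℕ} (hT : T.card = k) (hadm : ∀ p, p.Prime → nuT T p < p) (hd : d ∉ T)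
    (hdx : d ≤ x) (hTx : ∀ h ∈ T, h ≤ x) (hw1 : 1 ≤ w) (hw : 4 * k ≤ w) (hcov : ∀ p ∈ pz w, ∃ h ∈ T, h % p = d % p) :
    (1 - (4 * k : ℝ) / w) * (Vz w)⁻¹ * CT T ≤ CT (insert d T) ∧
      CT (insert d T) ≤ Real.exp (2 * sg T w x d) * (Vz w)⁻¹ * CT T := by
  classical
  have hV0 : 0 ≤ (Vz w)⁻¹ := (inv_pos.2 (Vz_pos w)).le
  have key : ∀ s : Finset Nat.Primes, (pz w).subtype Nat.Prime ⊆ s →
      ∃ F : Finset ℕ, (∀ p ∈ F, p.Prime ∧ w < p) ∧
        ∏ p ∈ s, locT (insert d T) p = (∏ p ∈ s, locT T p) * ((∏ p ∈ F, rho T d p) * (Vz w)⁻¹) := by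
    intro s hs
    obtain ⟨F, h1, h2⟩ := prod_parts (rho T d) w s hs
    refine ⟨F, h1, ?_⟩
    rw [prod_rho hcov] at h2
    rw [← h2, ← prod_mul_distrib]
    apply prod_congr rfl
    intro p _
    exact loc_rho p.2 (hadm p p.2) hd
  have hloc0 : ∀ s : Finset Nat.Primes, 0 ≤ ∏ p ∈ s, locT T p := by
    intro s
    apply prod_nonneg
    intro p _
    exact loc_nonneg p.2 (hadm p p.2)
  constructor
  · have h1 : Tendsto (fun s : Finset Nat.Primes => (1 - (4 * k : ℝ) / w) * (Vz w)⁻¹ * ∏ p ∈ s, locT T p) atTop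
        (𝓝 ((1 - (4 * k : ℝ) / w) * (Vz w)⁻¹ * CT T)) := (tend (CT_hasProd T)).const_mul _
    refine le_of_tendsto_of_tendsto h1 (tend (CT_hasProd (insert d T))) ?_
    filter_upwards [eventually_ge_atTop ((pz w).subtype Nat.Prime)] with s hs
    obtain ⟨F, g1, g2⟩ := key s hs
    rw [g2]
    have g3 := prod_close F (rho T d) (4 * k) w hw1 (by positivity) (by exact_mod_cast hw)
      (fun p hp => (g1 p hp).2) (fun p hp => rho_ge hT (g1 p hp).1 (by have := (g1 p hp).2; omega))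
    calc (1 - (4 * k : ℝ) / w) * (Vz w)⁻¹ * ∏ p ∈ s, locT T p =
        (∏ p ∈ s, locT T p) * ((1 - (4 * k : ℝ) / w) * (Vz w)⁻¹) := by ring
      _ ≤ _ := mul_le_mul_of_nonneg_left (mul_le_mul_of_nonneg_right g3 hV0) (hloc0 s)
  · have h1 : Tendsto (fun s : Finset Nat.Primes => Real.exp (2 * sg T w x d) * (Vz w)⁻¹ * ∏ p ∈ s, locT T p) atTop
        (𝓝 (Real.exp (2 * sg T w x d) * (Vz w)⁻¹ * CT T)) := (tend (CT_hasProd T)).const_mul _
    refine le_of_tendsto_of_tendsto (tend (CT_hasProd (insert d T))) h1 ?_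
    filter_upwards [eventually_ge_atTop ((pz w).subtype Nat.Prime)] with s hs
    obtain ⟨F, g1, g2⟩ := key s hs
    rw [g2]
    have g3 : ∏ p ∈ F, rho T d p ≤ Real.exp (2 * sg T w x d) := by
      have g4 : ∏ p ∈ F, rho T d p ≤
          ∏ p ∈ F, Real.exp (2 * (if ∃ h ∈ T, h % p = d % p then 1 / (p : ℝ) else 0)) := by
        apply Finset.prod_le_prod
        · intro p hp
          have g5 := rho_ge (d := d) hT (g1 p hp).1 (by have := (g1 p hp).2; omega)
          have hp0 : (0 : ℝ) < p := by exact_mod_cast (g1 p hp).1.pos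
          have g6 : (4 * k : ℝ) / (p : ℝ) ^ 2 ≤ 1 := by
            rw [div_le_one (by positivity)]
            have g7 : (4 * k : ℝ) ≤ p := by
              exact_mod_cast (by have := (g1 p hp).2; omega : 4 * k ≤ p)
            have g8 : (1 : ℝ) ≤ p := by exact_mod_cast (g1 p hp).1.one_lt.le
            nlinarith
          linarith
        · intro p hp
          exact rho_le hT (g1 p hp).1 (by have := (g1 p hp).2; omega)
      refine g4.trans ?_
      rw [← Real.exp_sum, ← mul_sum, ← sum_filter]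
      apply Real.exp_le_exp.2
      apply mul_le_mul_of_nonneg_left _ (by norm_num)
      unfold sg
      apply sum_le_sum_of_subset_of_nonneg
      · intro p hp
        rw [mem_filter] at hp ⊢
        obtain ⟨hp1, h, hh, hhd⟩ := hp
        refine ⟨mem_pz.2 ⟨?_, (g1 p hp1).1⟩, (g1 p hp1).2, h, hh, hhd⟩
        have hne : h ≠ d := fun e => hd (e ▸ hh)
        have hhx := hTx h hh
        rcases lt_or_gt_of_ne hne with h3 | h3
        · have h4 : p ∣ d - h := (Nat.modEq_iff_dvd' h3.le).1 hhd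
          have := Nat.le_of_dvd (by omega) h4
          omega
        · have h4 : p ∣ h - d := (Nat.modEq_iff_dvd' h3.le).1 hhd.symm
          have := Nat.le_of_dvd (by omega) h4
          omega
      · intro p _ _
        positivity
    calc (∏ p ∈ s, locT T p) * ((∏ p ∈ F, rho T d p) * (Vz w)⁻¹) ≤
        (∏ p ∈ s, locT T p) * (Real.exp (2 * sg T w x d) * (Vz w)⁻¹) :=
          mul_le_mul_of_nonneg_left (mul_le_mul_of_nonneg_right g3 hV0) (hloc0 s)
      _ = _ := by ring

/-- the number of the elements of a class modulo `W` and a class modulo `p` in a window -/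
theorem two_cls (u H b W p h : ℕ) (hW : 1 ≤ W) (hp : p.Prime) (hpW : Nat.Coprime W p) :
    (((Ioc u (u + H)).filter (fun d : ℕ => d % W = b % W ∧ h % p = d % p)).card : ℝ) ≤ H / (W * p) + 1 := by
  rcases ((Ioc u (u + H)).filter (fun d : ℕ => d % W = b % W ∧ h % p = d % p)).eq_empty_or_nonempty with h0 | ⟨d0, hd0⟩
  · rw [h0]
    simp only [card_empty, Nat.cast_zero]
    positivity
  rw [mem_filter] at hd0
  obtain ⟨c, J, h1, _, _, h4⟩ := param u H d0 (W * p) (Nat.mul_pos hW hp.pos)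
  have h5 : ((Ioc u (u + H)).filter (fun d : ℕ => d % W = b % W ∧ h % p = d % p)).card ≤ J := by
    have h6 : ((Ioc u (u + H)).filter (fun d : ℕ => d % W = b % W ∧ h % p = d % p)).image (fun d : ℕ => (d : ℤ)) ⊆
        (Icc 1 J).image (fun t : ℕ => c - (W * p : ℕ) * (t : ℤ)) := by
      intro d' hd'
      obtain ⟨d, hd, rfl⟩ := mem_image.1 hd'
      rw [mem_filter] at hd
      have h7 : d ≡ d0 [MOD W * p] := by
        rw [← Nat.modEq_and_modEq_iff_modEq_mul hpW]
        exact ⟨hd.2.1.trans hd0.2.1.symm, hd.2.2.symm.trans hd0.2.2⟩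
      obtain ⟨t, ht, hdt⟩ := h1 d hd.1 h7
      exact mem_image.2 ⟨t, ht, hdt.symm⟩
    have h7 := card_le_card h6
    rw [card_image_of_injective _ (fun a b h => by exact_mod_cast h)] at h7
    refine h7.trans (card_image_le.trans ?_)
    simp
  have h6 : (((Ioc u (u + H)).filter (fun d : ℕ => d % W = b % W ∧ h % p = d % p)).card : ℝ) ≤ J := by exact_mod_cast h5
  push_cast at h4
  linarith

theorem sum_inv_le (x : ℕ) (F : Finset ℕ) (hF : ∀ p ∈ F, 1 ≤ p ∧ p ≤ x) : ∑ p ∈ F, 1 / (p : ℝ) ≤ 1 + Real.log x := by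
  have h1 : ∑ p ∈ F, 1 / (p : ℝ) ≤ ∑ p ∈ Icc 1 x, 1 / (p : ℝ) := by
    apply sum_le_sum_of_subset_of_nonneg
    · intro p hp
      exact mem_Icc.2 (hF p hp)
    · intro p _ _
      positivity
  have h2 := harmonic_le_one_add_log x
  rw [harmonic_eq_sum_Icc] at h2
  push_cast at h2
  refine h1.trans (le_trans (le_of_eq ?_) h2)
  apply sum_congr rfl
  intro p _
  rw [one_div]

/-- the sum `sg` is small for almost all `d` in a class -/
theorem avg (T : Finset ℕ) (k w u H b x : ℕ) (hT : T.card = k) (hw1 : 1 ≤ w) (δ : ℝ) (hδ : 0 < δ) :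
    (((Ioc u (u + H)).filter (fun d : ℕ => d % (∏ q ∈ pz w, q) = b % (∏ q ∈ pz w, q) ∧ δ < sg T w x d)).card : ℝ) ≤
      k / δ * (H / (∏ q ∈ pz w, q : ℕ) / w + (1 + Real.log x)) := by
  classical
  obtain ⟨W, hW⟩ : ∃ W : ℕ, W = ∏ q ∈ pz w, q := ⟨_, rfl⟩
  rw [← hW]
  have hW1 : 1 ≤ W := by
    rw [hW]
    exact Nat.pos_of_ne_zero (prod_ne_zero_iff.2 fun q hq => (mem_pz.1 hq).2.ne_zero)
  have hW0r : (0 : ℝ) < W := by exact_mod_cast hW1
  obtain ⟨D, hD⟩ : ∃ D, D = (Ioc u (u + H)).filter (fun d : ℕ => d % W = b % W) := ⟨_, rfl⟩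
  obtain ⟨P, hP⟩ : ∃ P, P = (pz x).filter (fun p => w < p) := ⟨_, rfl⟩
  have hPm : ∀ p ∈ P, p.Prime ∧ w < p ∧ p ≤ x := by
    intro p hp
    rw [hP, mem_filter] at hp
    exact ⟨(mem_pz.1 hp.1).2, hp.2, (mem_pz.1 hp.1).1⟩
  have h1 : ∀ d, sg T w x d ≤ ∑ p ∈ P, 1 / (p : ℝ) * ∑ h ∈ T, (if h % p = d % p then 1 else 0) := by
    intro d
    unfold sg
    have e : (pz x).filter (fun p => w < p ∧ ∃ h ∈ T, h % p = d % p) = P.filter (fun p => ∃ h ∈ T, h % p = d % p) := by
      rw [hP, filter_filter]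
    rw [e, sum_filter]
    apply sum_le_sum
    intro p hp
    split_ifs with h
    · obtain ⟨a, ha, hb⟩ := h
      have h2 : (1 : ℝ) ≤ ∑ h ∈ T, (if h % p = d % p then 1 else 0) := by
        have h3 := single_le_sum (f := fun h : ℕ => if h % p = d % p then (1 : ℝ) else 0)
          (fun i _ => by positivity) ha
        simp only [hb, if_true] at h3
        exact h3
      exact le_mul_of_one_le_right (by positivity) h2
    · exact mul_nonneg (by positivity) (sum_nonneg fun i _ => by positivity)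
  have h2 : ∑ d ∈ D, sg T w x d ≤ k * (H / W / w + (1 + Real.log x)) := by
    calc ∑ d ∈ D, sg T w x d ≤ ∑ d ∈ D, ∑ p ∈ P, 1 / (p : ℝ) * ∑ h ∈ T, (if h % p = d % p then 1 else 0) :=
          sum_le_sum fun d _ => h1 d
      _ = ∑ p ∈ P, 1 / (p : ℝ) * ∑ h ∈ T, ∑ d ∈ D, (if h % p = d % p then (1 : ℝ) else 0) := by
          rw [sum_comm]
          apply sum_congr rfl
          intro p _
          rw [← mul_sum, sum_comm]
      _ ≤ ∑ p ∈ P, 1 / (p : ℝ) * ∑ h ∈ T, (H / (W * p) + 1 : ℝ) := by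
          apply sum_le_sum
          intro p hp
          apply mul_le_mul_of_nonneg_left _ (by positivity)
          apply sum_le_sum
          intro h _
          rw [← sum_filter, sum_const, nsmul_eq_mul, mul_one, hD, filter_filter]
          apply two_cls u H b W p h hW1 (hPm p hp).1
          rw [hW, Nat.coprime_prod_left_iff]
          intro q hq
          rw [Nat.coprime_primes (mem_pz.1 hq).2 (hPm p hp).1]
          have := (mem_pz.1 hq).1
          have := (hPm p hp).2.1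
          omega
      _ = k * (H / W * ∑ p ∈ P, 1 / (p : ℝ) ^ 2 + ∑ p ∈ P, 1 / (p : ℝ)) := by
          rw [mul_sum, ← sum_add_distrib, mul_sum]
          apply sum_congr rfl
          intro p hp
          have hp0 : (0 : ℝ) < p := by exact_mod_cast (hPm p hp).1.pos
          rw [sum_const, hT, nsmul_eq_mul]
          field_simp
      _ ≤ k * (H / W / w + (1 + Real.log x)) := by
          apply mul_le_mul_of_nonneg_left _ (Nat.cast_nonneg _)
          have h3 := tail_sq P w hw1 (fun p hp => (hPm p hp).2.1)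
          have h4 := sum_inv_le x P (fun p hp => ⟨(hPm p hp).1.pos, (hPm p hp).2.2⟩)
          have h5 : (H : ℝ) / W * ∑ p ∈ P, 1 / (p : ℝ) ^ 2 ≤ H / W * (1 / w) :=
            mul_le_mul_of_nonneg_left h3 (by positivity)
          have e : (H : ℝ) / W * (1 / w) = H / W / w := by ring
          linarith
  have h3 : δ * ((D.filter (fun d => δ < sg T w x d)).card : ℝ) ≤ ∑ d ∈ D, sg T w x d := by
    calc δ * ((D.filter (fun d => δ < sg T w x d)).card : ℝ) = ∑ d ∈ D.filter (fun d => δ < sg T w x d), δ := by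
          rw [sum_const, nsmul_eq_mul]
          ring
      _ ≤ ∑ d ∈ D.filter (fun d => δ < sg T w x d), sg T w x d := by
          apply sum_le_sum
          intro d hd
          exact (mem_filter.1 hd).2.le
      _ ≤ ∑ d ∈ D, sg T w x d := by
          apply sum_le_sum_of_subset_of_nonneg (filter_subset _ _)
          intro d _ _
          unfold sg
          exact sum_nonneg fun p _ => by positivity
  have h4 : (Ioc u (u + H)).filter (fun d : ℕ => d % W = b % W ∧ δ < sg T w x d) =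
      D.filter (fun d => δ < sg T w x d) := by
    rw [hD, filter_filter]
  rw [h4, div_mul_eq_mul_div, le_div_iff₀ hδ]
  linarith

end Pool.Agent.K9h54.TF
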