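import Pool.Agent.K9h54.TF.Prm
import Pool.Agent.K9h54.TF.Loc

set_option autoImplicit false

/-!
# One more prime: the progressions in a window
-/

namespace Pool.Agent.K9h54.TF

open Finset Filter
open Pool.Agent.H387R2.Uni (nuT locT CT CT_hasProd CT_nonneg)
open Pool.Agent.H373R2.T7 (pz mem_pz Vz Vz_pos)

/-- the elements of a class in a window, in decreasing order -/
theorem param (u H b W : ℕ) (hW : 1 ≤ W) : ∃ (c : ℤ) (J : ℕ),
    (∀ d : ℕ, d ∈ Ioc u (u + H) → d % W = b % W → ∃ t ∈ Icc 1 J, (d : ℤ) = c - W * t) ∧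
    (∀ t ∈ Icc 1 J, (u : ℤ) < c - W * t ∧ c - W * t ≤ u + H ∧ (W : ℤ) ∣ c - W * t - b) ∧
    (H : ℝ) / W - 1 ≤ J ∧ (J : ℝ) ≤ H / W + 1 := by
  have hW0 : (0 : ℤ) < W := by exact_mod_cast hW
  obtain ⟨r, hr⟩ : ∃ r : ℤ, r = ((b % W : ℕ) : ℤ) := ⟨_, rfl⟩
  obtain ⟨q2, hq2⟩ : ∃ q2 : ℤ, q2 = ((u : ℤ) + H - r) / W := ⟨_, rfl⟩
  obtain ⟨q1, hq1⟩ : ∃ q1 : ℤ, q1 = ((u : ℤ) - r) / W := ⟨_, rfl⟩
  have h12 : q1 ≤ q2 := by
    rw [hq1, hq2]
    apply Int.ediv_le_ediv hW0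
    omega
  have e2 : (W : ℤ) * q2 ≤ u + H - r := by
    rw [hq2]; exact Int.mul_ediv_self_le hW0.ne'
  have e2' : (u : ℤ) + H - r < W * (q2 + 1) := by
    rw [hq2, mul_add, mul_one]
    have := Int.lt_mul_ediv_self_add (x := (u : ℤ) + H - r) hW0
    linarith
  have e1 : (W : ℤ) * q1 ≤ u - r := by
    rw [hq1]; exact Int.mul_ediv_self_le hW0.ne'
  have e1' : (u : ℤ) - r < W * (q1 + 1) := by
    rw [hq1, mul_add, mul_one]
    have := Int.lt_mul_ediv_self_add (x := (u : ℤ) - r) hW0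
    linarith
  have hJ : (((q2 - q1).toNat : ℕ) : ℤ) = q2 - q1 := Int.toNat_of_nonneg (by omega)
  refine ⟨r + W * (q2 + 1), (q2 - q1).toNat, ?_, ?_, ?_, ?_⟩
  · intro d hd hdb
    rw [mem_Ioc] at hd
    have h1 : (d : ℤ) = r + W * ((d / W : ℕ) : ℤ) := by
      have h2 := Nat.mod_add_div d W
      rw [hdb] at h2
      rw [hr]
      exact_mod_cast h2.symm
    obtain ⟨q, hq⟩ : ∃ q : ℤ, q = ((d / W : ℕ) : ℤ) := ⟨_, rfl⟩
    rw [← hq] at h1
    have h3 : q < q2 + 1 := by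
      have : (W : ℤ) * q < W * (q2 + 1) := by omega
      exact lt_of_mul_lt_mul_left this hW0.le
    have h4 : q1 < q := by
      have : (W : ℤ) * q1 < W * q := by omega
      exact lt_of_mul_lt_mul_left this hW0.le
    refine ⟨(q2 + 1 - q).toNat, ?_, ?_⟩
    · rw [mem_Icc]
      omega
    · rw [Int.toNat_of_nonneg (by omega), h1]
      ring
  · intro t ht
    rw [mem_Icc] at ht
    have h5 : r + W * (q2 + 1) - W * (t : ℤ) = r + W * (q2 + 1 - t) := by ring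
    rw [h5]
    have h6 : q2 + 1 - (t : ℤ) ≤ q2 := by omega
    have h7 : q1 + 1 ≤ q2 + 1 - (t : ℤ) := by omega
    have h8 : (W : ℤ) * (q2 + 1 - t) ≤ W * q2 := mul_le_mul_of_nonneg_left h6 hW0.le
    have h9 : (W : ℤ) * (q1 + 1) ≤ W * (q2 + 1 - t) := mul_le_mul_of_nonneg_left h7 hW0.le
    refine ⟨by linarith, by linarith, ?_⟩
    have h10 : (W : ℤ) ∣ r - b := by
      rw [hr]
      push_cast
      have h11 := Int.emod_add_mul_ediv (b : ℤ) W
      exact ⟨-((b : ℤ) / W), by linarith⟩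
    have h12 : r + W * (q2 + 1 - t) - b = (r - b) + W * (q2 + 1 - t) := by ring
    rw [h12]
    exact dvd_add h10 ⟨_, rfl⟩
  · have hW0r : (0 : ℝ) < W := by exact_mod_cast hW
    rw [sub_le_iff_le_add, div_le_iff₀ hW0r]
    have h1 : (H : ℤ) ≤ (((q2 - q1).toNat : ℕ) + 1) * W := by
      rw [hJ]
      nlinarith
    exact_mod_cast h1
  · have hW0r : (0 : ℝ) < W := by exact_mod_cast hW
    rw [← sub_le_iff_le_add, le_div_iff₀ hW0r]
    have h1 : (((q2 - q1).toNat : ℕ) - 1) * (W : ℤ) ≤ (H : ℤ) := by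
      rw [hJ]
      nlinarith
    exact_mod_cast h1

end Pool.Agent.K9h54.TF
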