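import Pool.Agent.K9h54.TF.Prm0

set_option autoImplicit false

/-!
# One more prime: from the von Mangoldt function to the primes, second part
-/

namespace Pool.Agent.K9h54.TF

open Finset Filter
open scoped ArithmeticFunction.vonMangoldt
open Pool.Agent.H387R2.Uni (nuT)
open Pool.Agent.H373R2.T7 (lamz pz mem_pz Vz Vz_pos)
open Pool.Agent.K9h54.MP (pow_le_exp pp_inj)

/-- THE CORE for the primes -/
theorem prim (k : ℕ) (hk : 1 ≤ k) : ∃ K0 : ℕ, 2 ≤ K0 ∧ ∀ K : ℕ, K0 ≤ K → ∀ η : ℝ, 0 < η → ∀ w0 : ℕ, ∃ w : ℕ, w0 ≤ w ∧ 4 ≤ w ∧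
    ∀ C : ℕ, ∃ x1 : ℕ, ∀ x : ℕ, x1 ≤ x → ∀ y : ℕ, y ^ K ≤ x → x < (y + 1) ^ K → ∀ T : Finset ℕ, T.card ≤ k →
    (∀ p, p.Prime → nuT T p < p) → ∀ A ⊆ Icc 1 x, (∀ n ∈ A, ∀ h ∈ T, IsP ((n : ℤ) - h)) →
    ∀ (a : ℤ) (J : ℕ), (x : ℝ) ≤ J * Real.log x ^ C →
      (∀ n ∈ A, ∀ t ∈ Icc 1 J, 1 ≤ (n : ℤ) + a + (∏ q ∈ pz w, q : ℕ) * t ∧
        (n : ℤ) + a + (∏ q ∈ pz w, q : ℕ) * t ≤ 2 * x) →
      ∃ Ex ⊆ Icc 1 J, (Ex.card : ℝ) ≤ η * J ∧ ∀ t ∈ Icc 1 J, t ∉ Ex → ∀ B ⊆ A,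
        (∀ n, n ∈ B ↔ n ∈ A ∧ IsP ((n : ℤ) + a + (∏ q ∈ pz w, q : ℕ) * t)) →
        |Real.log x * B.card - (Vz w)⁻¹ * ((A.filter (fun n : ℕ => Sf (pz w) (n + a))).card : ℝ)| ≤
          η * (x * PiT T y) := by
  classical
  obtain ⟨K0, hK0, hcore⟩ := core k hk
  obtain ⟨K3, x3, hK3, hsv⟩ := sieve k hk
  obtain ⟨C1, hC1, hlow⟩ := PiT_low k
  refine ⟨max K0 K3, hK0.trans (le_max_left _ _), fun K hK η hη w0 => ?_⟩
  obtain ⟨w, hw0, hw4, hcore⟩ := hcore K ((le_max_left _ _).trans hK) (η / 2) (by linarith) w0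
  refine ⟨w, hw0, hw4, fun C => ?_⟩
  obtain ⟨x1, hcore⟩ := hcore C
  obtain ⟨X, hX⟩ := evlog (big2 k C1 (Vz w)⁻¹ η hη)
  have hK2 : 2 ≤ K := hK0.trans ((le_max_left _ _).trans hK)
  refine ⟨max (max x1 X) ((x3 + 4) ^ K), fun x hx y hyx hxy T hT hadm A hA hAT a J hJx hr => ?_⟩
  have hcore := hcore x ((le_max_left _ _).trans ((le_max_left _ _).trans hx)) y hyx hxy T hT hadm A hA hAT a J hJx hr
  obtain ⟨W, hW⟩ : ∃ W : ℕ, W = ∏ q ∈ pz w, q := ⟨_, rfl⟩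
  rw [← hW] at hcore hr ⊢
  refine ⟨_, filter_subset _ _, hcore.trans ?_, fun t ht hEx B hBA hB => ?_⟩
  · have : (0 : ℝ) ≤ J := Nat.cast_nonneg _
    nlinarith
  rw [mem_filter, not_and, not_lt] at hEx
  have hdiff := hEx ht
  -- sizes
  have hy4 : x3 + 3 ≤ y := by
    have h1 : (x3 + 4) ^ K < (y + 1) ^ K := ((le_max_right _ _).trans hx).trans_lt hxy
    have h2 := lt_of_pow_lt_pow_left₀ K (by omega) h1
    omega
  have hy3 : 3 ≤ y := by omega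
  have hx1 : 1 ≤ x := by
    have : 1 ≤ y ^ K := Nat.one_le_pow _ _ (by omega)
    omega
  have hx0 : (0 : ℝ) < x := by exact_mod_cast hx1
  have hyK3 : y ^ K3 ≤ x := (Nat.pow_le_pow_right (by omega) ((le_max_right _ _).trans hK)).trans hyx
  have hb := hX x ((le_max_right _ _).trans ((le_max_left _ _).trans hx))
  obtain ⟨l, hl⟩ : ∃ l, l = Real.log x := ⟨_, rfl⟩
  rw [← hl] at hb ⊢
  obtain ⟨l1, b1, b2, b3, b4, b5, b6⟩ := hb
  have hxe : Real.exp l = x := by rw [hl, Real.exp_log hx0]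
  have hl0 : 0 < l := by linarith
  have hsq : √(x : ℝ) = Real.exp (l / 2) := by
    rw [← hxe, Real.sqrt_eq_rpow, ← Real.exp_mul]
    congr 1
    ring
  have hss : √(x : ℝ) * √(x : ℝ) = x := Real.mul_self_sqrt hx0.le
  have hsq0 : 0 < √(x : ℝ) := Real.sqrt_pos.2 hx0
  rw [← hsq] at b3 b4
  have hyl : Real.log y ≤ l := by
    rw [hl]
    apply Real.log_le_log (by exact_mod_cast (by omega : 0 < y))
    have h4 : y ≤ x := by
      calc y = y ^ 1 := (pow_one y).symm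
        _ ≤ y ^ K := Nat.pow_le_pow_right (by omega) (by omega)
        _ ≤ x := hyx
    exact_mod_cast h4
  have hy2 : (y : ℝ) ≤ √(x : ℝ) := by
    apply Real.le_sqrt_of_sq_le
    have : y ^ 2 ≤ x := (Nat.pow_le_pow_right (by omega) hK2).trans hyx
    exact_mod_cast this
  obtain ⟨hPi, hPi1⟩ := hlow y hy3 T hT hadm
  obtain ⟨Q, hQ⟩ : ∃ Q, Q = PiT T y := ⟨_, rfl⟩
  have hQl : Q⁻¹ ≤ C1 * l ^ (2 * k) := by
    rw [hQ]
    refine hPi1.trans ?_
    have h5 : 0 ≤ Real.log y := Real.log_natCast_nonneg _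
    gcongr
  rw [← hQ] at hPi hdiff ⊢
  have hQ1 : 1 ≤ Q * (C1 * l ^ (2 * k)) := by
    rw [inv_le_iff_one_le_mul₀ hPi] at hQl
    linarith [mul_comm Q (C1 * l ^ (2 * k))]
  have hxQ : 0 < x * Q := by positivity
  -- the square root is small
  have hR1 : (k + 1) * √(x : ℝ) ≤ x * Q := by
    have h1 : (k + 1) * √(x : ℝ) ≤ (k + 1) * √(x : ℝ) * (Q * (C1 * l ^ (2 * k))) :=
      le_mul_of_one_le_right (by positivity) hQ1
    have h2 : (k + 1) * √(x : ℝ) * (Q * (C1 * l ^ (2 * k))) = ((k + 1) * C1 * l ^ (2 * k)) * √(x : ℝ) * Q := by ring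
    have h3 : ((k + 1) * C1 * l ^ (2 * k)) * √(x : ℝ) * Q ≤ √(x : ℝ) * √(x : ℝ) * Q := by gcongr
    rw [hss] at h3
    linarith
  have hR2 : 8 * ((k + 1 : ℝ) + 8) * l * √(x : ℝ) ≤ η * (x * Q) := by
    have h1 : 8 * ((k + 1 : ℝ) + 8) * l * √(x : ℝ) ≤ 8 * ((k + 1 : ℝ) + 8) * l * √(x : ℝ) * (Q * (C1 * l ^ (2 * k))) :=
      le_mul_of_one_le_right (by positivity) hQ1
    have h2 : 8 * ((k + 1 : ℝ) + 8) * l * √(x : ℝ) * (Q * (C1 * l ^ (2 * k))) =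
        (8 * (k + 9) * C1 * l ^ (2 * k + 1)) * √(x : ℝ) * Q := by ring
    have h3 : (8 * (k + 9) * C1 * l ^ (2 * k + 1)) * √(x : ℝ) * Q ≤ (η * √(x : ℝ)) * √(x : ℝ) * Q := by gcongr
    have h4 : (η * √(x : ℝ)) * √(x : ℝ) * Q = η * (√(x : ℝ) * √(x : ℝ) * Q) := by ring
    rw [h4, hss] at h3
    linarith
  -- the sieve bounds
  have hPe : ∏ p ∈ (pz y).filter (fun p => ¬ p ∣ 1), (1 - (nuT T p : ℝ) / p) = Q := by
    rw [hQ]
    unfold PiT
    apply prod_congr _ (fun _ _ => rfl)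
    rw [filter_true_of_mem]
    intro p hp h1
    exact (mem_pz.1 hp).2.one_lt.ne' (Nat.dvd_one.1 h1)
  have hky : √(x : ℝ) + k * y ≤ (k + 1) * √(x : ℝ) := by
    have : (k : ℝ) * y ≤ k * √(x : ℝ) := mul_le_mul_of_nonneg_left hy2 (Nat.cast_nonneg _)
    linarith
  have hAc : (A.card : ℝ) ≤ 3 * (x * Q) := by
    have h1 := hsv x y (by omega) hyK3 T hT 0 1 x
    rw [hPe] at h1
    have h2 : A.card ≤ ((Icc 1 x).filter (fun j : ℕ => ∀ h ∈ T, IsP (0 + (1 : ℕ) * (j : ℤ) - h))).card := by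
      apply card_le_card
      intro n hn
      rw [mem_filter]
      refine ⟨hA hn, fun h hh => ?_⟩
      have := hAT n hn h hh
      convert this using 1
      push_cast
      ring
    have h3 : (A.card : ℝ) ≤ (((Icc 1 x).filter (fun j : ℕ => ∀ h ∈ T, IsP (0 + (1 : ℕ) * (j : ℤ) - h))).card : ℝ) := by
      exact_mod_cast h2
    linarith
  -- the decomposition of the sum
  obtain ⟨v, hv⟩ : ∃ v : ℕ → ℕ, v = fun (n : ℕ) => ((n : ℤ) + a + W * t).toNat := ⟨_, rfl⟩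
  have hvr : ∀ n ∈ A, ((v n : ℕ) : ℤ) = (n : ℤ) + a + W * t ∧ 1 ≤ v n ∧ v n ≤ 2 * x := by
    intro n hn
    have h1 := hr n hn t ht
    rw [hv]
    simp only
    omega
  have hBv : ∀ n ∈ A, n ∈ B ↔ (v n).Prime := by
    intro n hn
    rw [hB n]
    rw [hv]
    unfold IsP
    simp only
    exact ⟨fun h => h.2, fun h => ⟨hn, h⟩⟩
  obtain ⟨D, hD⟩ : ∃ D, D = ∑ n ∈ A, Λ (v n) := ⟨_, rfl⟩
  have hdiff' : |D - (Vz w)⁻¹ * ((A.filter (fun n : ℕ => Sf (pz w) (n + a))).card : ℝ)| ≤ η / 2 * (x * Q) := by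
    rw [hD, hv]
    exact hdiff
  obtain ⟨e1, he1⟩ : ∃ e1, e1 = ∑ n ∈ A, (if (v n).Prime then 0 else Λ (v n)) := ⟨_, rfl⟩
  have he10 : 0 ≤ e1 := by
    rw [he1]
    apply sum_nonneg
    intro n _
    split_ifs
    · exact le_rfl
    · exact ArithmeticFunction.vonMangoldt_nonneg
  have hDs : D = ∑ n ∈ B, Real.log (v n) + e1 := by
    rw [hD, he1]
    have h1 : ∑ n ∈ B, Real.log (v n) = ∑ n ∈ A, (if (v n).Prime then Real.log (v n) else 0) := by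
      rw [← sum_filter]
      apply sum_congr _ (fun _ _ => rfl)
      ext n
      rw [mem_filter]
      constructor
      · intro h
        exact ⟨hBA h, (hBv n (hBA h)).1 h⟩
      · rintro ⟨h2, h3⟩
        exact (hBv n h2).2 h3
    rw [h1, ← sum_add_distrib]
    apply sum_congr rfl
    intro n _
    split_ifs with h2
    · rw [add_zero, ArithmeticFunction.vonMangoldt_apply_prime h2]
    · rw [zero_add]
  have he1b : e1 ≤ 8 * (√(x : ℝ) * l) := by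
    have h1 := pp_inj A v (2 * x) (by omega) (by
      intro n hn n' hn' he
      have h1 := (hvr n hn).1
      have h2 := (hvr n' hn').1
      rw [he, h2] at h1
      omega) (fun n hn => (hvr n hn).2)
    rw [← he1] at h1
    have h2 : √((2 * x : ℕ) : ℝ) ≤ 2 * √(x : ℝ) := by
      push_cast
      rw [Real.sqrt_mul (by norm_num)]
      have : √(2 : ℝ) ≤ 2 := by
        rw [Real.sqrt_le_left (by norm_num)]
        norm_num
      gcongr
    have h3 : Real.log ((2 * x : ℕ) : ℝ) ≤ 2 * l := by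
      push_cast
      rw [Real.log_mul (by norm_num) hx0.ne', ← hl]
      have := Real.log_two_lt_d9
      linarith
    have h4 : 0 ≤ Real.log ((2 * x : ℕ) : ℝ) := Real.log_natCast_nonneg _
    calc e1 ≤ 2 * √((2 * x : ℕ) : ℝ) * Real.log ((2 * x : ℕ) : ℝ) := h1
      _ ≤ 2 * (2 * √(x : ℝ)) * (2 * l) := by gcongr
      _ = 8 * (√(x : ℝ) * l) := by ring
  -- small and big values
  obtain ⟨As, hAs⟩ : ∃ As, As = B.filter (fun n => v n ≤ ⌊(x : ℝ) / l ^ 2⌋₊) := ⟨_, rfl⟩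
  obtain ⟨Ab, hAb⟩ : ∃ Ab, Ab = B.filter (fun n => ¬ v n ≤ ⌊(x : ℝ) / l ^ 2⌋₊) := ⟨_, rfl⟩
  have hNc : (B.card : ℝ) = Ab.card + As.card := by
    rw [hAs, hAb, add_comm]
    exact_mod_cast (card_filter_add_card_filter_not (s := B) (fun n => v n ≤ ⌊(x : ℝ) / l ^ (2 : ℕ)⌋₊)).symm
  have hAs2 : (As.card : ℝ) ≤ 2 * (x * Q) / l ^ 2 + (k + 1) * √(x : ℝ) := by
    have h1 := hsv x y (by omega) hyK3 T hT (-(a + W * t)) 1 ⌊(x : ℝ) / l ^ 2⌋₊
    rw [hPe] at h1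
    have h2 : As.card ≤ ((Icc 1 ⌊(x : ℝ) / l ^ 2⌋₊).filter
        (fun j : ℕ => ∀ h ∈ T, IsP (-(a + W * t) + (1 : ℕ) * (j : ℤ) - h))).card := by
      apply card_le_card_of_injOn v
      · intro n hn
        rw [hAs] at hn
        simp only [coe_filter, Set.mem_setOf_eq] at hn
        obtain ⟨hn1, hn2⟩ := hn
        have h3 := hvr n (hBA hn1)
        simp only [coe_filter, mem_Icc, Set.mem_setOf_eq]
        refine ⟨⟨h3.2.1, hn2⟩, fun h hh => ?_⟩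
        have h4 := hAT n (hBA hn1) h hh
        convert h4 using 1
        push_cast
        rw [h3.1]
        ring
      · intro n hn n' hn' he
        rw [hAs] at hn hn'
        simp only [coe_filter, Set.mem_setOf_eq] at hn hn'
        have h3 := (hvr n (hBA hn.1)).1
        have h4 := (hvr n' (hBA hn'.1)).1
        rw [he, h4] at h3
        omega
    have h3 : (As.card : ℝ) ≤ (((Icc 1 ⌊(x : ℝ) / l ^ 2⌋₊).filter
        (fun j : ℕ => ∀ h ∈ T, IsP (-(a + W * t) + (1 : ℕ) * (j : ℤ) - h))).card : ℝ) := by exact_mod_cast h2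
    have h4 : ((⌊(x : ℝ) / l ^ 2⌋₊ : ℕ) : ℝ) ≤ x / l ^ 2 := Nat.floor_le (by positivity)
    have h5 : 2 * (((⌊(x : ℝ) / l ^ 2⌋₊ : ℕ) : ℝ) * Q) ≤ 2 * (x * Q) / l ^ 2 := by
      calc 2 * (((⌊(x : ℝ) / l ^ 2⌋₊ : ℕ) : ℝ) * Q) ≤ 2 * (x / l ^ 2 * Q) := by gcongr
        _ = 2 * (x * Q) / l ^ 2 := by ring
    linarith
  have hlogb : ∀ n ∈ Ab, l - 2 * Real.log l ≤ Real.log (v n) := by
    intro n hn
    rw [hAb, mem_filter, not_le] at hn
    have h1 : (x : ℝ) / l ^ 2 < v n := (Nat.floor_lt' (by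
      have := (hvr n (hBA hn.1)).2.1
      omega)).1 hn.2
    have h2 : Real.log ((x : ℝ) / l ^ 2) = l - 2 * Real.log l := by
      rw [Real.log_div hx0.ne' (by positivity), ← hl, Real.log_pow]
      push_cast
      ring
    rw [← h2]
    exact Real.log_le_log (by positivity) h1.le
  have hlogn : ∀ n ∈ A, 0 ≤ Real.log (v n) ∧ Real.log (v n) ≤ l + 1 := by
    intro n hn
    obtain ⟨_, h1, h2⟩ := hvr n hn
    refine ⟨Real.log_natCast_nonneg _, ?_⟩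
    have h3 : Real.log (v n) ≤ Real.log ((2 * x : ℕ) : ℝ) := by
      apply Real.log_le_log (by exact_mod_cast h1)
      exact_mod_cast h2
    push_cast at h3
    rw [Real.log_mul (by norm_num) hx0.ne', ← hl] at h3
    have := Real.log_two_lt_d9
    linarith
  have hBs : ∑ n ∈ B, Real.log (v n) = ∑ n ∈ As, Real.log (v n) + ∑ n ∈ Ab, Real.log (v n) := by
    rw [hAs, hAb]
    exact (sum_filter_add_sum_filter_not _ _ _).symm
  have hs1 : 0 ≤ ∑ n ∈ As, Real.log (v n) := sum_nonneg fun n hn => by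
    rw [hAs, mem_filter] at hn
    exact (hlogn n (hBA hn.1)).1
  have hs2 : (l - 2 * Real.log l) * Ab.card ≤ ∑ n ∈ Ab, Real.log (v n) := by
    have := card_nsmul_le_sum Ab (fun n => Real.log (v n)) _ hlogb
    rw [nsmul_eq_mul] at this
    linarith
  have hs3 : ∑ n ∈ B, Real.log (v n) ≤ (l + 1) * B.card := by
    have := sum_le_card_nsmul B (fun n => Real.log (v n)) (l + 1) (fun n hn => (hlogn n (hBA hn)).2)
    rw [nsmul_eq_mul] at this
    linarith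
  have hV0 := inv_pos.2 (Vz_pos w)
  have hDup : D ≤ (3 * (Vz w)⁻¹ + η) * (x * Q) := by
    have h1 := (abs_le.1 hdiff').2
    have h2 : ((A.filter (fun n : ℕ => Sf (pz w) (n + a))).card : ℝ) ≤ A.card := by
      exact_mod_cast card_filter_le _ _
    have h3 : (Vz w)⁻¹ * ((A.filter (fun n : ℕ => Sf (pz w) (n + a))).card : ℝ) ≤ (Vz w)⁻¹ * (3 * (x * Q)) :=
      mul_le_mul_of_nonneg_left (h2.trans hAc) hV0.le
    nlinarith
  have hfin := comp (D := D) (Nt := B.card) (Ab := Ab.card) (As := As.card) (e1 := e1) (l := l) (x := x) (Q := Q)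
    (V := (Vz w)⁻¹) (η := η) (lg := Real.log l) (kk := k + 1) (R := √(x : ℝ)) l1 b5 b6 hPi hx0 hNc (Nat.cast_nonneg _)
    (Nat.cast_nonneg _) (by linarith) (by linarith) (by
      rw [hDs, hBs, hNc]
      nlinarith) hDup hAs2 (by positivity) he1b hsq0.le b1 b2 hR2 hη
  have h1 := abs_add_le (l * (B.card : ℝ) - D) (D - (Vz w)⁻¹ * ((A.filter (fun n : ℕ => Sf (pz w) (n + a))).card : ℝ))
  have h2 : l * (B.card : ℝ) - D + (D - (Vz w)⁻¹ * ((A.filter (fun n : ℕ => Sf (pz w) (n + a))).card : ℝ)) =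
      l * B.card - (Vz w)⁻¹ * ((A.filter (fun n : ℕ => Sf (pz w) (n + a))).card : ℝ) := by ring
  rw [h2] at h1
  linarith

end Pool.Agent.K9h54.TF
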