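import Pool.Agent.K9h54.TF.Core2
import Pool.Agent.K9h54.MP.Ax

set_option autoImplicit false

/-!
# One more prime: from the von Mangoldt function to the primes
-/

namespace Pool.Agent.K9h54.TF

open Finset Filter
open scoped ArithmeticFunction.vonMangoldt
open Pool.Agent.H387R2.Uni (nuT)
open Pool.Agent.H373R2.T7 (lamz pz mem_pz Vz Vz_pos)
open Pool.Agent.K9h54.MP (pow_le_exp pp_inj)

/-- the conditions on `l = log x` -/
structure Big2 (k : ℕ) (C1 V η l : ℝ) : Prop where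
  l1 : 4 ≤ l
  b1 : 32 * Real.log l * (3 * V + η) ≤ η * l
  b2 : 16 ≤ η * l
  b3 : 8 * (k + 9) * C1 * l ^ (2 * k + 1) ≤ η * Real.exp (l / 2)
  b4 : (k + 1) * C1 * l ^ (2 * k) ≤ Real.exp (l / 2)
  b5 : 1 ≤ Real.log l
  b6 : 4 * Real.log l ≤ l

theorem big2 (k : ℕ) (C1 V η : ℝ) (hη : 0 < η) : ∀ᶠ l : ℝ in atTop, Big2 k C1 V η l := by
  have hlog : ∀ c : ℝ, ∀ᶠ l : ℝ in atTop, c * Real.log l ≤ l := by
    intro c
    filter_upwards [Real.tendsto_log_atTop.eventually (pow_le_exp c 1 1 one_pos), eventually_gt_atTop (0 : ℝ)]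
      with l h1 h2
    rw [pow_one, one_mul, Real.exp_log h2] at h1
    exact h1
  filter_upwards [eventually_ge_atTop (4 : ℝ), hlog (32 * (3 * V + η) / η), eventually_ge_atTop (16 / η),
    pow_le_exp (8 * (k + 9) * C1 / η) (1 / 2) (2 * k + 1) (by norm_num),
    pow_le_exp ((k + 1) * C1) (1 / 2) (2 * k) (by norm_num),
    Real.tendsto_log_atTop.eventually (eventually_ge_atTop (1 : ℝ)), hlog 4] with l h1 h2 h3 h4 h5 h6 h7
  have e1 : (1 / 2 : ℝ) * l = l / 2 := by ring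
  rw [e1] at h4 h5
  refine ⟨h1, ?_, ?_, ?_, h5, h6, h7⟩
  · have h8 := mul_le_mul_of_nonneg_left h2 hη.le
    refine le_trans (le_of_eq ?_) h8
    field_simp
  · rw [div_le_iff₀ hη] at h3
    linarith
  · have h8 := mul_le_mul_of_nonneg_left h4 hη.le
    refine le_trans (le_of_eq ?_) h8
    field_simp

/-- the comparison of the two ways to count -/
theorem comp {D Nt Ab As e1 l x Q V η lg kk R : ℝ} (hl : 4 ≤ l) (hlg1 : 1 ≤ lg) (hlg : 4 * lg ≤ l) (hQ : 0 < Q) (hx : 0 < x)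
    (hN : Nt = Ab + As) (hAb0 : 0 ≤ Ab) (hAs0 : 0 ≤ As) (hD1 : (l - 2 * lg) * Ab ≤ D)
    (hD2 : D ≤ (l + 1) * Nt + e1) (hD3 : l * Nt - D ≤ 2 * lg * Ab + l * As)
    (hDup : D ≤ (3 * V + η) * (x * Q)) (hAs : As ≤ 2 * (x * Q) / l ^ 2 + kk * R) (hkk : 0 ≤ kk)
    (he1 : e1 ≤ 8 * (R * l)) (hR : 0 ≤ R) (b1 : 32 * lg * (3 * V + η) ≤ η * l) (b2 : 16 ≤ η * l)
    (b3 : 8 * (kk + 8) * l * R ≤ η * (x * Q)) (hη : 0 < η) :
    |l * Nt - D| ≤ η / 2 * (x * Q) := by
  have hxQ : 0 < x * Q := by positivity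
  have hl0 : 0 < l := by linarith
  have hD0 : 0 ≤ D := le_trans (mul_nonneg (by linarith) hAb0) hD1
  have h1 : l / 2 * Ab ≤ D := le_trans (mul_le_mul_of_nonneg_right (by linarith) hAb0) hD1
  have h2 : l * As ≤ η / 8 * (x * Q) + kk * l * R := by
    have h3 : l * As ≤ l * (2 * (x * Q) / l ^ 2 + kk * R) := mul_le_mul_of_nonneg_left hAs hl0.le
    have h4 : l * (2 * (x * Q) / l ^ 2 + kk * R) = 2 / l * (x * Q) + kk * l * R := by field_simp
    have h5 : 2 / l ≤ η / 8 := by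
      rw [div_le_iff₀ hl0]
      linarith
    have h6 := mul_le_mul_of_nonneg_right h5 hxQ.le
    linarith
  -- `lg * Ab ≤ 2 lg D / l`
  have h3 : 2 * lg * Ab ≤ η / 8 * (x * Q) := by
    have h4 : l * (2 * lg * Ab) ≤ 4 * lg * ((3 * V + η) * (x * Q)) := by
      have : l * (2 * lg * Ab) = 4 * lg * (l / 2 * Ab) := by ring
      rw [this]
      exact mul_le_mul_of_nonneg_left (h1.trans hDup) (by linarith)
    have h5 : 4 * lg * ((3 * V + η) * (x * Q)) = (32 * lg * (3 * V + η)) / 8 * (x * Q) := by ring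
    have h6 : (32 * lg * (3 * V + η)) / 8 * (x * Q) ≤ η * l / 8 * (x * Q) := by gcongr
    have h7 : l * (2 * lg * Ab) ≤ l * (η / 8 * (x * Q)) := by
      have : η * l / 8 * (x * Q) = l * (η / 8 * (x * Q)) := by ring
      linarith
    exact le_of_mul_le_mul_left h7 hl0
  have h4 : Ab ≤ η / 8 * (x * Q) := by
    have : Ab ≤ 2 * lg * Ab := by nlinarith
    linarith
  have h5 : As ≤ l * As := by nlinarith
  rw [abs_le]
  constructor
  · -- D ≤ l Nt + Nt + e1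
    have : D - l * Nt ≤ Ab + As + e1 := by
      rw [hN] at hD2 ⊢
      nlinarith
    nlinarith
  · nlinarith

end Pool.Agent.K9h54.TF
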