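import Pool.Agent.K9h54.TF.Up2

set_option autoImplicit false

/-!
# One more prime: the constants of the two shapes of prime quadruples
-/

namespace Pool.Agent.K9h54.TF

open Finset Filter
open Pool.Agent.H387R2.Uni (nuT locT CT CT_hasProd CT_nonneg)
open Pool.Agent.H373R2.T7 (pz mem_pz Vz Vz_pos)

theorem small_prime {p : ℕ} (hp : p.Prime) (h : p < 11) : p = 2 ∨ p = 3 ∨ p = 5 ∨ p = 7 := by
  interval_cases p <;> revert hp <;> norm_num

theorem img_big {a b c d p : ℕ} (ha : a < p) (hb : b < p) (hc : c < p) (hd : d < p) :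
    ({a, b, c, d} : Finset ℕ).image (· % p) = {a, b, c, d} := by
  rw [image_insert, image_insert, image_insert, image_singleton, Nat.mod_eq_of_lt ha, Nat.mod_eq_of_lt hb,
    Nat.mod_eq_of_lt hc, Nat.mod_eq_of_lt hd]

theorem nu1_big {p : ℕ} (hp : 11 ≤ p) : nuT {0, 2, 6, 8} p = 4 := by
  unfold nuT
  rw [img_big (by omega) (by omega) (by omega) (by omega)]
  rfl

theorem nu2_big {p : ℕ} (hp : 11 ≤ p) : nuT {0, 4, 6, 10} p = 4 := by
  unfold nuT
  rw [img_big (by omega) (by omega) (by omega) (by omega)]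
  rfl

theorem nu1_2 : nuT {0, 2, 6, 8} 2 = 1 := by decide
theorem nu1_3 : nuT {0, 2, 6, 8} 3 = 2 := by decide
theorem nu1_5 : nuT {0, 2, 6, 8} 5 = 4 := by decide
theorem nu1_7 : nuT {0, 2, 6, 8} 7 = 4 := by decide
theorem nu2_2 : nuT {0, 4, 6, 10} 2 = 1 := by decide
theorem nu2_3 : nuT {0, 4, 6, 10} 3 = 2 := by decide
theorem nu2_5 : nuT {0, 4, 6, 10} 5 = 3 := by decide
theorem nu2_7 : nuT {0, 4, 6, 10} 7 = 4 := by decide

theorem adm1 (p : ℕ) (hp : p.Prime) : nuT {0, 2, 6, 8} p < p := by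
  rcases lt_or_ge p 11 with h | h
  · rcases small_prime hp h with rfl | rfl | rfl | rfl
    · rw [nu1_2]; norm_num
    · rw [nu1_3]; norm_num
    · rw [nu1_5]; norm_num
    · rw [nu1_7]; norm_num
  · rw [nu1_big h]; omega

theorem adm2 (p : ℕ) (hp : p.Prime) : nuT {0, 4, 6, 10} p < p := by
  rcases lt_or_ge p 11 with h | h
  · rcases small_prime hp h with rfl | rfl | rfl | rfl
    · rw [nu2_2]; norm_num
    · rw [nu2_3]; norm_num
    · rw [nu2_5]; norm_num
    · rw [nu2_7]; norm_num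
  · rw [nu2_big h]; omega

/-- the factors of the constant `E` -/
noncomputable def ef (q : ℕ) : ℝ := if 3 < q then (q : ℝ) ^ 3 * (q - 4) / (q - 1) ^ 4 else 1

theorem ef_eq {q : ℕ} (hq : 5 ≤ q) : (1 - (4 : ℝ) / q) / (1 - 1 / (q : ℝ)) ^ 4 = ef q := by
  unfold ef
  rw [if_pos (by omega)]
  have h1 : (5 : ℝ) ≤ q := by exact_mod_cast hq
  have h2 : (q : ℝ) - 1 ≠ 0 := by linarith
  have h3 : (q : ℝ) ≠ 0 := by linarith
  have h4 : 1 - 1 / (q : ℝ) = (q - 1) / q := by field_simp
  have h5 : 1 - (4 : ℝ) / q = (q - 4) / q := by field_simp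
  rw [h4, h5, div_pow]
  field_simp

theorem card1 : ({0, 2, 6, 8} : Finset ℕ).card = 4 := by decide
theorem card2 : ({0, 4, 6, 10} : Finset ℕ).card = 4 := by decide

/-- the ratios of the local factors of the shapes to the factors of `E` -/
noncomputable def g1 (q : ℕ) : ℝ := if q = 2 then 8 else if q = 3 then 27 / 16 else 1
noncomputable def g2 (q : ℕ) : ℝ := if q = 2 then 8 else if q = 3 then 27 / 16 else if q = 5 then 2 else 1

theorem loc1 {q : ℕ} (hq : q.Prime) : locT {0, 2, 6, 8} q = g1 q * ef q := by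
  unfold locT
  rw [card1]
  rcases lt_or_ge q 11 with h | h
  · rcases small_prime hq h with rfl | rfl | rfl | rfl
    · rw [nu1_2, g1, ef]; norm_num
    · rw [nu1_3, g1, ef]; norm_num
    · rw [nu1_5, g1]
      have := ef_eq (q := 5) le_rfl
      norm_num at this ⊢
      exact this
    · rw [nu1_7, g1]
      have := ef_eq (q := 7) (by norm_num)
      norm_num at this ⊢
      exact this
  · rw [nu1_big h, g1, if_neg (by omega), if_neg (by omega), one_mul, ← ef_eq (by omega)]
    norm_num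

theorem loc2 {q : ℕ} (hq : q.Prime) : locT {0, 4, 6, 10} q = g2 q * ef q := by
  unfold locT
  rw [card2]
  rcases lt_or_ge q 11 with h | h
  · rcases small_prime hq h with rfl | rfl | rfl | rfl
    · rw [nu2_2, g2, ef]; norm_num
    · rw [nu2_3, g2, ef]; norm_num
    · rw [nu2_5, g2, ef]; norm_num
    · rw [nu2_7, g2]
      have := ef_eq (q := 7) (by norm_num)
      norm_num at this ⊢
      exact this
  · rw [nu2_big h, g2, if_neg (by omega), if_neg (by omega), if_neg (by omega), one_mul, ← ef_eq (by omega)]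
    norm_num

/-- removing finitely many factors -/
theorem ef_prod {H : Finset ℕ} {g : ℕ → ℝ} (hloc : ∀ q : ℕ, q.Prime → locT H q = g q * ef q) (hg : ∀ q, 0 < g q)
    (s : Finset Nat.Primes) (hs : ∀ q : Nat.Primes, q ∉ s → g q = 1) :
    (∏ q ∈ s, g q) * ∏' q : Nat.Primes, ef q = CT H := by
  have h1 : HasProd (fun q : Nat.Primes => (g q)⁻¹) (∏ q ∈ s, (g q)⁻¹) :=
    hasProd_prod_of_ne_finset_one fun q hq => by rw [hs q hq, inv_one]
  have h2 := (CT_hasProd H).mul h1
  have h3 : (fun q : Nat.Primes => locT H q * (g q)⁻¹) = fun q : Nat.Primes => ef q := by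
    funext q
    rw [hloc q q.2, mul_comm (g q), mul_assoc, mul_inv_cancel₀ (hg q).ne', mul_one]
  rw [h3] at h2
  rw [h2.tprod_eq, prod_inv_distrib]
  have h4 : ∏ q ∈ s, g q ≠ 0 := prod_ne_zero_iff.2 fun q _ => (hg q).ne'
  field_simp

theorem E1 : 27 / 2 * ∏' q : Nat.Primes, ef q = CT {0, 2, 6, 8} := by
  have h := ef_prod (H := {0, 2, 6, 8}) (g := g1) (fun q hq => loc1 hq) (fun q => by unfold g1; split_ifs <;> norm_num)
    {⟨2, Nat.prime_two⟩, ⟨3, Nat.prime_three⟩} (by
      intro q hq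
      simp only [mem_insert, mem_singleton, not_or] at hq
      unfold g1
      rw [if_neg (fun h => hq.1 (Subtype.ext h)), if_neg (fun h => hq.2 (Subtype.ext h))])
  rw [← h, prod_pair (by intro h; have := congrArg Subtype.val h; norm_num at this)]
  simp only [g1]
  norm_num

theorem E2 : 2 * (27 / 2 * ∏' q : Nat.Primes, ef q) = CT {0, 4, 6, 10} := by
  have h := ef_prod (H := {0, 4, 6, 10}) (g := g2) (fun q hq => loc2 hq) (fun q => by unfold g2; split_ifs <;> norm_num)
    {⟨2, Nat.prime_two⟩, ⟨3, Nat.prime_three⟩, ⟨5, Nat.prime_five⟩} (by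
      intro q hq
      simp only [mem_insert, mem_singleton, not_or] at hq
      unfold g2
      rw [if_neg (fun h => hq.1 (Subtype.ext h)), if_neg (fun h => hq.2.1 (Subtype.ext h)),
        if_neg (fun h => hq.2.2 (Subtype.ext h))])
  rw [← h, prod_insert (by
      simp only [mem_insert, mem_singleton, not_or]
      constructor
      · intro h; have := congrArg Subtype.val h; norm_num at this
      · intro h; have := congrArg Subtype.val h; norm_num at this),
    prod_pair (by intro h; have := congrArg Subtype.val h; norm_num at this)]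
  simp only [g2]
  norm_num
  ring

/-- the covering of the small primes by the elements of a tuple -/
theorem cov_gen {w b : ℕ} {H : Finset ℕ} (h : ((∏ q ∈ pz w, q : ℕ) : ℤ) ∣ ∏ h ∈ H, ((b : ℤ) - h)) :
    ∀ p ∈ pz w, ∃ h ∈ H, h % p = b % p := by
  intro p hp
  have h1 : (p : ℤ) ∣ ∏ h ∈ H, ((b : ℤ) - h) :=
    (Int.natCast_dvd_natCast.2 (dvd_prod_of_mem (fun q : ℕ => q) hp)).trans h
  obtain ⟨g, hg, hgd⟩ := (Nat.prime_iff_prime_int.1 (mem_pz.1 hp).2).exists_mem_finset_dvd h1
  exact ⟨g, hg, (Nat.modEq_iff_dvd (n := p) (a := g) (b := b)).2 hgd⟩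

end Pool.Agent.K9h54.TF
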