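import Pool.Agent.K9h54.TF.Nu
import Pool.Agent.H373R2.T7.Fund

set_option autoImplicit false

/-!
# One more prime: the upper bound sieve for tuples in progressions
-/

namespace Pool.Agent.K9h54.TF

open Finset
open Pool.Agent.H387R2.Uni (nuT)
open Pool.Agent.H373R2.T7 (nuB PerB pz mem_pz sys_fund)

/-- a prime number, as an integer -/
def IsP (v : ℤ) : Prop := v.toNat.Prime

theorem IsP.pos {v : ℤ} (h : IsP v) : 0 < v := by
  have := Nat.Prime.pos h
  omega

theorem IsP.toNat {v : ℤ} (h : IsP v) : ((v.toNat : ℕ) : ℤ) = v := Int.toNat_of_nonneg h.pos.le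

/-- the density of the tuple `T` among the integers without small prime factors -/
noncomputable def PiT (T : Finset ℕ) (y : ℕ) : ℝ := ∏ p ∈ pz y, (1 - (nuT T p : ℝ) / p)

open Classical in
/-- the upper bound sieve for a tuple in a progression -/
theorem sieve (k : ℕ) (hk : 1 ≤ k) : ∃ K x0 : ℕ, 1 ≤ K ∧ ∀ x y : ℕ, x0 ≤ y → y ^ K ≤ x →
    ∀ T : Finset ℕ, T.card ≤ k → ∀ (c : ℤ) (m J : ℕ),
      (((Icc 1 J).filter (fun j : ℕ => ∀ h ∈ T, IsP (c + m * j - h))).card : ℝ) ≤
        2 * (J * ∏ p ∈ (pz y).filter (fun p => ¬ p ∣ m), (1 - (nuT T p : ℝ) / p)) + √(x : ℝ) + k * y := by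
  obtain ⟨K, x0, hK, hF⟩ := fund k hk 1 one_pos
  refine ⟨K, x0, hK, fun x y hy hyx T hT c m J => ?_⟩
  rcases Nat.eq_zero_or_pos m with hm0 | hm0
  · -- the value does not depend on `j`
    subst hm0
    have e1 : (pz y).filter (fun p => ¬ p ∣ 0) = ∅ := by
      rw [filter_eq_empty_iff]
      intro p _ h
      exact h (dvd_zero p)
    rw [e1, prod_empty, mul_one]
    have h1 : (((Icc 1 J).filter (fun j : ℕ => ∀ h ∈ T, IsP (c + (0 : ℕ) * j - h))).card : ℝ) ≤ J := by
      have := card_filter_le (Icc 1 J) (fun j : ℕ => ∀ h ∈ T, IsP (c + (0 : ℕ) * j - h))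
      rw [Nat.card_Icc, Nat.add_sub_cancel] at this
      exact_mod_cast this
    have h2 : 0 ≤ √(x : ℝ) := Real.sqrt_nonneg _
    have h3 : (0 : ℝ) ≤ k * y := by positivity
    have h4 : (0 : ℝ) ≤ J := Nat.cast_nonneg _
    linarith
  have hR : ∀ p : ℕ, p.Prime → ¬ p ∣ m → ¬ (p : ℤ) ∣ (m : ℤ) := fun p _ h h2 => h (Int.natCast_dvd_natCast.1 h2)
  obtain ⟨F, hFd⟩ : ∃ F, F = (Icc 1 J).filter
    (fun n : ℕ => ∀ p ∈ pz y, ¬ (¬ p ∣ m ∧ ∃ h ∈ T, (p : ℤ) ∣ c + m * n - h)) := ⟨_, rfl⟩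
  have h1 := hF x y hy hyx T hT c m (fun p => ¬ p ∣ m) hR ((pz y).filter (fun p => ¬ p ∣ m))
    (fun p => by rw [mem_filter]) J F (fun n => by rw [hFd, mem_filter])
  have hsub : (Icc 1 J).filter (fun j : ℕ => ∀ h ∈ T, IsP (c + m * j - h)) ⊆
      F ∪
        T.biUnion (fun h => (Icc 1 J).filter (fun j : ℕ => 1 ≤ c + m * j - h ∧ c + m * j - h ≤ y)) := by
    intro j hj
    rw [mem_filter] at hj
    rw [mem_union]
    by_cases hs : ∃ h ∈ T, c + m * j - h ≤ y
    · right
      obtain ⟨h, hh, h2⟩ := hs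
      rw [mem_biUnion]
      refine ⟨h, hh, ?_⟩
      rw [mem_filter]
      have := (hj.2 h hh).pos
      exact ⟨hj.1, by omega, h2⟩
    · left
      push Not at hs
      rw [hFd, mem_filter]
      refine ⟨hj.1, ?_⟩
      rintro p hp ⟨_, h, hh, h2⟩
      rw [mem_pz] at hp
      have h3 := hs h hh
      have h4 := hj.2 h hh
      have h5 := h4.toNat
      rw [← h5] at h2 h3
      have h6 : p ∣ (c + m * j - h).toNat := Int.natCast_dvd_natCast.1 h2
      have h7 := (Nat.prime_dvd_prime_iff_eq hp.2 h4).1 h6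
      rw [← h7] at h3
      have : y < p := by exact_mod_cast h3
      omega
  have hcard : ∀ h ∈ T, ((Icc 1 J).filter (fun j : ℕ => 1 ≤ c + m * j - h ∧ c + m * j - h ≤ y)).card ≤ y := by
    intro h _
    have h2 : ((Icc 1 J).filter (fun j : ℕ => 1 ≤ c + m * j - h ∧ c + m * j - h ≤ y)).card ≤ (Icc 1 y).card := by
      apply card_le_card_of_injOn (fun j : ℕ => (c + m * j - h).toNat)
      · intro j hj
        simp only [coe_filter, mem_Icc, Set.mem_setOf_eq, coe_Icc, Set.mem_Icc] at hj ⊢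
        omega
      · intro j hj j' hj' he
        simp only [coe_filter, mem_Icc, Set.mem_setOf_eq] at hj hj' he
        have h3 : c + m * j - h = c + m * j' - h := by omega
        have h4 : (m : ℤ) * j = m * j' := by linarith
        have h5 : (m : ℤ) ≠ 0 := by omega
        exact_mod_cast mul_left_cancel₀ h5 h4
    rwa [Nat.card_Icc, Nat.add_sub_cancel] at h2
  have h2 : (((Icc 1 J).filter (fun j : ℕ => ∀ h ∈ T, IsP (c + m * j - h))).card : ℝ) ≤
      (F.card : ℝ) + k * y := by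
    have h3 := (card_le_card hsub).trans (card_union_le _ _)
    have h4 : (T.biUnion (fun h => (Icc 1 J).filter (fun j : ℕ => 1 ≤ c + m * j - h ∧ c + m * j - h ≤ y))).card ≤
        k * y := by
      refine (card_biUnion_le.trans (sum_le_sum hcard)).trans ?_
      rw [sum_const, smul_eq_mul]
      exact Nat.mul_le_mul_right _ hT
    have h5 := h3.trans (Nat.add_le_add_left h4 _)
    exact_mod_cast h5
  refine h2.trans ?_
  have h3 := (abs_le.1 h1).2
  linarith

end Pool.Agent.K9h54.TF
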