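import Pool.Agent.K9h54.TF.Fin2

set_option autoImplicit false

/-!
# One more prime: pairs and triples
-/

namespace Pool.Agent.K9h54.TF

open Finset Filter
open Pool.Agent.H387R2.Uni (nuT locT CT CT_hasProd CT_nonneg)
open Pool.Agent.H373R2.T7 (pz mem_pz Vz Vz_pos)

theorem pz_dvd {w p : ℕ} (hp : p ∈ pz w) : p ∣ ∏ q ∈ pz w, q := dvd_prod_of_mem _ hp

/-- a pair of even distance is admissible -/
theorem adm_pair {e : ℕ} (he : Even e) (p : ℕ) (hp : p.Prime) : nuT {0, e} p < p := by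
  rcases hp.two_le.eq_or_lt with h | h
  · subst h
    have h1 : ({0, e} : Finset ℕ).image (· % 2) = {0} := by
      rw [image_insert, image_singleton, Nat.even_iff.1 he]
      rfl
    unfold nuT
    rw [h1]
    norm_num
  · have h1 : nuT {0, e} p ≤ 2 := (nuT_le _ _).trans (card_insert_le _ _)
    omega

/-- the covering of the small primes by the two elements of a pair -/
theorem cov_pair {w e b : ℕ} (h : ((∏ q ∈ pz w, q : ℕ) : ℤ) ∣ (b : ℤ) * ((b : ℤ) - e)) :
    ∀ p ∈ pz w, ∃ h ∈ ({0, e} : Finset ℕ), h % p = b % p := by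
  intro p hp
  have h1 : (p : ℤ) ∣ (b : ℤ) * ((b : ℤ) - e) := (Int.natCast_dvd_natCast.2 (pz_dvd hp)).trans h
  rcases (Nat.prime_iff_prime_int.1 (mem_pz.1 hp).2).dvd_or_dvd h1 with h2 | h2
  · refine ⟨0, by simp, ?_⟩
    have h3 : p ∣ b := by exact_mod_cast h2
    rw [Nat.zero_mod, Nat.mod_eq_zero_of_dvd h3]
  · refine ⟨e, by simp, ?_⟩
    exact (Nat.modEq_iff_dvd (n := p) (a := e) (b := b)).2 h2

end Pool.Agent.K9h54.TF
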