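import Pool.Agent.K9h54.TF.Fin0
import Pool.Agent.K9h54.TF.Fin2

set_option autoImplicit false

/-!
# One more prime: shifts upwards
-/

namespace Pool.Agent.K9h54.TF

open Finset Filter
open Pool.Agent.H387R2.Uni (nuT locT CT CT_hasProd CT_nonneg)
open Pool.Agent.H373R2.T7 (pz mem_pz Vz Vz_pos)
open Pool.Agent.K9h54.MP (pow_le_exp)

theorem nuT_zmod (T : Finset ℕ) (p : ℕ) [NeZero p] : nuT T p = (T.image (fun h : ℕ => (h : ZMod p))).card := by
  classical
  unfold nuT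
  apply card_bij (fun (j : ℕ) _ => (j : ZMod p))
  · intro j hj
    obtain ⟨h, hh, rfl⟩ := mem_image.1 hj
    exact mem_image.2 ⟨h, hh, by rw [ZMod.natCast_mod]⟩
  · intro j hj j' hj' h
    obtain ⟨a, _, rfl⟩ := mem_image.1 hj
    obtain ⟨a', _, rfl⟩ := mem_image.1 hj'
    have h3 := (ZMod.natCast_eq_natCast_iff' _ _ p).1 h
    simpa [Nat.mod_mod] using h3
  · intro b hb
    obtain ⟨h, hh, rfl⟩ := mem_image.1 hb
    exact ⟨h % p, mem_image.2 ⟨h, hh, rfl⟩, by rw [ZMod.natCast_mod]⟩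

theorem nu_refl (T : Finset ℕ) (c p : ℕ) (hp : p ≠ 0) (hT : ∀ h ∈ T, h ≤ c) : nuT (T.image (fun h => c - h)) p = nuT T p := by
  classical
  haveI : NeZero p := ⟨hp⟩
  rw [nuT_zmod, nuT_zmod, image_image]
  have h1 : T.image ((fun h : ℕ => (h : ZMod p)) ∘ (fun h => c - h)) =
      (T.image (fun h : ℕ => (h : ZMod p))).image (fun r => (c : ZMod p) - r) := by
    rw [image_image]
    apply image_congr
    intro h hh
    simp only [Function.comp]
    rw [Nat.cast_sub (hT h hh)]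
  rw [h1, card_image_of_injective _ sub_right_injective]

theorem card_refl (T : Finset ℕ) (c : ℕ) (hT : ∀ h ∈ T, h ≤ c) : (T.image (fun h => c - h)).card = T.card := by
  apply card_image_of_injOn
  intro a ha b hb h
  have h1 := hT a ha
  have h2 := hT b hb
  simp only at h
  omega

theorem CT_refl (T : Finset ℕ) (c : ℕ) (hT : ∀ h ∈ T, h ≤ c) : CT (T.image (fun h => c - h)) = CT T := by
  unfold CT locT
  apply tprod_congr
  intro p
  rw [nu_refl T c p p.2.ne_zero hT, card_refl T c hT]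

/-- the conditions on `l = log x` -/
structure Big5 (W C : ℕ) (K1 l : ℝ) : Prop where
  l1 : 4 ≤ l
  k1 : K1 ≤ l
  c4 : l ^ C ≤ Real.exp (l / 2)
  c5 : (2 * W : ℝ) ≤ Real.exp (l / 2)
  c6 : (4 * W : ℝ) ≤ l

theorem big5 (W C : ℕ) (K1 : ℝ) : ∀ᶠ l : ℝ in atTop, Big5 W C K1 l := by
  filter_upwards [eventually_ge_atTop (4 : ℝ), eventually_ge_atTop K1, pow_le_exp 1 (1 / 2) C (by norm_num),
    pow_le_exp (2 * W) (1 / 2) 0 (by norm_num), eventually_ge_atTop (4 * W : ℝ)] with l h1 h2 h5 h6 h7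
  have e1 : (1 / 2 : ℝ) * l = l / 2 := by ring
  rw [e1] at h5 h6
  exact ⟨h1, h2, by linarith, by simpa using h6, h7⟩

/-- shifts upwards: all classes modulo `W` -/
theorem up1 (k : ℕ) (hk : 1 ≤ k) : ∃ C5 : ℝ, 1 ≤ C5 ∧ ∀ ε : ℝ, 0 < ε → ∀ w0 : ℕ, ∃ w : ℕ, w0 ≤ w ∧ 4 ≤ w ∧
    ∀ C : ℕ, ∃ x1 : ℕ, ∀ x : ℕ, x1 ≤ x → ∀ T : Finset ℕ, T.card = k → (∀ p, p.Prime → nuT T p < p) →
    (∀ h ∈ T, h ≤ x) → ∀ A ⊆ Icc 1 x, (∀ n ∈ A, ∀ h ∈ T, (n + h).Prime) →
      ((A.card : ℝ) ≤ C5 * (CT T * (x / Real.log x ^ k)) ∧ 0 < CT T) ∧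
      ∀ u H b : ℕ, (x : ℝ) ≤ H * Real.log x ^ C → u + H ≤ x →
      (((Ioc u (u + H)).filter (fun d : ℕ => d % (∏ q ∈ pz w, q) = b % (∏ q ∈ pz w, q) ∧
        ε * (CT T * (x / Real.log x ^ k)) < |Real.log x * ((A.filter (fun n : ℕ => (n + d).Prime)).card : ℝ) -
          (Vz w)⁻¹ * ((A.filter (fun n : ℕ => (n + d).Coprime (∏ q ∈ pz w, q))).card : ℝ)|)).card : ℝ) ≤
        ε * (H / (∏ q ∈ pz w, q : ℕ)) := by
  classical
  obtain ⟨C5, hC5, hfin⟩ := fin0 k hk
  refine ⟨2 * C5, by linarith, fun ε hε w0 => ?_⟩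
  obtain ⟨η, hη⟩ : ∃ η : ℝ, η = ε / 3 := ⟨_, rfl⟩
  have hη0 : 0 < η := by rw [hη]; positivity
  obtain ⟨w, hw0, hw4, hfin⟩ := hfin η hη0 w0
  refine ⟨w, hw0, hw4, fun C => ?_⟩
  obtain ⟨x1, hfin⟩ := hfin (C + 1)
  obtain ⟨W, hW⟩ : ∃ W : ℕ, W = ∏ q ∈ pz w, q := ⟨_, rfl⟩
  have hW1 : 1 ≤ W := by
    rw [hW]
    exact Nat.pos_of_ne_zero (prod_ne_zero_iff.2 fun q hq => (mem_pz.1 hq).2.ne_zero)
  have hW0r : (0 : ℝ) < W := by exact_mod_cast hW1
  obtain ⟨V, hV⟩ : ∃ V, V = (Vz w)⁻¹ := ⟨_, rfl⟩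
  have hV1 : 1 ≤ V := by rw [hV]; exact (one_le_inv₀ (Vz_pos w)).2 (Vz_le_one w)
  obtain ⟨K1, hK1⟩ : ∃ K1, K1 = (2 * η + 2 * V * C5) / η := ⟨_, rfl⟩
  obtain ⟨X, hX⟩ := evlog (big5 W C K1)
  refine ⟨max (max x1 X) 3, fun x hx T hT hadm hTx A hA hAp => ?_⟩
  have hx3' : 3 ≤ x := (le_max_right _ _).trans hx
  have hx0 : (0 : ℝ) < x := by exact_mod_cast (by omega : 0 < x)
  obtain ⟨l1, k1, c4, c5, c6⟩ := hX x ((le_max_right _ _).trans ((le_max_left _ _).trans hx))
  obtain ⟨A', hA'⟩ : ∃ A', A' = A.image (fun n => n + x) := ⟨_, rfl⟩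
  have hAx : ∀ n ∈ A, n ≤ x := fun n hn => (mem_Icc.1 (hA hn)).2
  have hinj : Function.Injective (fun n : ℕ => n + x) := fun a b h => by simpa using h
  have hfin := hfin (2 * x) (((le_max_left _ _).trans ((le_max_left _ _).trans hx)).trans (by omega))
    (T.image (fun h => x - h)) ((card_refl T x hTx).trans hT) (by
      intro p hp
      rw [nu_refl T x p hp.ne_zero hTx]
      exact hadm p hp) A' (by
      intro n hn
      rw [hA', mem_image] at hn
      obtain ⟨m, hm, rfl⟩ := hn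
      have := hAx m hm
      rw [mem_Icc]
      omega) (by
      intro n hn h hh
      rw [hA', mem_image] at hn
      obtain ⟨m, hm, rfl⟩ := hn
      rw [mem_image] at hh
      obtain ⟨g, hg, rfl⟩ := hh
      have h1 := hTx g hg
      have h2 := hAp m hm g hg
      have e : m + x - (x - g) = m + g := by omega
      rw [e]
      exact h2)
  rw [CT_refl T x hTx] at hfin
  obtain ⟨⟨a1, a3⟩, a4⟩ := hfin
  obtain ⟨l, hl⟩ : ∃ l, l = Real.log x := ⟨_, rfl⟩
  have hxe : Real.exp l = x := by rw [hl, Real.exp_log hx0]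
  obtain ⟨l', hl'⟩ : ∃ l', l' = Real.log ((2 * x : ℕ) : ℝ) := ⟨_, rfl⟩
  have hll : l' = Real.log 2 + l := by
    rw [hl', hl]
    push_cast
    rw [Real.log_mul (by norm_num) hx0.ne']
  rw [← hl] at l1 k1 c4 c5 c6 ⊢
  rw [← hl'] at a1 a4
  rw [← hV, ← hW] at a4
  rw [← hV, ← hW]
  have hl0 : 0 < l := by linarith
  have hlog2 : 0 < Real.log 2 := Real.log_pos (by norm_num)
  have hlog2' : Real.log 2 ≤ 1 := by
    have := Real.log_two_lt_d9
    linarith
  have hll1 : l ≤ l' := by linarith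
  have hsq : √(x : ℝ) = Real.exp (l / 2) := by
    rw [← hxe, Real.sqrt_eq_rpow, ← Real.exp_mul]
    congr 1
    ring
  have hss : √(x : ℝ) * √(x : ℝ) = x := Real.mul_self_sqrt hx0.le
  have hsq0 : 0 < √(x : ℝ) := Real.sqrt_pos.2 hx0
  rw [← hsq] at c4 c5
  obtain ⟨M, hM⟩ : ∃ M, M = CT T * (x / l ^ k) := ⟨_, rfl⟩
  have hM0 : 0 < M := by rw [hM]; positivity
  have hM2 : CT T * (((2 * x : ℕ) : ℝ) / l' ^ k) ≤ 2 * M := by
    have h1 : ((2 * x : ℕ) : ℝ) / l' ^ k ≤ 2 * (x / l ^ k) := by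
      push_cast
      rw [mul_div_assoc]
      gcongr
    have h2 := mul_le_mul_of_nonneg_left h1 a3.le
    rw [hM]
    linarith
  have hAA' : A'.card = A.card := by rw [hA', card_image_of_injective _ hinj]
  have hAM : (A.card : ℝ) ≤ 2 * C5 * M := by
    rw [hAA'] at a1
    have := mul_le_mul_of_nonneg_left hM2 (by linarith : 0 ≤ C5)
    linarith
  rw [← hM]
  refine ⟨⟨hAM, a3⟩, fun u H b hH huH => ?_⟩
  obtain ⟨c, J, hpar1, hpar2, hJ1, hJ2⟩ := param u H b W hW1
  have hH1 : √(x : ℝ) ≤ H := by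
    have h1 : (x : ℝ) ≤ H * √(x : ℝ) := hH.trans (mul_le_mul_of_nonneg_left c4 (Nat.cast_nonneg _))
    have h2 : √(x : ℝ) * √(x : ℝ) ≤ H * √(x : ℝ) := by rw [hss]; exact h1
    exact le_of_mul_le_mul_right h2 hsq0
  have hH2 : 2 ≤ (H : ℝ) / W := by
    rw [le_div_iff₀ hW0r]
    linarith
  have hJ3 : (H : ℝ) / W / 2 ≤ J := by linarith
  have hxJ : ((2 * x : ℕ) : ℝ) ≤ J * l' ^ (C + 1) := by
    have h1 : (H : ℝ) ≤ 2 * W * J := by
      have e : (H : ℝ) = H / W / 2 * (2 * W) := by field_simp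
      rw [e]
      nlinarith
    push_cast
    calc (2 * x : ℝ) ≤ 2 * (H * l ^ C) := by linarith
      _ ≤ 2 * ((2 * W * J) * l' ^ C) := by gcongr
      _ = (4 * W) * (J * l' ^ C) := by ring
      _ ≤ l' * (J * l' ^ C) := by
          apply mul_le_mul_of_nonneg_right (by linarith)
          have : 0 < l' := by linarith
          positivity
      _ = J * l' ^ (C + 1) := by ring
  obtain ⟨a, ha⟩ : ∃ a : ℤ, a = -(x : ℤ) + c - W * (J + 1) := ⟨_, rfl⟩
  have hrange : ∀ n ∈ A', ∀ t ∈ Icc 1 J, 1 ≤ (n : ℤ) + a + (W : ℤ) * t ∧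
      (n : ℤ) + a + (W : ℤ) * t ≤ 2 * ((2 * x : ℕ) : ℤ) := by
    intro n hn t ht
    rw [hA', mem_image] at hn
    obtain ⟨m, hm, rfl⟩ := hn
    have hm1 := mem_Icc.1 (hA hm)
    have ht1 := mem_Icc.1 ht
    obtain ⟨g1, g2, _⟩ := hpar2 (J + 1 - t) (by rw [mem_Icc]; omega)
    have e : ((J + 1 - t : ℕ) : ℤ) = J + 1 - t := by omega
    rw [e] at g1 g2
    have e2 : ((m + x : ℕ) : ℤ) + a + (W : ℤ) * t = m + (c - W * (J + 1 - t)) := by
      rw [ha]
      push_cast
      ring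
    rw [e2]
    push_cast
    constructor
    · have : (1 : ℤ) ≤ m := by exact_mod_cast hm1.1
      have : (0 : ℤ) ≤ u := by positivity
      linarith
    · have : (m : ℤ) ≤ x := by exact_mod_cast hm1.2
      have : (u : ℤ) + H ≤ x := by exact_mod_cast huH
      have : (0 : ℤ) ≤ x := by positivity
      linarith
  obtain ⟨Ex, hExJ, hExc, hEx⟩ := a4 a J hxJ hrange
  have hcard : (((Ioc u (u + H)).filter (fun d : ℕ => d % W = b % W ∧
      ε * M < |l * ((A.filter (fun n : ℕ => (n + d).Prime)).card : ℝ) -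
        V * ((A.filter (fun n : ℕ => (n + d).Coprime W)).card : ℝ)|)).card : ℝ) ≤ Ex.card := by
    have h1 : ((Ioc u (u + H)).filter (fun d : ℕ => d % W = b % W ∧
      ε * M < |l * ((A.filter (fun n : ℕ => (n + d).Prime)).card : ℝ) -
        V * ((A.filter (fun n : ℕ => (n + d).Coprime W)).card : ℝ)|)).image (fun d : ℕ => (d : ℤ)) ⊆
        Ex.image (fun t : ℕ => c - W * (J + 1 - t : ℤ)) := by
      intro d' hd'
      obtain ⟨d, hd, rfl⟩ := mem_image.1 hd'
      rw [mem_filter] at hd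
      obtain ⟨hd1, hd2, hd3⟩ := hd
      obtain ⟨t0, ht0, hdt0⟩ := hpar1 d hd1 hd2
      rw [mem_Icc] at ht0
      obtain ⟨t, ht⟩ : ∃ t : ℕ, t = J + 1 - t0 := ⟨_, rfl⟩
      have htJ : t ∈ Icc 1 J := by rw [mem_Icc]; omega
      have hdt : (d : ℤ) = c - W * (J + 1 - t : ℤ) := by
        rw [hdt0]
        have : ((t : ℕ) : ℤ) = J + 1 - t0 := by omega
        rw [this]
        ring
      rw [mem_image]
      refine ⟨t, ?_, hdt.symm⟩
      by_contra htE
      have hval : ∀ m : ℕ, ((m + x : ℕ) : ℤ) + a + W * t = ((m + d : ℕ) : ℤ) := by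
        intro m
        rw [ha]
        push_cast
        rw [hdt]
        ring
      have hB : A'.filter (fun n : ℕ => IsP ((n : ℤ) + a + W * t)) =
          (A.filter (fun n : ℕ => (n + d).Prime)).image (fun n => n + x) := by
        rw [hA', filter_image]
        congr 1
        apply filter_congr
        intro m _
        rw [hval]
        unfold IsP
        rw [Int.toNat_natCast]
      have hS : A'.filter (fun n : ℕ => Sf (pz w) ((n : ℤ) + a)) =
          (A.filter (fun n : ℕ => (n + d).Coprime W)).image (fun n => n + x) := by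
        rw [hA', filter_image]
        congr 1
        apply filter_congr
        intro m _
        rw [hW, cop_iff]
        unfold Sf
        have h6 : ∀ p ∈ pz w, ((p : ℤ) ∣ ((m + x : ℕ) : ℤ) + a ↔ p ∣ m + d) := by
          intro p hp
          have h7 : (p : ℤ) ∣ (W : ℤ) * t := by
            apply Dvd.dvd.mul_right
            rw [hW]
            exact Int.natCast_dvd_natCast.2 (dvd_prod_of_mem _ hp)
          rw [← Int.natCast_dvd_natCast, ← hval]
          exact (Int.dvd_add_left h7).symm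
        exact forall₂_congr fun p hp => not_congr (h6 p hp)
      have h4 := hEx t htJ htE (A'.filter (fun n : ℕ => IsP ((n : ℤ) + a + W * t))) (filter_subset _ _) (by
        intro n
        rw [mem_filter])
      rw [hB, hS, card_image_of_injective _ hinj, card_image_of_injective _ hinj] at h4
      obtain ⟨B, hBd⟩ : ∃ B : ℝ, B = ((A.filter (fun n : ℕ => (n + d).Prime)).card : ℝ) := ⟨_, rfl⟩
      obtain ⟨S, hSd⟩ : ∃ S : ℝ, S = ((A.filter (fun n : ℕ => (n + d).Coprime W)).card : ℝ) := ⟨_, rfl⟩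
      rw [← hBd, ← hSd] at h4 hd3
      have hSA : S ≤ A.card := by rw [hSd]; exact_mod_cast card_filter_le _ _
      have hB0 : 0 ≤ B := by rw [hBd]; exact Nat.cast_nonneg _
      have h5 : |l' * B - V * S| ≤ 2 * η * M := by
        have := mul_le_mul_of_nonneg_left hM2 hη0.le
        linarith
      have h6 := abs_le.1 h5
      have h7 : l * B ≤ (2 * η + 2 * V * C5) * M := by
        have h8 : V * S ≤ V * (2 * C5 * M) := mul_le_mul_of_nonneg_left (hSA.trans hAM) (by linarith)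
        have h9 : l * B ≤ l' * B := mul_le_mul_of_nonneg_right hll1 hB0
        linarith
      have h8 : B ≤ η * M := by
        have h9 : (2 * η + 2 * V * C5) * M ≤ (l * η) * M := by
          rw [hK1, div_le_iff₀ hη0] at k1
          exact mul_le_mul_of_nonneg_right k1 hM0.le
        have h10 : l * B ≤ l * (η * M) := by linarith
        exact le_of_mul_le_mul_left h10 hl0
      have h9 : |l * B - V * S| ≤ ε * M := by
        have h10 : Real.log 2 * B ≤ 1 * B := mul_le_mul_of_nonneg_right hlog2' hB0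
        have h11 : 0 ≤ Real.log 2 * B := by positivity
        have e1 : l' * B = Real.log 2 * B + l * B := by rw [hll]; ring
        rw [e1] at h6
        have e2 : ε = 3 * η := by rw [hη]; ring
        rw [e2, abs_le]
        constructor <;> linarith
      linarith
    have h2 := card_le_card h1
    rw [card_image_of_injective _ (fun a b h => by exact_mod_cast h)] at h2
    exact_mod_cast h2.trans card_image_le
  refine hcard.trans (hExc.trans ?_)
  have h3 : (J : ℝ) ≤ 2 * (H / W) := by linarith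
  have h4 : 0 ≤ (H : ℝ) / W := by positivity
  calc η * (J : ℝ) ≤ η * (2 * (H / W)) := mul_le_mul_of_nonneg_left h3 hη0.le
    _ = (2 / 3) * ε * (H / W) := by rw [hη]; ring
    _ ≤ ε * (H / W) := mul_le_mul_of_nonneg_right (by linarith) h4

end Pool.Agent.K9h54.TF
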