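import Pool.Agent.K9h54.TF.Up1

set_option autoImplicit false

/-!
# One more prime: the normalised counts, shifts upwards
-/

namespace Pool.Agent.K9h54.TF

open Finset Filter
open Pool.Agent.H387R2.Uni (nuT locT CT CT_hasProd CT_nonneg)
open Pool.Agent.H373R2.T7 (pz mem_pz Vz Vz_pos)
open Pool.Agent.K9h54.MP (pow_le_exp)

/-- the elements for which `n + d` is divisible by a small prime are few -/
theorem few_bad_up {A T : Finset ℕ} {k w d : ℕ} (hT : T.card = k) (hA : ∀ n ∈ A, ∀ h ∈ T, (n + h).Prime)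
    (hcov : ∀ p ∈ pz w, ∃ h ∈ T, h % p = d % p) :
    (A.card : ℝ) ≤ ((A.filter (fun n : ℕ => (n + d).Coprime (∏ q ∈ pz w, q))).card : ℝ) + k * w ∧
    ((A.filter (fun n : ℕ => (n + d).Coprime (∏ q ∈ pz w, q))).card : ℝ) ≤ A.card := by
  classical
  refine ⟨?_, by exact_mod_cast card_filter_le _ _⟩
  have h1 := card_filter_add_card_filter_not (s := A) (fun n : ℕ => (n + d).Coprime (∏ q ∈ pz w, q))
  have h2 : A.filter (fun n : ℕ => ¬ (n + d).Coprime (∏ q ∈ pz w, q)) ⊆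
      (T ×ˢ pz w).image (fun q : ℕ × ℕ => q.2 - q.1) := by
    intro n hn
    rw [mem_filter, cop_iff] at hn
    obtain ⟨hnA, hn2⟩ := hn
    push Not at hn2
    obtain ⟨p, hp, hpd⟩ := hn2
    obtain ⟨h, hh, hhd⟩ := hcov p hp
    rw [mem_image]
    refine ⟨(h, p), mem_product.2 ⟨hh, hp⟩, ?_⟩
    have hpr := hA n hnA h hh
    have hpp := (mem_pz.1 hp).2
    have h3 : (p : ℤ) ∣ (n : ℤ) + d := by exact_mod_cast hpd
    have h4 : (p : ℤ) ∣ (d : ℤ) - h := (Nat.modEq_iff_dvd (n := p) (a := h) (b := d)).1 hhd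
    have h5 : p ∣ n + h := by
      have h6 : (p : ℤ) ∣ ((n + h : ℕ) : ℤ) := by
        have h7 := dvd_sub h3 h4
        have e7 : (n : ℤ) + d - ((d : ℤ) - h) = ((n + h : ℕ) : ℤ) := by push_cast; ring
        rw [e7] at h7
        exact h7
      exact_mod_cast h6
    have h6 := (Nat.prime_dvd_prime_iff_eq hpp hpr).1 h5
    simp only
    omega
  have h3 := card_le_card h2
  have h4 : ((T ×ˢ pz w).image (fun q : ℕ × ℕ => q.2 - q.1)).card ≤ k * w := by
    refine card_image_le.trans ?_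
    rw [card_product, hT]
    apply Nat.mul_le_mul_left
    unfold pz
    refine (card_filter_le _ _).trans ?_
    simp
  have h5 : A.card ≤ (A.filter (fun n : ℕ => (n + d).Coprime (∏ q ∈ pz w, q))).card + k * w := by omega
  exact_mod_cast h5

/-- one more prime is free: shifts upwards -/
theorem up2 (k : ℕ) (hk : 1 ≤ k) : ∃ C5 : ℝ, 1 ≤ C5 ∧ ∀ ε : ℝ, 0 < ε → ∀ w0 : ℕ, ∃ w : ℕ, w0 ≤ w ∧
    ∀ C : ℕ, ∃ x1 : ℕ, ∀ x : ℕ, x1 ≤ x → ∀ T : Finset ℕ, T.card = k → (∀ p, p.Prime → nuT T p < p) →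
    (∀ h ∈ T, h ≤ x) → ∀ A ⊆ Icc 1 x, (∀ n ∈ A, ∀ h ∈ T, (n + h).Prime) →
      (0 < CT T ∧ (A.card : ℝ) * Real.log x ^ k / (CT T * x) ≤ C5) ∧
      ∀ u H b : ℕ, (∀ p ∈ pz w, ∃ h ∈ T, h % p = b % p) → (x : ℝ) ≤ H * Real.log x ^ C →
      u + H ≤ x →
      (∀ d ∈ Ioc u (u + H), d % (∏ q ∈ pz w, q) = b % (∏ q ∈ pz w, q) → 0 < CT (insert d T)) ∧
      (((Ioc u (u + H)).filter (fun d : ℕ => d % (∏ q ∈ pz w, q) = b % (∏ q ∈ pz w, q) ∧ d ∉ T ∧
        ε < |((A.filter (fun n : ℕ => (n + d).Prime)).card : ℝ) * Real.log x ^ (k + 1) / (CT (insert d T) * x) -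
          (A.card : ℝ) * Real.log x ^ k / (CT T * x)|)).card : ℝ) ≤ ε * (H / (∏ q ∈ pz w, q : ℕ)) := by
  classical
  obtain ⟨C5, hC5, hfin⟩ := up1 k hk
  obtain ⟨c0, hc0, hCTl⟩ := CT_low k
  refine ⟨C5, hC5, fun ε hε w0 => ?_⟩
  obtain ⟨e, he⟩ : ∃ e, e = min ε 1 := ⟨_, rfl⟩
  have he0 : 0 < e := by rw [he]; exact lt_min hε one_pos
  have he1 : e ≤ 1 := by rw [he]; exact min_le_right _ _
  have heε : e ≤ ε := by rw [he]; exact min_le_left _ _
  obtain ⟨η, hη⟩ : ∃ η, η = e / 12 := ⟨_, rfl⟩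
  have hη0 : 0 < η := by rw [hη]; positivity
  obtain ⟨ρ, hρ⟩ : ∃ ρ, ρ = e / (4 * C5) := ⟨_, rfl⟩
  have hρ0 : 0 < ρ := by rw [hρ]; positivity
  have hρC : C5 * ρ = e / 4 := by rw [hρ]; field_simp
  have hρ2 : ρ ≤ 1 / 4 := by nlinarith
  obtain ⟨δ, hδ⟩ : ∃ δ, δ = ρ / 4 := ⟨_, rfl⟩
  have hδ0 : 0 < δ := by rw [hδ]; positivity
  obtain ⟨w, hw0, hw4, hfin⟩ := hfin η hη0 (max w0 (⌈4 * k / ρ⌉₊ + ⌈12 * k / (δ * e)⌉₊ + 4 * k + 4))
  have hwa : 4 * k / ρ ≤ w := by
    have h1 : ⌈4 * k / ρ⌉₊ ≤ w := by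
      have := (le_max_right w0 (⌈4 * k / ρ⌉₊ + ⌈12 * k / (δ * e)⌉₊ + 4 * k + 4)).trans hw0
      omega
    exact (Nat.le_ceil _).trans (by exact_mod_cast h1)
  have hwb : 12 * k / (δ * e) ≤ w := by
    have h1 : ⌈12 * k / (δ * e)⌉₊ ≤ w := by
      have := (le_max_right w0 (⌈4 * k / ρ⌉₊ + ⌈12 * k / (δ * e)⌉₊ + 4 * k + 4)).trans hw0
      omega
    exact (Nat.le_ceil _).trans (by exact_mod_cast h1)
  have hwc : 4 * k + 4 ≤ w := by
    have := (le_max_right w0 (⌈4 * k / ρ⌉₊ + ⌈12 * k / (δ * e)⌉₊ + 4 * k + 4)).trans hw0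
    omega
  have hw0r : (0 : ℝ) < w := by exact_mod_cast (by omega : 0 < w)
  refine ⟨w, (le_max_left _ _).trans hw0, fun C => ?_⟩
  obtain ⟨x1, hfin⟩ := hfin C
  obtain ⟨W, hW⟩ : ∃ W : ℕ, W = ∏ q ∈ pz w, q := ⟨_, rfl⟩
  have hW1 : 1 ≤ W := by
    rw [hW]
    exact Nat.pos_of_ne_zero (prod_ne_zero_iff.2 fun q hq => (mem_pz.1 hq).2.ne_zero)
  have hW0r : (0 : ℝ) < W := by exact_mod_cast hW1
  obtain ⟨V, hV⟩ : ∃ V, V = (Vz w)⁻¹ := ⟨_, rfl⟩
  have hV1 : 1 ≤ V := by rw [hV]; exact (one_le_inv₀ (Vz_pos w)).2 (Vz_le_one w)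
  obtain ⟨X, hX⟩ := evlog (big4 (24 * W * k / (δ * e)) (V * (k * w)) (η * c0) V (by positivity) C k)
  refine ⟨max (max x1 X) 3, fun x hx T hT hadm hTx A hA hAp => ?_⟩
  have hx3' : 3 ≤ x := (le_max_right _ _).trans hx
  have hx0 : (0 : ℝ) < x := by exact_mod_cast (by omega : 0 < x)
  obtain ⟨l1, v1, c1, c2⟩ := hX x ((le_max_right _ _).trans ((le_max_left _ _).trans hx))
  obtain ⟨⟨a1, a3⟩, a4⟩ := hfin x ((le_max_left _ _).trans ((le_max_left _ _).trans hx)) T hT hadm hTx A hA hAp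
  obtain ⟨l, hl⟩ : ∃ l, l = Real.log x := ⟨_, rfl⟩
  have hxe : Real.exp l = x := by rw [hl, Real.exp_log hx0]
  rw [← hl] at l1 v1 c1 c2 a1 a4 ⊢
  rw [← hW, ← hV] at a4
  rw [← hW]
  rw [hxe] at c1 c2
  have hl0 : 0 < l := by linarith
  have hCTl := hCTl T hT hadm
  refine ⟨⟨a3, ?_⟩, ?_⟩
  · rw [div_le_iff₀ (by positivity)]
    have h1 := mul_le_mul_of_nonneg_right a1 (pow_pos hl0 k).le
    refine h1.trans (le_of_eq ?_)
    field_simp
  · intro u H b hcov hH huH
    have hcovd : ∀ d : ℕ, d % W = b % W → ∀ p ∈ pz w, ∃ h ∈ T, h % p = d % p := by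
      intro d hd p hp
      obtain ⟨h, hh, hhb⟩ := hcov p hp
      have h1 : d % p = b % p := by
        have h2 : d ≡ b [MOD W] := hd
        exact h2.of_dvd (by rw [hW]; exact dvd_prod_of_mem _ hp)
      exact ⟨h, hh, by rw [h1]; exact hhb⟩
    have h4kw : (4 * k : ℝ) / w ≤ ρ := by
      rw [div_le_iff₀ hρ0] at hwa
      rw [div_le_iff₀ hw0r]
      linarith
    have hrat : ∀ d ∈ Ioc u (u + H), d % W = b % W → d ∉ T → (1 - ρ) * V * CT T ≤ CT (insert d T) ∧
        CT (insert d T) ≤ Real.exp (2 * sg T w x d) * V * CT T := by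
      intro d hd hdb hdT
      have h1 := ratio (w := w) (x := x) hT hadm hdT (by have := (mem_Ioc.1 hd).2; omega) hTx (by omega) (by omega)
        (hcovd d hdb)
      rw [← hV] at h1
      refine ⟨le_trans ?_ h1.1, h1.2⟩
      have h2 : 0 ≤ V * CT T := by positivity
      nlinarith
    refine ⟨?_, ?_⟩
    · intro d hd hdb
      by_cases hdT : d ∈ T
      · rw [insert_eq_of_mem hdT]
        exact a3
      · have h1 := (hrat d hd hdb hdT).1
        have h2 : 0 < (1 - ρ) * V * CT T := by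
          have : 0 < 1 - ρ := by linarith
          positivity
        linarith
    have b1 := a4 u H b hH huH
    have b2 := avg T k w u H b x hT (by omega) δ hδ0
    rw [← hW, ← hl] at b2
    obtain ⟨D, hD⟩ : ∃ D, D = (H : ℝ) / W := ⟨_, rfl⟩
    rw [← hD] at b1 b2 ⊢
    have hD0 : 0 ≤ D := by rw [hD]; positivity
    -- the sizes
    have b3 : (k : ℝ) / δ * (D / w) ≤ e / 12 * D := by
      rw [div_le_iff₀ (by positivity)] at hwb
      have e1 : (k : ℝ) / δ * (D / w) = (12 * k) * (D / (12 * δ * w)) := by field_simp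
      rw [e1]
      calc (12 * k : ℝ) * (D / (12 * δ * w)) ≤ (w * (δ * e)) * (D / (12 * δ * w)) :=
            mul_le_mul_of_nonneg_right hwb (by positivity)
        _ = e / 12 * D := by field_simp
    have b4 : (k : ℝ) / δ * (1 + l) ≤ e / 12 * D := by
      have h1 : 24 * W * k / (δ * e) * l ^ (C + 1) ≤ H * l ^ C := c1.trans hH
      have h2 : (24 * W * k / (δ * e) * l) * l ^ C ≤ H * l ^ C := by
        rw [pow_succ] at h1
        linarith
      have h3 : 24 * W * k / (δ * e) * l ≤ H := le_of_mul_le_mul_right h2 (by positivity)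
      have h4 : 24 * W * k / (δ * e) * l * (e / (12 * W)) ≤ H * (e / (12 * W)) :=
        mul_le_mul_of_nonneg_right h3 (by positivity)
      have e2 : 24 * W * k / (δ * e) * l * (e / (12 * W)) = k / δ * (2 * l) := by
        field_simp
        ring
      have e3 : (H : ℝ) * (e / (12 * W)) = e / 12 * D := by
        rw [hD]
        field_simp
      rw [e2, e3] at h4
      refine le_trans ?_ h4
      apply mul_le_mul_of_nonneg_left _ (by positivity)
      linarith
    obtain ⟨M, hM⟩ : ∃ M, M = CT T * (x / l ^ k) := ⟨_, rfl⟩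
    have hM0 : 0 < M := by rw [hM]; positivity
    have hVkw : V * (k * w) ≤ η * M := by
      have h1 : V * (k * w) * l ^ k ≤ (η * M) * l ^ k := by
        have e1 : (η * M) * l ^ k = x * (η * CT T) := by
          rw [hM]
          field_simp
        rw [e1]
        refine c2.trans ?_
        gcongr
      exact le_of_mul_le_mul_right h1 (by positivity)
    have hsub : (Ioc u (u + H)).filter (fun d : ℕ => d % W = b % W ∧ d ∉ T ∧
        ε < |((A.filter (fun n : ℕ => (n + d).Prime)).card : ℝ) * l ^ (k + 1) / (CT (insert d T) * x) -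
          (A.card : ℝ) * l ^ k / (CT T * x)|) ⊆
        (Ioc u (u + H)).filter (fun d : ℕ => d % W = b % W ∧
          η * (CT T * (x / l ^ k)) < |l * ((A.filter (fun n : ℕ => (n + d).Prime)).card : ℝ) -
          V * ((A.filter (fun n : ℕ => (n + d).Coprime W)).card : ℝ)|) ∪
        (Ioc u (u + H)).filter (fun d : ℕ => d % W = b % W ∧ δ < sg T w x d) := by
      intro d hd
      rw [mem_filter] at hd
      obtain ⟨hd1, hd2, hdT, hd3⟩ := hd
      rw [mem_union, mem_filter, mem_filter]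
      by_contra hcon
      push Not at hcon
      obtain ⟨g1, g2⟩ := hcon
      have g1 := g1 hd1 hd2
      have g2 := g2 hd1 hd2
      obtain ⟨r1, r2⟩ := hrat d hd1 hd2 hdT
      have r3 : CT (insert d T) ≤ (1 + ρ) * V * CT T := by
        refine r2.trans ?_
        have h1 : Real.exp (2 * sg T w x d) ≤ 1 + ρ := by
          have h2 : Real.exp (2 * sg T w x d) ≤ Real.exp (2 * δ) := Real.exp_le_exp.2 (by linarith)
          have h3 := exp_le_two (t := 2 * δ) (by positivity) (by rw [hδ]; linarith)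
          rw [hδ] at h3 h2
          linarith
        have h2 : 0 ≤ V * CT T := by positivity
        nlinarith
      obtain ⟨f1, f2⟩ := few_bad_up (A := A) (T := T) (k := k) (w := w) (d := d) hT hAp (hcovd d hd2)
      rw [← hW] at f1 f2
      have g3 : |l * ((A.filter (fun n : ℕ => (n + d).Prime)).card : ℝ) - V * (A.card : ℝ)| ≤
          3 * η * (CT T * (x / l ^ k)) := by
        rw [← hM] at g1 ⊢
        have g6 := abs_le.1 g1
        have g7 : V * (A.card : ℝ) ≤ V * ((A.filter (fun n : ℕ => (n + d).Coprime W)).card : ℝ) + V * (k * w) := by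
          rw [← mul_add]
          exact mul_le_mul_of_nonneg_left f1 (by linarith)
        have g8 : V * ((A.filter (fun n : ℕ => (n + d).Coprime W)).card : ℝ) ≤ V * (A.card : ℝ) :=
          mul_le_mul_of_nonneg_left f2 (by linarith)
        rw [abs_le]
        constructor <;> linarith
      have g9 := fin_calc (k := k) hl0 hx0 hV1 a3 (Nat.cast_nonneg A.card) hη0.le hρ0.le (by linarith) a1 g3 r1 r3
      have g10 : 2 * (3 * η + C5 * ρ) ≤ ε := by
        rw [hρC, hη]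
        linarith
      linarith
    have hc := (card_le_card hsub).trans (card_union_le _ _)
    have hc' : (((Ioc u (u + H)).filter (fun d : ℕ => d % W = b % W ∧ d ∉ T ∧
        ε < |((A.filter (fun n : ℕ => (n + d).Prime)).card : ℝ) * l ^ (k + 1) / (CT (insert d T) * x) -
          (A.card : ℝ) * l ^ k / (CT T * x)|)).card : ℝ) ≤
        (((Ioc u (u + H)).filter (fun d : ℕ => d % W = b % W ∧
          η * (CT T * (x / l ^ k)) < |l * ((A.filter (fun n : ℕ => (n + d).Prime)).card : ℝ) -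
          V * ((A.filter (fun n : ℕ => (n + d).Coprime W)).card : ℝ)|)).card : ℝ) +
        (((Ioc u (u + H)).filter (fun d : ℕ => d % W = b % W ∧ δ < sg T w x d)).card : ℝ) := by exact_mod_cast hc
    have b5 : (k : ℝ) / δ * (D / w + (1 + l)) = k / δ * (D / w) + k / δ * (1 + l) := by ring
    rw [b5] at b2
    have b6 : e * D ≤ ε * D := mul_le_mul_of_nonneg_right heε hD0
    have b8 : η * D = e / 12 * D := by rw [hη]
    have b7 : 0 ≤ e * D := by positivity
    linarith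

end Pool.Agent.K9h54.TF
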